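import Pool.Agent.H761R2.SV.Pomp

/-!
# Basic measure facts for the unique continuation problem
-/

set_option autoImplicit false

open MeasureTheory Filter Topology Metric Set
open scoped ENNReal NNReal

noncomputable section

namespace Pool.Agent.V1191.UC

abbrev E (n : ℕ) := EuclideanSpace ℂ (Fin n)

variable {n : ℕ}

theorem finrank_E : Module.finrank ℂ (E n) = n := by simp

theorem det_smul {V : Type*} [AddCommGroup V] [Module ℂ V] [Module ℝ V] [IsScalarTower ℝ ℂ V]
    [FiniteDimensional ℂ V] (ξ : ℂ) :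
    LinearMap.det ((ξ • LinearMap.id : V →ₗ[ℂ] V).restrictScalars ℝ)
      = ‖ξ‖ ^ (2 * Module.finrank ℂ V) := by
  rw [LinearMap.det_restrictScalars, LinearMap.det_smul, LinearMap.det_id, mul_one,
    Algebra.norm_complex_apply, Complex.normSq_eq_norm_sq, norm_pow, ← pow_mul]
  ring

theorem enorm_fac {ξ : ℂ} (hξ : ξ ≠ 0) (k : ℕ) :
    ENNReal.ofReal |(‖ξ‖ ^ k)⁻¹| = (‖ξ‖ₑ⁻¹) ^ k := by
  have h : 0 < ‖ξ‖ := norm_pos_iff.mpr hξ
  rw [abs_of_pos (by positivity), ENNReal.ofReal_inv_of_pos (by positivity),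
    ENNReal.ofReal_pow h.le, ofReal_norm, ENNReal.inv_pow]

theorem lintegral_smulE {ξ : ℂ} (hξ : ξ ≠ 0) {H : E n → ℝ≥0∞} (hH : Measurable H) :
    ∫⁻ y, H (ξ • y) = (‖ξ‖ₑ⁻¹) ^ (2 * n) * ∫⁻ y, H y := by
  have hd := det_smul (V := E n) ξ
  rw [finrank_E] at hd
  have hne : LinearMap.det ((ξ • LinearMap.id : E n →ₗ[ℂ] E n).restrictScalars ℝ) ≠ 0 := by
    rw [hd]
    exact pow_ne_zero _ (norm_ne_zero_iff.mpr hξ)
  have h := Measure.map_linearMap_addHaar_eq_smul_addHaar (volume : Measure (E n)) hne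
  rw [hd, enorm_fac hξ] at h
  have hm : Measurable (fun y : E n => ξ • y) := (continuous_const_smul ξ).measurable
  have h2 : ∫⁻ y, H y ∂(Measure.map (fun y : E n => ξ • y) volume) = ∫⁻ y, H (ξ • y) :=
    lintegral_map hH hm
  rw [← h2]
  have h3 : Measure.map (fun y : E n => ξ • y) volume = (‖ξ‖ₑ⁻¹) ^ (2 * n) • (volume : Measure (E n)) := h
  rw [h3, lintegral_smul_measure, smul_eq_mul]

theorem lintegral_mulC {ξ : ℂ} (hξ : ξ ≠ 0) {H : ℂ → ℝ≥0∞} (hH : Measurable H) :
    ∫⁻ y, H (ξ * y) = (‖ξ‖ₑ⁻¹) ^ 2 * ∫⁻ y, H y := by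
  have hd := det_smul (V := ℂ) ξ
  rw [Module.finrank_self, mul_one] at hd
  have hne : LinearMap.det ((ξ • LinearMap.id : ℂ →ₗ[ℂ] ℂ).restrictScalars ℝ) ≠ 0 := by
    rw [hd]
    exact pow_ne_zero _ (norm_ne_zero_iff.mpr hξ)
  have h := Measure.map_linearMap_addHaar_eq_smul_addHaar (volume : Measure ℂ) hne
  rw [hd, enorm_fac hξ] at h
  have hm : Measurable (fun y : ℂ => ξ * y) := (continuous_const_mul ξ).measurable
  have h2 : ∫⁻ y, H y ∂(Measure.map (fun y : ℂ => ξ * y) volume) = ∫⁻ y, H (ξ * y) :=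
    lintegral_map hH hm
  rw [← h2]
  have h3 : Measure.map (fun y : ℂ => ξ * y) volume = (‖ξ‖ₑ⁻¹) ^ 2 • (volume : Measure ℂ) := h
  rw [h3, lintegral_smul_measure, smul_eq_mul]

/-- local integrability of `|1 - ξ|⁻¹` -/
theorem lintegral_cauchy_lt (M : ℝ) :
    ∫⁻ ξ in ball (0 : ℂ) M, ‖1 - ξ‖ₑ⁻¹ < ∞ := by
  have h1 := (Pool.Agent.H761R2.SV.integrableOn_norm_inv (M + 1)).2
  unfold HasFiniteIntegral at h1
  have h2 : ∫⁻ ξ in ball (0 : ℂ) (M + 1), ‖ξ‖ₑ⁻¹ < ∞ := by
    refine lt_of_le_of_lt (le_of_eq ?_) h1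
    apply lintegral_congr_ae
    have h0 : ∀ᵐ ξ : ℂ ∂(volume.restrict (ball (0 : ℂ) (M + 1))), ξ ≠ 0 := by
      apply ae_restrict_of_ae
      simp [ae_iff, measure_singleton]
    filter_upwards [h0] with ξ hξ
    rw [← ofReal_norm, ← ENNReal.ofReal_inv_of_pos (norm_pos_iff.mpr hξ), Real.enorm_eq_ofReal (by positivity)]
  rw [← lintegral_indicator measurableSet_ball] at h2 ⊢
  rw [← lintegral_sub_left_eq_self _ (1 : ℂ)] at h2
  refine lt_of_le_of_lt (lintegral_mono fun ξ => ?_) h2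
  by_cases hξ : ξ ∈ ball (0 : ℂ) M
  · have : 1 - ξ ∈ ball (0 : ℂ) (M + 1) := by
      rw [mem_ball_zero_iff] at hξ ⊢
      calc ‖1 - ξ‖ ≤ ‖(1 : ℂ)‖ + ‖ξ‖ := norm_sub_le _ _
        _ < M + 1 := by rw [norm_one]; linarith
    rw [indicator_of_mem hξ, indicator_of_mem this]
  · rw [indicator_of_notMem hξ]
    exact zero_le

/-- integrability of powers of the norm near the origin -/
theorem lintegral_rpow_ball {s : ℝ} (hs : s < 2) (M : ℝ) :
    ∫⁻ ξ in ball (0 : ℂ) M, ENNReal.ofReal (‖ξ‖ ^ (-s)) < ∞ := by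
  have h1 : IntegrableOn (fun w : ℂ => ‖w‖ ^ (-s)) (ball (0 : ℂ) M) := by
    rw [integrableOn_fun_norm_addHaar (volume : Measure ℂ) (f := fun y : ℝ => y ^ (-s))]
    have h1 : IntegrableOn (fun y : ℝ => y ^ (1 - s)) (Ioo 0 M) := by
      rcases le_or_gt M 0 with hM | hM
      · rw [Ioo_eq_empty (not_lt.mpr hM)]; exact integrableOn_empty
      · rw [← intervalIntegrable_iff_integrableOn_Ioo_of_le hM.le]
        exact intervalIntegral.intervalIntegrable_rpow' (by linarith)
    refine h1.congr_fun ?_ measurableSet_Ioo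
    intro y hy
    have hy0 : 0 < y := hy.1
    simp only [Complex.finrank_real_complex, smul_eq_mul]
    rw [show (2 - 1 : ℕ) = 1 from rfl, pow_one, sub_eq_add_neg, Real.rpow_add hy0, Real.rpow_one]
  have h2 := h1.2
  unfold HasFiniteIntegral at h2
  refine lt_of_le_of_lt (le_of_eq ?_) h2
  apply lintegral_congr
  intro ξ
  rw [Real.enorm_eq_ofReal (by positivity)]

/-- integrability of powers of the norm near infinity -/
theorem lintegral_rpow_compl {s : ℝ} (hs : 2 < s) {M : ℝ} (hM : 0 < M) :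
    ∫⁻ ξ in (ball (0 : ℂ) M)ᶜ, ENNReal.ofReal (‖ξ‖ ^ (-s)) < ∞ := by
  have h1 : Integrable (fun w : ℂ => (fun y : ℝ => (Ici M).indicator (fun y => y ^ (-s)) y) ‖w‖) := by
    rw [integrable_fun_norm_addHaar (volume : Measure ℂ)]
    have h1 : IntegrableOn (fun y : ℝ => y ^ (1 - s)) (Ici M) := by
      rw [integrableOn_Ici_iff_integrableOn_Ioi]
      exact integrableOn_Ioi_rpow_of_lt (by linarith) hM
    rw [← integrable_indicator_iff measurableSet_Ici] at h1
    refine h1.integrableOn.congr_fun ?_ measurableSet_Ioi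
    intro y hy
    have hy0 : 0 < y := hy
    simp only [Complex.finrank_real_complex, smul_eq_mul]
    by_cases h : y ∈ Ici M
    · rw [indicator_of_mem h, indicator_of_mem h]
      rw [show (2 - 1 : ℕ) = 1 from rfl, pow_one, sub_eq_add_neg, Real.rpow_add hy0, Real.rpow_one]
    · rw [indicator_of_notMem h, indicator_of_notMem h, mul_zero]
  have h2 := h1.2
  unfold HasFiniteIntegral at h2
  refine lt_of_le_of_lt ?_ h2
  rw [← lintegral_indicator measurableSet_ball.compl]
  apply lintegral_mono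
  intro ξ
  by_cases h : ξ ∈ (ball (0 : ℂ) M)ᶜ
  · have h' : ‖ξ‖ ∈ Ici M := by
      simpa using h
    rw [indicator_of_mem h]
    simp only [indicator_of_mem h']
    rw [Real.enorm_eq_ofReal (by positivity)]
  · rw [indicator_of_notMem h]
    exact zero_le

/-- the singular kernel -/
def ker (r : ℝ) (w : ℂ) : ℝ≥0∞ := ENNReal.ofReal (‖w‖ ^ (r / 2 - 2) * ‖1 - w‖ ^ (-r))

theorem ker_meas (r : ℝ) : Measurable (ker r) := by
  unfold ker
  apply Measurable.ennreal_ofReal
  exact (measurable_norm.pow_const _).mul (((measurable_const.sub measurable_id).norm).pow_const _)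

theorem lintegral_ker {r : ℝ} (h1 : 1 < r) (h2 : r < 2) : ∫⁻ w, ker r w < ∞ := by
  have hb : ∀ w : ℂ, ker r w ≤
      (ball (0 : ℂ) (1 / 2)).indicator (fun w => ENNReal.ofReal (2 ^ r) * ENNReal.ofReal (‖w‖ ^ (-(2 - r / 2)))) w
      + ((ball (0 : ℂ) 2)ᶜ).indicator (fun w => ENNReal.ofReal (2 ^ r) * ENNReal.ofReal (‖w‖ ^ (-(2 + r / 2)))) w
      + (ball (0 : ℂ) 4).indicator (fun w => ENNReal.ofReal (2 ^ (2 - r / 2)) * ENNReal.ofReal (‖w‖ ^ (-r))) (1 - w) := by
    intro w
    have hr0 : 0 < r := by linarith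
    by_cases hA : w ∈ ball (0 : ℂ) (1 / 2)
    · rw [indicator_of_mem hA]
      refine le_trans ?_ (le_add_right (le_add_right le_rfl))
      unfold ker
      rw [← ENNReal.ofReal_mul (by positivity)]
      apply ENNReal.ofReal_le_ofReal
      rw [mem_ball_zero_iff] at hA
      have h3 : (1 / 2 : ℝ) ≤ ‖1 - w‖ := by
        have := norm_sub_norm_le (1 : ℂ) w
        rw [norm_one] at this
        linarith
      rw [mul_comm, show r / 2 - 2 = -(2 - r / 2) by ring]
      apply mul_le_mul_of_nonneg_right _ (by positivity)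
      calc ‖1 - w‖ ^ (-r) ≤ (1 / 2 : ℝ) ^ (-r) :=
            Real.rpow_le_rpow_of_nonpos (by norm_num) h3 (by linarith)
        _ = 2 ^ r := by
            rw [Real.rpow_neg (by norm_num), one_div, Real.inv_rpow (by norm_num), inv_inv]
    by_cases hB : w ∈ (ball (0 : ℂ) 2)ᶜ
    · rw [indicator_of_mem hB]
      refine le_trans ?_ (le_add_right (le_add_left le_rfl))
      unfold ker
      rw [← ENNReal.ofReal_mul (by positivity)]
      apply ENNReal.ofReal_le_ofReal
      have hB' : 2 ≤ ‖w‖ := by simpa using hB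
      have h3 : ‖w‖ / 2 ≤ ‖1 - w‖ := by
        have := norm_sub_norm_le w (1 : ℂ)
        rw [norm_one, norm_sub_rev] at this
        linarith
      have hw0 : 0 < ‖w‖ := by linarith
      calc ‖w‖ ^ (r / 2 - 2) * ‖1 - w‖ ^ (-r) ≤ ‖w‖ ^ (r / 2 - 2) * (‖w‖ / 2) ^ (-r) := by
            apply mul_le_mul_of_nonneg_left _ (by positivity)
            exact Real.rpow_le_rpow_of_nonpos (by positivity) h3 (by linarith)
        _ = 2 ^ r * ‖w‖ ^ (-(2 + r / 2)) := by
            rw [Real.div_rpow hw0.le (by norm_num), Real.rpow_neg (by norm_num : (0 : ℝ) ≤ 2),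
              div_inv_eq_mul, show -(2 + r / 2) = (r / 2 - 2) + (-r) by ring, Real.rpow_add hw0]
            ring
    · have hA' : 1 / 2 ≤ ‖w‖ := by simpa using hA
      have hB' : ‖w‖ < 2 := by simpa using hB
      have hC : 1 - w ∈ ball (0 : ℂ) 4 := by
        rw [mem_ball_zero_iff]
        calc ‖1 - w‖ ≤ ‖(1 : ℂ)‖ + ‖w‖ := norm_sub_le _ _
          _ < 4 := by rw [norm_one]; linarith
      rw [indicator_of_mem hC]
      refine le_trans ?_ (le_add_left le_rfl)
      unfold ker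
      rw [← ENNReal.ofReal_mul (by positivity)]
      apply ENNReal.ofReal_le_ofReal
      apply mul_le_mul_of_nonneg_right _ (by positivity)
      calc ‖w‖ ^ (r / 2 - 2) ≤ (1 / 2 : ℝ) ^ (r / 2 - 2) :=
            Real.rpow_le_rpow_of_nonpos (by norm_num) hA' (by linarith)
        _ = 2 ^ (2 - r / 2) := by
            rw [show r / 2 - 2 = -(2 - r / 2) by ring, Real.rpow_neg (by norm_num), one_div,
              Real.inv_rpow (by norm_num), inv_inv]
  have hm : ∀ s : ℝ, Measurable fun w : ℂ => ENNReal.ofReal (‖w‖ ^ s) := fun s =>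
    (measurable_norm.pow_const s).ennreal_ofReal
  refine lt_of_le_of_lt (lintegral_mono hb) ?_
  rw [lintegral_add_right, lintegral_add_right]
  · apply ENNReal.add_lt_top.mpr
    constructor
    · apply ENNReal.add_lt_top.mpr
      constructor
      · rw [lintegral_indicator measurableSet_ball, lintegral_const_mul _ (hm _)]
        exact ENNReal.mul_lt_top ENNReal.ofReal_lt_top (lintegral_rpow_ball (by linarith) _)
      · rw [lintegral_indicator measurableSet_ball.compl, lintegral_const_mul _ (hm _)]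
        exact ENNReal.mul_lt_top ENNReal.ofReal_lt_top (lintegral_rpow_compl (by linarith) (by norm_num))
    · rw [lintegral_sub_left_eq_self (fun w => (ball (0 : ℂ) 4).indicator
        (fun w => ENNReal.ofReal (2 ^ (2 - r / 2)) * ENNReal.ofReal (‖w‖ ^ (-r))) w) (1 : ℂ),
        lintegral_indicator measurableSet_ball, lintegral_const_mul _ (hm _)]
      exact ENNReal.mul_lt_top ENNReal.ofReal_lt_top (lintegral_rpow_ball h2 _)
  · exact ((hm _).const_mul _).indicator measurableSet_ball.compl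
  · exact (((hm _).const_mul _).indicator measurableSet_ball).comp (measurable_const.sub measurable_id)

end Pool.Agent.V1191.UC
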