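import Pool.Agent.V1191.UC.Base

/-!
# The Cauchy-Pompeiu inequality along complex lines
-/

set_option autoImplicit false

open MeasureTheory Filter Topology Metric Set
open scoped ENNReal NNReal ContDiff

noncomputable section

namespace Pool.Agent.V1191.UC

variable {n : ℕ}

section lin

variable {V F : Type*} [NormedAddCommGroup V] [NormedSpace ℂ V] [NormedSpace ℝ V]
  [IsScalarTower ℝ ℂ V] [NormedAddCommGroup F] [NormedSpace ℂ F] [NormedSpace ℝ F]
  [IsScalarTower ℝ ℂ F]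

/-- the antilinear part of a real linear map -/
def dbl (L : V →L[ℝ] F) (e : V) : F := (1 / 2 : ℂ) • (L e + Complex.I • L (Complex.I • e))

/-- the antilinear part of the real derivative of `φ` at `x` in the direction `e` -/
def db (φ : V → F) (x e : V) : F :=
  (1 / 2 : ℂ) • (fderiv ℝ φ x e + Complex.I • fderiv ℝ φ x (Complex.I • e))

theorem db_eq (φ : V → F) (x e : V) : db φ x e = dbl (fderiv ℝ φ x) e := rfl

theorem dbl_add (L : V →L[ℝ] F) (e e' : V) : dbl L (e + e') = dbl L e + dbl L e' := by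
  unfold dbl
  rw [smul_add Complex.I e e', map_add, map_add]
  module

theorem complex_smul_eq {W : Type*} [NormedAddCommGroup W] [NormedSpace ℂ W] [NormedSpace ℝ W]
    [IsScalarTower ℝ ℂ W] (a : ℝ) (v : W) : (a : ℂ) • v = a • v := by
  rw [← algebraMap_smul ℂ a v]
  rfl

theorem dbl_smul (L : V →L[ℝ] F) (c : ℂ) (e : V) :
    dbl L (c • e) = (starRingEnd ℂ) c • dbl L e := by
  have h1 : c • e = c.re • e + c.im • (Complex.I • e) := by
    rw [← complex_smul_eq, ← complex_smul_eq, smul_smul, ← add_smul, Complex.re_add_im]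
  have h2 : Complex.I • (c • e) = c.re • (Complex.I • e) + (-c.im) • e := by
    rw [← complex_smul_eq, ← complex_smul_eq, smul_smul, smul_smul, ← add_smul]
    congr 1
    apply Complex.ext <;> simp
  have a1 : L (c • e) = c.re • L e + c.im • L (Complex.I • e) := by
    rw [h1, L.map_add, L.map_smul, L.map_smul]
  have a2 : L (Complex.I • (c • e)) = c.re • L (Complex.I • e) + (-c.im) • L e := by
    rw [h2, L.map_add, L.map_smul, L.map_smul]
  have h3 : (starRingEnd ℂ) c = (c.re : ℂ) - (c.im : ℂ) * Complex.I := by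
    apply Complex.ext <;> simp
  have hI : Complex.I * Complex.I = -1 := Complex.I_mul_I
  unfold dbl
  rw [a1, a2, h3, ← complex_smul_eq, ← complex_smul_eq, ← complex_smul_eq, ← complex_smul_eq]
  push_cast
  linear_combination (norm := module) ((1 / 2 : ℂ) * c.im) • hI • L (Complex.I • e)

theorem dbl_zero (L : V →L[ℝ] F) : dbl L 0 = 0 := by
  unfold dbl
  simp

theorem dbl_sum {ι : Type*} (L : V →L[ℝ] F) (s : Finset ι) (f : ι → V) :
    dbl L (∑ i ∈ s, f i) = ∑ i ∈ s, dbl L (f i) := by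
  classical
  induction s using Finset.induction_on with
  | empty => simp [dbl_zero]
  | insert a s ha ih => rw [Finset.sum_insert ha, Finset.sum_insert ha, dbl_add, ih]

end lin

/-- the coordinate vectors -/
def ev (j : Fin n) : E n := EuclideanSpace.single j (1 : ℂ)

theorem sum_ev (y : E n) : ∑ j, y j • ev j = y := by
  ext i
  simp only [ev, WithLp.ofLp_sum, Finset.sum_apply, PiLp.smul_apply, smul_eq_mul]
  rw [Finset.sum_eq_single i]
  · simp
  · intro b _ hb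
    simp [hb.symm]
  · simp

theorem norm_dbl_le {F : Type*} [NormedAddCommGroup F] [NormedSpace ℂ F] [NormedSpace ℝ F]
    [IsScalarTower ℝ ℂ F] (L : E n →L[ℝ] F) (y : E n) :
    ‖dbl L y‖ₑ ≤ ‖y‖ₑ * ∑ j, ‖dbl L (ev j)‖ₑ := by
  have h1 : dbl L y = ∑ j, (starRingEnd ℂ) (y j) • dbl L (ev j) := by
    conv_lhs => rw [← sum_ev y]
    rw [dbl_sum]
    exact Finset.sum_congr rfl fun j _ => dbl_smul _ _ _
  rw [h1, Finset.mul_sum]
  refine (enorm_sum_le _ _).trans (Finset.sum_le_sum fun j _ => ?_)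
  rw [enorm_smul]
  gcongr
  rw [← ofReal_norm, ← ofReal_norm, RCLike.norm_conj]
  exact ENNReal.ofReal_le_ofReal (PiLp.norm_apply_le y j)

/-- the Cauchy type operator along complex lines through the origin -/
def T (N : ℕ) (H : E n → ℝ≥0∞) (y : E n) : ℝ≥0∞ :=
  ∫⁻ ξ : ℂ, ‖y‖ₑ * H (ξ • y) * (‖ξ‖ₑ⁻¹) ^ N * ‖1 - ξ‖ₑ⁻¹

theorem dbar_holo_mul {a b : ℂ → ℂ} {ξ a' : ℂ} (ha : HasDerivAt a a' ξ)
    (hb : DifferentiableAt ℝ b ξ) :
    Pool.Agent.H761R2.SV.dbar (fun w => a w * b w) ξ = a ξ * Pool.Agent.H761R2.SV.dbar b ξ := by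
  have h1 : HasFDerivAt a ((ContinuousLinearMap.toSpanSingleton ℂ a').restrictScalars ℝ) ξ :=
    ha.hasFDerivAt.restrictScalars ℝ
  have h2 := h1.mul hb.hasFDerivAt
  have h3 : fderiv ℝ (fun w => a w * b w) ξ = _ := h2.fderiv
  unfold Pool.Agent.H761R2.SV.dbar
  rw [h3]
  simp only [add_apply, smul_apply,
    ContinuousLinearMap.coe_restrictScalars', ContinuousLinearMap.toSpanSingleton_apply, smul_eq_mul]
  have hI : Complex.I * Complex.I = -1 := Complex.I_mul_I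
  linear_combination (b ξ * a' / 2) * hI

theorem cp {F : Type*} [NormedAddCommGroup F] [NormedSpace ℂ F] [NormedSpace ℝ F]
    [IsScalarTower ℝ ℂ F] {φ : E n → F} (hφ : ContDiff ℝ 1 φ) (hc : HasCompactSupport φ)
    (h0 : (0 : E n) ∉ tsupport φ) (N : ℕ) (y : E n) :
    ‖φ y‖ₑ ≤ T N (fun x => ∑ j, ‖db φ x (ev j)‖ₑ) y := by
  rcases eq_or_ne (φ y) 0 with hz | hz
  · rw [hz, enorm_zero]; exact zero_le
  have hy : y ≠ 0 := by
    rintro rfl
    exact h0 (subset_tsupport φ hz)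
  have hy' : 0 < ‖y‖ := norm_pos_iff.mpr hy
  obtain ⟨ℓ, hℓ1, hℓ2⟩ := exists_dual_vector ℂ (φ y) (norm_ne_zero_iff.mpr hz)
  set G : ℂ → ℂ := fun ξ => (ξ⁻¹) ^ N * ℓ (φ (ξ • y)) with hG
  have hcs : Continuous fun ξ : ℂ => ξ • y := continuous_id.smul continuous_const
  have hd1 : ∀ ξ : ℂ, HasFDerivAt (fun ξ : ℂ => ξ • y)
      ((ContinuousLinearMap.toSpanSingleton ℂ y).restrictScalars ℝ) ξ := by
    intro ξ
    exact ((ContinuousLinearMap.toSpanSingleton ℂ y).hasFDerivAt (x := ξ)).restrictScalars ℝ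
  have hsm : ContDiff ℝ 1 fun ξ : ℂ => ξ • y := by
    have : ContDiff ℝ 1 (((ContinuousLinearMap.toSpanSingleton ℂ y).restrictScalars ℝ) : ℂ → E n) :=
      ContinuousLinearMap.contDiff _
    exact this
  have hb : ContDiff ℝ 1 fun ξ : ℂ => ℓ (φ (ξ • y)) := by
    have h1 : ContDiff ℝ 1 ((ℓ.restrictScalars ℝ) : F → ℂ) := ContinuousLinearMap.contDiff _
    exact h1.comp (hφ.comp hsm)
  have hzero : ∀ᶠ ξ : ℂ in 𝓝 0, φ (ξ • y) = 0 := by
    have h1 : Tendsto (fun ξ : ℂ => ξ • y) (𝓝 0) (𝓝 0) := by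
      have := hcs.tendsto 0
      rwa [zero_smul] at this
    have h2 : (tsupport φ)ᶜ ∈ 𝓝 (0 : E n) := (isClosed_tsupport φ).isOpen_compl.mem_nhds h0
    filter_upwards [h1 h2] with ξ hξ
    exact image_eq_zero_of_notMem_tsupport hξ
  have hGd : ContDiff ℝ 1 G := by
    rw [contDiff_iff_contDiffAt]
    intro ξ
    rcases eq_or_ne ξ 0 with rfl | hξ
    · have : G =ᶠ[𝓝 0] fun _ => (0 : ℂ) := by
        filter_upwards [hzero] with ξ hξ
        rw [hG]
        simp [hξ]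
      exact contDiffAt_const.congr_of_eventuallyEq this
    · have h1 : ContDiffAt ℝ 1 (fun ξ : ℂ => (ξ⁻¹) ^ N) ξ := (contDiffAt_inv ℝ hξ).pow N
      exact h1.mul hb.contDiffAt
  obtain ⟨R, hR⟩ := hc.isCompact.isBounded.subset_closedBall (0 : E n)
  have hGc : HasCompactSupport G := by
    apply HasCompactSupport.intro (isCompact_closedBall (0 : ℂ) (R / ‖y‖))
    intro ξ hξ
    have h1 : φ (ξ • y) = 0 := by
      apply image_eq_zero_of_notMem_tsupport
      intro hmem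
      apply hξ
      have := hR hmem
      rw [mem_closedBall_zero_iff, norm_smul] at this
      rw [mem_closedBall_zero_iff, le_div_iff₀ hy']
      exact this
    rw [hG]
    simp [h1]
  have hP := Pool.Agent.H761R2.SV.pompeiu_compact hGd hGc 1
  have hG1 : G 1 = ‖φ y‖ := by
    rw [hG]
    simp only [inv_one, one_pow, one_mul, one_smul]
    rw [hℓ2]
    rfl
  have hdbar : ∀ ξ : ℂ, ξ ≠ 0 → ‖Pool.Agent.H761R2.SV.dbar G ξ‖ₑ ≤
      ‖y‖ₑ * (∑ j, ‖db φ (ξ • y) (ev j)‖ₑ) * (‖ξ‖ₑ⁻¹) ^ N := by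
    intro ξ hξ
    have ha : HasDerivAt (fun ξ : ℂ => (ξ⁻¹) ^ N) _ ξ := (hasDerivAt_inv hξ).pow N
    have hφd : HasFDerivAt φ (fderiv ℝ φ (ξ • y)) (ξ • y) :=
      (hφ.differentiable (by norm_num) _).hasFDerivAt
    have hcomp : HasFDerivAt (fun ξ : ℂ => ℓ (φ (ξ • y)))
        ((ℓ.restrictScalars ℝ).comp ((fderiv ℝ φ (ξ • y)).comp
          ((ContinuousLinearMap.toSpanSingleton ℂ y).restrictScalars ℝ))) ξ :=
      (ℓ.restrictScalars ℝ).hasFDerivAt.comp ξ (hφd.comp ξ (hd1 ξ))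
    have h1 : Pool.Agent.H761R2.SV.dbar G ξ = (ξ⁻¹) ^ N *
        Pool.Agent.H761R2.SV.dbar (fun ξ : ℂ => ℓ (φ (ξ • y))) ξ :=
      dbar_holo_mul ha hcomp.differentiableAt
    have h2 : Pool.Agent.H761R2.SV.dbar (fun ξ : ℂ => ℓ (φ (ξ • y))) ξ
        = ℓ (dbl (fderiv ℝ φ (ξ • y)) y) := by
      unfold Pool.Agent.H761R2.SV.dbar dbl
      rw [hcomp.fderiv]
      simp only [ContinuousLinearMap.comp_apply, ContinuousLinearMap.coe_restrictScalars',
        ContinuousLinearMap.toSpanSingleton_apply, one_smul, map_smul, map_add, smul_eq_mul]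
      ring
    rw [h1, h2, enorm_mul, enorm_pow, enorm_inv hξ]
    rw [mul_comm]
    gcongr
    calc ‖ℓ (dbl (fderiv ℝ φ (ξ • y)) y)‖ₑ ≤ ‖ℓ‖ₑ * ‖dbl (fderiv ℝ φ (ξ • y)) y‖ₑ :=
          ContinuousLinearMap.le_opENorm _ _
      _ = ‖dbl (fderiv ℝ φ (ξ • y)) y‖ₑ := by
          rw [← ofReal_norm ℓ, hℓ1, ENNReal.ofReal_one, one_mul]
      _ ≤ _ := norm_dbl_le _ _
  have hne0 : ∀ᵐ ξ : ℂ, ξ ≠ 0 := by simp [ae_iff, measure_singleton]
  have hne1 : ∀ᵐ ξ : ℂ, ξ ≠ 1 := by simp [ae_iff, measure_singleton]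
  calc ‖φ y‖ₑ ≤ ‖(Real.pi : ℂ) * G 1‖ₑ := by
        rw [hG1, enorm_mul, ← ofReal_norm, ← ofReal_norm, ← ofReal_norm]
        simp only [Complex.norm_real, norm_norm]
        rw [Real.norm_of_nonneg Real.pi_pos.le]
        calc ENNReal.ofReal ‖φ y‖ = 1 * ENNReal.ofReal ‖φ y‖ := (one_mul _).symm
          _ ≤ _ := by
            gcongr
            rw [ENNReal.one_le_ofReal]
            linarith [Real.pi_gt_three]
    _ = ‖∫ w, Pool.Agent.H761R2.SV.dbar G w * (1 - w)⁻¹‖ₑ := by rw [hP]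
    _ ≤ ∫⁻ w, ‖Pool.Agent.H761R2.SV.dbar G w * (1 - w)⁻¹‖ₑ := enorm_integral_le_lintegral_enorm _
    _ ≤ T N (fun x => ∑ j, ‖db φ x (ev j)‖ₑ) y := by
        unfold T
        apply lintegral_mono_ae
        filter_upwards [hne0, hne1] with ξ h0 h1
        rw [enorm_mul, enorm_inv (sub_ne_zero.mpr h1.symm)]
        gcongr
        exact hdbar ξ h0

end Pool.Agent.V1191.UC
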