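import Pool.Agent.V1191.UC.Loc

/-!
# Translation and connectedness
-/

set_option autoImplicit false

open MeasureTheory Filter Topology Metric Set
open scoped ENNReal NNReal

noncomputable section

namespace Pool.Agent.V1191.UC

variable {n : ℕ} {G : Type*} [NormedAddCommGroup G] [NormedSpace ℂ G] [NormedSpace ℝ G]
  [IsScalarTower ℝ ℂ G] [CompleteSpace G] [MeasurableSpace G] [BorelSpace G]
  [SecondCountableTopology G]

theorem ne_zeroE (hn : 2 ≤ n) : ∀ᵐ x : E n, x ≠ 0 := by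
  haveI : Nonempty (Fin n) := ⟨⟨0, by omega⟩⟩
  haveI : Nontrivial (E n) := inferInstance
  simp [ae_iff, measure_singleton]

/-- the exponent `p' = 4n/(2n-1)` -/
def pp (n : ℕ) : ℝ := 4 * n / (2 * n - 1)

theorem exps (hn : 2 ≤ n) : ∃ r : ℝ, (2 * n : ℝ).HolderConjugate r ∧ r < 2 ∧ r ≤ pp n ∧ 1 ≤ pp n ∧
    pp n ≤ 3 := by
  have hn' : (2 : ℝ) ≤ n := by exact_mod_cast hn
  have h1 : (1 : ℝ) < 2 * n := by linarith
  have h2 : (0 : ℝ) < 2 * n - 1 := by linarith
  refine ⟨Real.conjExponent (2 * n), Real.HolderConjugate.conjExponent h1, ?_, ?_, ?_, ?_⟩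
  · unfold Real.conjExponent
    rw [div_lt_iff₀ h2]
    linarith
  · unfold Real.conjExponent pp
    gcongr
    linarith
  · unfold pp
    rw [le_div_iff₀ h2]
    linarith
  · unfold pp
    rw [div_le_iff₀ h2]
    linarith

theorem local_zero (hn : 2 ≤ n)
    {u : E n → G} {f : Fin n → E n → G} {V : E n → ℝ≥0∞} (hum : Measurable u)
    (hfm : ∀ j, Measurable (f j)) (hVm : Measurable V) {R : ℝ} (hR : 0 < R)
    (hu : IntegrableOn u (ball (0 : E n) R)) (hf : ∀ j, IntegrableOn (f j) (ball (0 : E n) R))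
    (hw : ∀ j, ∀ ψ : E n → ℂ, ContDiff ℝ ((⊤ : ℕ∞) : WithTop ℕ∞) ψ → HasCompactSupport ψ →
      tsupport ψ ⊆ ball 0 R → ∫ x, db ψ x (ev j) • u x = -∫ x, ψ x • f j x)
    (hVi : ∫⁻ x in ball (0 : E n) R, V x ^ (2 * n : ℝ) < ∞)
    (hfV : ∀ᵐ x : E n, x ∈ ball (0 : E n) R → ∑ j, ‖f j x‖ₑ ≤ V x * ‖u x‖ₑ)
    (hv : ∀ N : ℕ, Tendsto (fun r : ℝ => (∫⁻ x in ball (0 : E n) r, ‖u x‖ₑ ^ pp n) /
      ENNReal.ofReal (r ^ N)) (𝓝[>] 0) (𝓝 0)) :
    ∀ᵐ x : E n, x ∈ ball (0 : E n) R → u x = 0 := by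
  obtain ⟨r, hqr, hr2, hrp, hp1, hp3⟩ := exps hn
  have h0 := ne_zeroE hn
  have hvu : ∀ M : ℕ, ∃ δ : ℝ, 0 < δ ∧ ∫⁻ x in ball (0 : E n) δ, ‖u x‖ₑ * (‖x‖ₑ⁻¹) ^ M < ∞ := by
    intro M
    obtain ⟨δ, hδ0, _, hδ⟩ := van_u h0 hum.enorm hp1 hp3 hv M (a := 1) zero_le_one hp1
    refine ⟨δ, hδ0, ?_⟩
    simpa using hδ
  have hvf : ∀ M : ℕ, ∃ δ : ℝ, 0 < δ ∧
      ∫⁻ x in ball (0 : E n) δ, (V x * ‖u x‖ₑ) * (‖x‖ₑ⁻¹) ^ M < ∞ := fun M =>
    van_Vu h0 hum.enorm hVm hp3 hqr hrp hR hVi hv M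
  have hall : ∀ k : ℕ, ∀ᵐ x : E n, ‖x‖ < R - R / (k + 2) → u x = 0 := by
    intro k
    have h5 : R / ((k : ℝ) + 2) < R := by
      rw [div_lt_iff₀ (by positivity)]
      nlinarith [(Nat.cast_nonneg k : (0 : ℝ) ≤ k)]
    have h6 : 0 < R / ((k : ℝ) + 2) := by positivity
    exact local_zero_aux hqr hr2 rfl hum hfm hVm (by linarith) (by linarith) hu hf hw hVi hfV
      hvu hvf h0
  filter_upwards [ae_all_iff.mpr hall] with x e hx
  have hlt : ‖x‖ < R := by simpa using hx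
  obtain ⟨k, hk⟩ : ∃ k : ℕ, ‖x‖ < R - R / (k + 2) := by
    obtain ⟨k, hk⟩ := exists_nat_gt (R / (R - ‖x‖))
    refine ⟨k, ?_⟩
    have hd : 0 < R - ‖x‖ := sub_pos.mpr hlt
    rw [div_lt_iff₀ hd] at hk
    have h6 : R / ((k : ℝ) + 2) < R - ‖x‖ := by
      rw [div_lt_iff₀ (by positivity)]
      nlinarith
    linarith
  exact e k hk

theorem ball_pre (z0 : E n) (r : ℝ) : (fun x : E n => z0 + x) ⁻¹' ball z0 r = ball (0 : E n) r := by
  ext x
  simp

theorem setL_trans (z0 : E n) (r : ℝ) (g : E n → ℝ≥0∞) :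
    ∫⁻ x in ball (0 : E n) r, g (z0 + x) = ∫⁻ x in ball z0 r, g x := by
  rw [← lintegral_indicator measurableSet_ball, ← lintegral_indicator measurableSet_ball,
    ← lintegral_add_left_eq_self ((ball z0 r).indicator fun x => g x) z0]
  apply lintegral_congr
  intro x
  by_cases hx : x ∈ ball (0 : E n) r
  · have hx' : z0 + x ∈ ball z0 r := by simpa using hx
    rw [indicator_of_mem hx, indicator_of_mem hx']
  · have hx' : z0 + x ∉ ball z0 r := by simpa using hx
    rw [indicator_of_notMem hx, indicator_of_notMem hx']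

theorem local_zero_at (hn : 2 ≤ n) (z0 : E n)
    {u : E n → G} {f : Fin n → E n → G} {V : E n → ℝ≥0∞} (hum : Measurable u)
    (hfm : ∀ j, Measurable (f j)) (hVm : Measurable V) {R : ℝ} (hR : 0 < R)
    (hu : IntegrableOn u (ball z0 R)) (hf : ∀ j, IntegrableOn (f j) (ball z0 R))
    (hw : ∀ j, ∀ ψ : E n → ℂ, ContDiff ℝ ((⊤ : ℕ∞) : WithTop ℕ∞) ψ → HasCompactSupport ψ →
      tsupport ψ ⊆ ball z0 R → ∫ x, db ψ x (ev j) • u x = -∫ x, ψ x • f j x)
    (hVi : ∫⁻ x in ball z0 R, V x ^ (2 * n : ℝ) < ∞)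
    (hfV : ∀ᵐ x : E n, x ∈ ball z0 R → ∑ j, ‖f j x‖ₑ ≤ V x * ‖u x‖ₑ)
    (hv : ∀ N : ℕ, Tendsto (fun r : ℝ => (∫⁻ x in ball z0 r, ‖u x‖ₑ ^ pp n) /
      ENNReal.ofReal (r ^ N)) (𝓝[>] 0) (𝓝 0)) :
    ∀ᵐ x : E n, x ∈ ball z0 R → u x = 0 := by
  have hmp : MeasurePreserving (fun x : E n => z0 + x) volume volume :=
    measurePreserving_add_left volume z0
  have hemb : MeasurableEmbedding (fun x : E n => z0 + x) := measurableEmbedding_addLeft z0
  have hadd : Measurable fun x : E n => z0 + x := measurable_const_add z0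
  have hio : ∀ g : E n → G, IntegrableOn g (ball z0 R) →
      IntegrableOn (fun x => g (z0 + x)) (ball (0 : E n) R) := by
    intro g hg
    rw [← ball_pre z0 R]
    exact (hmp.integrableOn_comp_preimage hemb).mpr hg
  have hloc := local_zero hn (u := fun x => u (z0 + x)) (f := fun j x => f j (z0 + x))
    (V := fun x => V (z0 + x)) (hum.comp hadd) (fun j => (hfm j).comp hadd) (hVm.comp hadd) hR
    (hio u hu) (fun j => hio _ (hf j))
    (by
      intro j ψ hψ hψc hψs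
      set ψ' : E n → ℂ := fun x => ψ (x - z0) with hψ'
      have h1 : ContDiff ℝ ((⊤ : ℕ∞) : WithTop ℕ∞) ψ' := hψ.comp (contDiff_id.sub contDiff_const)
      have hsupp : ∀ x, x ∉ (fun x : E n => x - z0) ⁻¹' tsupport ψ → ψ' x = 0 := by
        intro x hx
        have hx' : x - z0 ∉ tsupport ψ := hx
        have hx'' : ψ (x - z0) = 0 := image_eq_zero_of_notMem_tsupport hx'
        exact hx''
      have hcont : Continuous fun x : E n => x - z0 := by fun_prop
      have hts : tsupport ψ' ⊆ (fun x : E n => x - z0) ⁻¹' tsupport ψ := by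
        apply closure_minimal _ ((isClosed_tsupport ψ).preimage hcont)
        intro x hx
        by_contra hcon
        exact hx (hsupp x hcon)
      have h2 : HasCompactSupport ψ' := by
        have hK : IsCompact ((fun x : E n => z0 + x) '' tsupport ψ) :=
          hψc.isCompact.image (by fun_prop)
        apply HasCompactSupport.intro hK
        intro x hx
        apply hsupp
        intro hmem
        apply hx
        exact ⟨x - z0, hmem, by simp⟩
      have h3 : tsupport ψ' ⊆ ball z0 R := by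
        intro x hx
        have := hψs (hts hx)
        rw [mem_ball_zero_iff] at this
        rw [mem_ball, dist_eq_norm]
        exact this
      have h4 := hw j ψ' h1 h2 h3
      have h5 : ∀ x, db ψ' (z0 + x) (ev j) = db ψ x (ev j) := by
        intro x
        have h6 : fderiv ℝ ψ' (z0 + x) = fderiv ℝ ψ x := by
          have h7 : HasFDerivAt ψ (fderiv ℝ ψ x) (z0 + x - z0) := by
            rw [add_sub_cancel_left]
            exact (hψ.differentiable (by simp) x).hasFDerivAt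
          have h8 := h7.comp (z0 + x) ((hasFDerivAt_id (z0 + x)).sub_const z0)
          have h9 : fderiv ℝ ψ' (z0 + x) = _ := h8.fderiv
          rw [h9]
          ext v
          simp
        unfold db
        rw [h6]
      have e1 : ∫ x, db ψ x (ev j) • u (z0 + x) = ∫ x, db ψ' x (ev j) • u x := by
        rw [← integral_add_left_eq_self (fun x => db ψ' x (ev j) • u x) z0]
        apply integral_congr_ae
        filter_upwards with x
        rw [h5]
      have e2 : ∫ x, ψ x • f j (z0 + x) = ∫ x, ψ' x • f j x := by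
        rw [← integral_add_left_eq_self (fun x => ψ' x • f j x) z0]
        apply integral_congr_ae
        filter_upwards with x
        rw [hψ']
        simp only
        rw [add_sub_cancel_left]
      rw [e1, e2, h4])
    (by
      rw [setL_trans z0 R (fun x => V x ^ (2 * n : ℝ))]
      exact hVi)
    (by
      filter_upwards [hmp.quasiMeasurePreserving.ae hfV] with x hx hxR
      exact hx (by simpa using hxR))
    (by
      intro N
      refine (hv N).congr fun r => ?_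
      rw [setL_trans z0 r (fun x => ‖u x‖ₑ ^ pp n)])
  have hmp' : MeasurePreserving (fun x : E n => -z0 + x) volume volume :=
    measurePreserving_add_left volume (-z0)
  filter_upwards [hmp'.quasiMeasurePreserving.ae hloc] with x hx hxR
  have h1 := hx (by
    rw [mem_ball_zero_iff]
    rw [mem_ball, dist_eq_norm] at hxR
    rwa [neg_add_eq_sub])
  rwa [add_neg_cancel_left] at h1

/-- vanishing near a point implies vanishing to infinite order -/
theorem van_of_zero {u : E n → G} {z : E n} {ε : ℝ} (hε : 0 < ε)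
    (h : ∀ᵐ x : E n, x ∈ ball z ε → u x = 0) {p : ℝ} (hp : 0 < p) (N : ℕ) :
    Tendsto (fun r : ℝ => (∫⁻ x in ball z r, ‖u x‖ₑ ^ p) / ENNReal.ofReal (r ^ N)) (𝓝[>] 0) (𝓝 0) := by
  have h1 : ∀ᶠ r : ℝ in 𝓝[>] 0, (∫⁻ x in ball z r, ‖u x‖ₑ ^ p) / ENNReal.ofReal (r ^ N) = 0 := by
    filter_upwards [Ioo_mem_nhdsGT hε] with r hr
    have : ∫⁻ x in ball z r, ‖u x‖ₑ ^ p = 0 := by
      rw [← nonpos_iff_eq_zero, ← lintegral_indicator measurableSet_ball]
      calc _ ≤ ∫⁻ x : E n, 0 := by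
            apply lintegral_mono_ae
            filter_upwards [h] with x hx
            by_cases hxr : x ∈ ball z r
            · rw [indicator_of_mem hxr, hx (ball_subset_ball hr.2.le hxr), enorm_zero,
                ENNReal.zero_rpow_of_pos hp]
            · rw [indicator_of_notMem hxr]
        _ = 0 := by simp
    rw [this, ENNReal.zero_div]
  exact tendsto_const_nhds.congr' (h1.mono fun r hr => hr.symm)

theorem global_zero (hn : 2 ≤ n) {Ω : Set (E n)} (hΩ : IsOpen Ω) (hΩc : IsPreconnected Ω)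
    {z0 : E n} (hz0 : z0 ∈ Ω)
    {u : E n → G} {f : Fin n → E n → G} {V : E n → ℝ≥0∞} (hum : Measurable u)
    (hfm : ∀ j, Measurable (f j)) (hVm : Measurable V)
    (hu : ∀ K ⊆ Ω, IsCompact K → IntegrableOn u K)
    (hf : ∀ j, ∀ K ⊆ Ω, IsCompact K → IntegrableOn (f j) K)
    (hw : ∀ j, ∀ ψ : E n → ℂ, ContDiff ℝ ((⊤ : ℕ∞) : WithTop ℕ∞) ψ → HasCompactSupport ψ →
      tsupport ψ ⊆ Ω → ∫ x, db ψ x (ev j) • u x = -∫ x, ψ x • f j x)
    (hVi : ∀ K ⊆ Ω, IsCompact K → ∫⁻ x in K, V x ^ (2 * n : ℝ) < ∞)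
    (hfV : ∀ᵐ x : E n, x ∈ Ω → ∑ j, ‖f j x‖ₑ ≤ V x * ‖u x‖ₑ)
    (hv : ∀ N : ℕ, Tendsto (fun r : ℝ => (∫⁻ x in ball z0 r, ‖u x‖ₑ ^ pp n) /
      ENNReal.ofReal (r ^ N)) (𝓝[>] 0) (𝓝 0)) :
    ∀ᵐ x : E n, x ∈ Ω → u x = 0 := by
  have hloc : ∀ (z : E n) (R : ℝ), 0 < R → closedBall z R ⊆ Ω →
      (∀ N : ℕ, Tendsto (fun r : ℝ => (∫⁻ x in ball z r, ‖u x‖ₑ ^ pp n) /
        ENNReal.ofReal (r ^ N)) (𝓝[>] 0) (𝓝 0)) → ∀ᵐ x : E n, x ∈ ball z R → u x = 0 := by
    intro z R hR hsub hvz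
    have hK : IsCompact (closedBall z R) := isCompact_closedBall z R
    apply local_zero_at hn z hum hfm hVm hR
    · exact (hu _ hsub hK).mono_set ball_subset_closedBall
    · exact fun j => (hf j _ hsub hK).mono_set ball_subset_closedBall
    · intro j ψ hψ hψc hψs
      exact hw j ψ hψ hψc (hψs.trans (ball_subset_closedBall.trans hsub))
    · exact (lintegral_mono_set ball_subset_closedBall).trans_lt (hVi _ hsub hK)
    · filter_upwards [hfV] with x hx hxR
      exact hx (hsub (ball_subset_closedBall hxR))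
    · exact hvz
  obtain ⟨_, _, _, _, hp1, _⟩ := exps hn
  have hpp : 0 < pp n := by linarith
  set Z : Set (E n) := {z | ∃ ε : ℝ, 0 < ε ∧ ∀ᵐ x : E n, x ∈ ball z ε → u x = 0} with hZ
  have hZo : IsOpen Z := by
    rw [Metric.isOpen_iff]
    rintro z ⟨ε, hε, hz⟩
    refine ⟨ε / 2, by positivity, ?_⟩
    intro z' hz'
    refine ⟨ε / 2, by positivity, ?_⟩
    filter_upwards [hz] with x hx hxz'
    apply hx
    rw [mem_ball] at *
    calc dist x z ≤ dist x z' + dist z' z := dist_triangle _ _ _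
      _ < ε := by linarith
  have hexists : ∀ z ∈ Ω, ∃ R : ℝ, 0 < R ∧ closedBall z R ⊆ Ω := by
    intro z hz
    obtain ⟨R, hR, hsub⟩ := Metric.isOpen_iff.mp hΩ z hz
    exact ⟨R / 2, by positivity, (closedBall_subset_ball (by linarith)).trans hsub⟩
  have hZ0 : (Ω ∩ Z).Nonempty := by
    obtain ⟨R, hR, hsub⟩ := hexists z0 hz0
    exact ⟨z0, hz0, R, hR, hloc z0 R hR hsub hv⟩
  have hcl : closure Z ∩ Ω ⊆ Z := by
    rintro z ⟨hzc, hzΩ⟩
    obtain ⟨R, hR, hsub⟩ := hexists z hzΩ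
    obtain ⟨z1, hz1Z, hz1⟩ := Metric.mem_closure_iff.mp hzc (R / 3) (by positivity)
    obtain ⟨ε, hε, hzero⟩ := hz1Z
    have hsub1 : closedBall z1 (2 * R / 3) ⊆ Ω := by
      refine subset_trans ?_ hsub
      intro x hx
      rw [mem_closedBall] at *
      calc dist x z ≤ dist x z1 + dist z1 z := dist_triangle _ _ _
        _ ≤ R := by rw [dist_comm z1 z]; linarith
    have h1 := hloc z1 (2 * R / 3) (by positivity) hsub1 (van_of_zero hε hzero hpp)
    refine ⟨R / 3, by positivity, ?_⟩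
    filter_upwards [h1] with x hx hxz
    apply hx
    rw [mem_ball] at *
    calc dist x z1 ≤ dist x z + dist z z1 := dist_triangle _ _ _
      _ < 2 * R / 3 := by linarith
  have hsubZ : Ω ⊆ Z := hΩc.subset_of_closure_inter_subset hZo hZ0 hcl
  have hnull : volume {x | x ∈ Ω ∧ u x ≠ 0} = 0 := by
    apply measure_null_of_locally_null
    rintro x ⟨hxΩ, _⟩
    obtain ⟨ε, hε, hx⟩ := hsubZ hxΩ
    refine ⟨ball x ε ∩ {x | x ∈ Ω ∧ u x ≠ 0}, ?_, ?_⟩
    · rw [inter_comm]
      exact inter_mem_nhdsWithin _ (ball_mem_nhds x hε)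
    · refine measure_mono_null ?_ hx
      intro y hy hcon
      exact hy.2.2 (hcon hy.1)
  refine measure_mono_null ?_ hnull
  intro x hx
  simp only [mem_compl_iff, mem_ofPred_eq, Classical.not_imp] at hx
  exact hx

end Pool.Agent.V1191.UC
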