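import Pool.Agent.V1191.UC.Line

/-!
# Cutoffs: the line inequality on a ball for functions vanishing to infinite order at the centre
-/

set_option autoImplicit false

open MeasureTheory Filter Topology Metric Set
open scoped ENNReal NNReal

noncomputable section

namespace Pool.Agent.V1191.UC

variable {n : ℕ} {G : Type*} [NormedAddCommGroup G] [NormedSpace ℂ G] [NormedSpace ℝ G]
  [IsScalarTower ℝ ℂ G]

theorem db_mul {Θ ψ : E n → ℂ} {x : E n} (h1 : DifferentiableAt ℝ Θ x)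
    (h2 : DifferentiableAt ℝ ψ x) (e : E n) :
    db (fun x => Θ x * ψ x) x e = Θ x * db ψ x e + ψ x * db Θ x e := by
  unfold db
  rw [fderiv_fun_mul h1 h2]
  simp only [add_apply, smul_apply, smul_eq_mul]
  ring

theorem norm_ev (j : Fin n) : ‖ev j‖ = 1 := by
  unfold ev
  simp

theorem norm_db_le (ψ : E n → ℂ) (x : E n) (j : Fin n) : ‖db ψ x (ev j)‖ ≤ ‖fderiv ℝ ψ x‖ := by
  unfold db
  rw [norm_smul]
  have h1 : ‖fderiv ℝ ψ x (ev j)‖ ≤ ‖fderiv ℝ ψ x‖ := by
    have := (fderiv ℝ ψ x).le_opNorm (ev j)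
    rwa [norm_ev, mul_one] at this
  have h2 : ‖Complex.I • fderiv ℝ ψ x (Complex.I • ev j)‖ ≤ ‖fderiv ℝ ψ x‖ := by
    rw [norm_smul, Complex.norm_I, one_mul]
    have := (fderiv ℝ ψ x).le_opNorm (Complex.I • ev j)
    rwa [norm_smul, norm_ev, mul_one, Complex.norm_I, mul_one] at this
  have h3 := norm_add_le (fderiv ℝ ψ x (ev j)) (Complex.I • fderiv ℝ ψ x (Complex.I • ev j))
  have h4 : ‖(1 / 2 : ℂ)‖ = 1 / 2 := by norm_num
  rw [h4]
  linarith

theorem db_zero_of_nhds {ψ : E n → ℂ} {x : E n} {c : ℂ} (h : ψ =ᶠ[𝓝 x] fun _ => c) (e : E n) :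
    db ψ x e = 0 := by
  unfold db
  rw [h.fderiv_eq]
  simp

theorem db_cont {ψ : E n → ℂ} (h : ContDiff ℝ 1 ψ) (e : E n) : Continuous fun x => db ψ x e := by
  have h1 := h.continuous_fderiv (by norm_num)
  unfold db
  fun_prop

theorem db_supp {ψ : E n → ℂ} (h : HasCompactSupport ψ) (e : E n) :
    HasCompactSupport fun x => db ψ x e := by
  apply HasCompactSupport.intro (h.isCompact)
  intro x hx
  have : ψ =ᶠ[𝓝 x] fun _ => (0 : ℂ) := by
    have h2 := notMem_tsupport_iff_eventuallyEq.mp hx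
    exact h2
  exact db_zero_of_nhds this e

section

variable {R : ℝ} {u : E n → G}

omit [NormedSpace ℝ G] [IsScalarTower ℝ ℂ G] in
theorem int_smul {g : E n → ℂ} (hg : Continuous g) (hc : HasCompactSupport g)
    (hs : ∀ x, x ∉ ball (0 : E n) R → g x = 0) (hu : IntegrableOn u (ball (0 : E n) R)) :
    Integrable fun x => g x • u x := by
  obtain ⟨C, hC⟩ := hc.exists_bound_of_continuous hg
  have h1 : IntegrableOn (fun x => g x • u x) (ball (0 : E n) R) := by
    refine (hu.norm.const_mul C).mono' (hg.aestronglyMeasurable.smul hu.1) ?_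
    filter_upwards with x
    rw [norm_smul]
    gcongr
    exact hC x
  rwa [integrableOn_iff_integrable_of_support_subset] at h1
  intro x hx
  by_contra hcon
  apply hx
  simp only
  rw [hs x hcon, zero_smul]

variable {f : Fin n → E n → G}

/-- product rule for weak derivatives -/
theorem weak_mul (hu : IntegrableOn u (ball (0 : E n) R))
    (hf : ∀ j, IntegrableOn (f j) (ball (0 : E n) R))
    (hw : ∀ j, ∀ ψ : E n → ℂ, ContDiff ℝ ((⊤ : ℕ∞) : WithTop ℕ∞) ψ → HasCompactSupport ψ →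
      tsupport ψ ⊆ ball 0 R → ∫ x, db ψ x (ev j) • u x = -∫ x, ψ x • f j x)
    {Θ : E n → ℂ} (hΘ : ContDiff ℝ ((⊤ : ℕ∞) : WithTop ℕ∞) Θ) (hc : HasCompactSupport Θ)
    (hs : tsupport Θ ⊆ ball 0 R) (j : Fin n) (ψ : E n → ℂ)
    (hψ : ContDiff ℝ ((⊤ : ℕ∞) : WithTop ℕ∞) ψ) (hψc : HasCompactSupport ψ) :
    ∫ x, db ψ x (ev j) • (Θ x • u x) = -∫ x, ψ x • (Θ x • f j x + db Θ x (ev j) • u x) := by
  have hΘ1 : ContDiff ℝ 1 Θ := hΘ.of_le (by exact_mod_cast le_top)
  have hψ1 : ContDiff ℝ 1 ψ := hψ.of_le (by exact_mod_cast le_top)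
  have hΘ0 : ∀ x, x ∉ ball (0 : E n) R → Θ x = 0 := fun x hx =>
    image_eq_zero_of_notMem_tsupport fun h => hx (hs h)
  have hdΘ0 : ∀ x, x ∉ ball (0 : E n) R → db Θ x (ev j) = 0 := fun x hx =>
    db_zero_of_nhds (c := 0) (notMem_tsupport_iff_eventuallyEq.mp fun h => hx (hs h)) _
  have h1 := hw j (fun x => Θ x * ψ x) (hΘ.mul hψ) (hc.mul_right) (by
    refine subset_trans ?_ hs
    exact tsupport_mul_subset_left)
  have i1 : Integrable fun x => (Θ x * db ψ x (ev j)) • u x := by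
    apply int_smul (R := R) (hΘ1.continuous.mul (db_cont hψ1 _)) (hc.mul_right) _ hu
    intro x hx
    simp [hΘ0 x hx]
  have i2 : Integrable fun x => (ψ x * db Θ x (ev j)) • u x := by
    apply int_smul (R := R) (hψ1.continuous.mul (db_cont hΘ1 _)) (hψc.mul_right) _ hu
    intro x hx
    simp [hdΘ0 x hx]
  have i3 : Integrable fun x => (Θ x * ψ x) • f j x := by
    apply int_smul (R := R) (hΘ1.continuous.mul hψ1.continuous) (hc.mul_right) _ (hf j)
    intro x hx
    simp [hΘ0 x hx]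
  have h2 : ∫ x, db (fun x => Θ x * ψ x) x (ev j) • u x
      = (∫ x, (Θ x * db ψ x (ev j)) • u x) + ∫ x, (ψ x * db Θ x (ev j)) • u x := by
    rw [← integral_add i1 i2]
    apply integral_congr_ae
    filter_upwards with x
    rw [db_mul (hΘ1.differentiable (by norm_num) x) (hψ1.differentiable (by norm_num) x), add_smul]
  rw [h2] at h1
  have h3 : ∫ x, db ψ x (ev j) • (Θ x • u x) = ∫ x, (Θ x * db ψ x (ev j)) • u x := by
    apply integral_congr_ae
    filter_upwards with x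
    rw [smul_smul, mul_comm]
  have h4 : ∫ x, ψ x • (Θ x • f j x + db Θ x (ev j) • u x)
      = (∫ x, (Θ x * ψ x) • f j x) + ∫ x, (ψ x * db Θ x (ev j)) • u x := by
    rw [← integral_add i3 i2]
    apply integral_congr_ae
    filter_upwards with x
    rw [smul_add, smul_smul, smul_smul, mul_comm (ψ x) (Θ x)]
  rw [h3, h4, neg_add, ← h1]
  abel

end

/-- the outer cutoff -/
def chi (n : ℕ) {r1 r2 : ℝ} (h1 : 0 < r1) (h2 : r1 < r2) : ContDiffBump (0 : E n) := ⟨r1, r2, h1, h2⟩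

section chi

variable {r1 r2 : ℝ} (h1 : 0 < r1) (h2 : r1 < r2)

/-- complex valued cutoff -/
def X (n : ℕ) {r1 r2 : ℝ} (h1 : 0 < r1) (h2 : r1 < r2) (x : E n) : ℂ := ((chi n h1 h2 x : ℝ) : ℂ)

theorem X_smooth : ContDiff ℝ ((⊤ : ℕ∞) : WithTop ℕ∞) (X n h1 h2) := by
  have : ContDiff ℝ ((⊤ : ℕ∞) : WithTop ℕ∞) (fun x : E n => chi n h1 h2 x) := (chi n h1 h2).contDiff
  exact Complex.ofRealCLM.contDiff.comp this

theorem X_one {x : E n} (hx : ‖x‖ ≤ r1) : X n h1 h2 x = 1 := by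
  unfold X
  rw [(chi n h1 h2).one_of_mem_closedBall (by simpa [chi] using hx)]
  simp

theorem X_zero {x : E n} (hx : r2 ≤ ‖x‖) : X n h1 h2 x = 0 := by
  unfold X
  rw [(chi n h1 h2).zero_of_le_dist (by simpa [chi] using hx)]
  simp

theorem X_le (x : E n) : ‖X n h1 h2 x‖ ≤ 1 := by
  unfold X
  rw [Complex.norm_real, Real.norm_of_nonneg (chi n h1 h2).nonneg]
  exact (chi n h1 h2).le_one

theorem X_sub_le (x : E n) : ‖1 - X n h1 h2 x‖ ≤ 1 := by
  unfold X
  have e : (1 : ℂ) - ((chi n h1 h2 x : ℝ) : ℂ) = ((1 - chi n h1 h2 x : ℝ) : ℂ) := by push_cast; rfl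
  have h3 := (chi n h1 h2).nonneg (x := x)
  have h4 := (chi n h1 h2).le_one (x := x)
  rw [e, Complex.norm_real, Real.norm_of_nonneg (by linarith)]
  linarith

theorem X_supp : HasCompactSupport (X n h1 h2) := by
  apply HasCompactSupport.intro (isCompact_closedBall (0 : E n) r2)
  intro x hx
  apply X_zero
  rw [mem_closedBall_zero_iff, not_le] at hx
  exact hx.le

theorem exists_dX : ∃ C0 : ℝ, 0 ≤ C0 ∧ ∀ x : E n, ‖fderiv ℝ (X n h1 h2) x‖ ≤ C0 := by
  have hd : ContDiff ℝ 1 (X n h1 h2) := (X_smooth h1 h2).of_le (by exact_mod_cast le_top)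
  obtain ⟨C, hC⟩ := ((X_supp h1 h2).fderiv ℝ).exists_bound_of_continuous
    (hd.continuous_fderiv (by norm_num))
  exact ⟨C, (norm_nonneg _).trans (hC 0), hC⟩

/-- the two sided cutoff -/
def Th (n : ℕ) {r1 r2 : ℝ} (h1 : 0 < r1) (h2 : r1 < r2) (l : ℝ) (x : E n) : ℂ :=
  X n h1 h2 x * (1 - X n h1 h2 (l • x))

theorem Th_smooth (l : ℝ) : ContDiff ℝ ((⊤ : ℕ∞) : WithTop ℕ∞) (Th n h1 h2 l) := by
  have := X_smooth (n := n) h1 h2
  have h3 : ContDiff ℝ ((⊤ : ℕ∞) : WithTop ℕ∞) fun x : E n => X n h1 h2 (l • x) :=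
    this.comp (contDiff_const_smul l)
  exact this.mul (contDiff_const.sub h3)

theorem Th_supp (l : ℝ) : HasCompactSupport (Th n h1 h2 l) := (X_supp h1 h2).mul_right

theorem Th_zero_out {l : ℝ} {x : E n} (hx : r2 ≤ ‖x‖) : Th n h1 h2 l x = 0 := by
  unfold Th
  rw [X_zero h1 h2 hx, zero_mul]

theorem Th_zero_in {l : ℝ} (hl : 0 < l) {x : E n} (hx : ‖x‖ ≤ r1 / l) : Th n h1 h2 l x = 0 := by
  unfold Th
  rw [X_one h1 h2 (x := l • x), sub_self, mul_zero]
  rw [norm_smul, Real.norm_of_nonneg hl.le]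
  rw [le_div_iff₀ hl] at hx
  linarith

theorem Th_one {l : ℝ} (hl : 0 < l) {x : E n} (hx : r2 / l ≤ ‖x‖) (hx' : ‖x‖ ≤ r1) :
    Th n h1 h2 l x = 1 := by
  unfold Th
  rw [X_one h1 h2 hx', X_zero h1 h2 (x := l • x), sub_zero, mul_one]
  rw [norm_smul, Real.norm_of_nonneg hl.le]
  rw [div_le_iff₀ hl] at hx
  linarith

theorem Th_le (l : ℝ) (x : E n) : ‖Th n h1 h2 l x‖ ≤ 1 := by
  unfold Th
  rw [norm_mul]
  calc _ ≤ (1 : ℝ) * 1 := mul_le_mul (X_le h1 h2 x) (X_sub_le h1 h2 _) (norm_nonneg _) zero_le_one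
    _ = 1 := one_mul 1

theorem Th_db {C0 : ℝ} (hC0 : 0 ≤ C0) (hC : ∀ x : E n, ‖fderiv ℝ (X n h1 h2) x‖ ≤ C0) {l : ℝ}
    (hl : 0 < l) (x : E n) (j : Fin n) :
    ‖db (Th n h1 h2 l) x (ev j)‖ₑ ≤
      (if r1 ≤ ‖x‖ then ENNReal.ofReal C0 else 0) +
      (if ‖x‖ ≤ r2 / l then ENNReal.ofReal (C0 * l) else 0) := by
  have hd : ContDiff ℝ 1 (X n h1 h2) := (X_smooth h1 h2).of_le (by exact_mod_cast le_top)
  have hx1 : DifferentiableAt ℝ (X n h1 h2) x := hd.differentiable (by norm_num) x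
  have hlx : HasFDerivAt (fun x : E n => l • x) (l • ContinuousLinearMap.id ℝ (E n)) x :=
    (hasFDerivAt_id x).const_smul l
  have hx2 : HasFDerivAt (fun x : E n => X n h1 h2 (l • x))
      ((fderiv ℝ (X n h1 h2) (l • x)).comp (l • ContinuousLinearMap.id ℝ (E n))) x :=
    ((hd.differentiable (by norm_num) (l • x)).hasFDerivAt).comp x hlx
  have hx3 : HasFDerivAt (fun x : E n => 1 - X n h1 h2 (l • x))
      (-((fderiv ℝ (X n h1 h2) (l • x)).comp (l • ContinuousLinearMap.id ℝ (E n)))) x :=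
    hx2.const_sub 1
  have h3 : db (Th n h1 h2 l) x (ev j) = X n h1 h2 x * db (fun x : E n => 1 - X n h1 h2 (l • x)) x (ev j)
      + (1 - X n h1 h2 (l • x)) * db (X n h1 h2) x (ev j) :=
    db_mul hx1 hx3.differentiableAt (ev j)
  rw [h3, add_comm]
  refine (enorm_add_le _ _).trans (add_le_add ?_ ?_)
  · rw [enorm_mul, ← ofReal_norm, ← ofReal_norm, ← ENNReal.ofReal_mul (norm_nonneg _)]
    split_ifs with h
    · apply ENNReal.ofReal_le_ofReal
      calc _ ≤ (1 : ℝ) * C0 := mul_le_mul (X_sub_le h1 h2 _) ((norm_db_le _ _ _).trans (hC x))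
            (norm_nonneg _) zero_le_one
        _ = C0 := one_mul _
    · rw [not_le] at h
      have : db (X n h1 h2) x (ev j) = 0 := by
        apply db_zero_of_nhds (c := 1)
        have : ball (0 : E n) r1 ∈ 𝓝 x := isOpen_ball.mem_nhds (by simpa using h)
        filter_upwards [this] with z hz
        exact X_one h1 h2 (by simpa using (mem_ball_zero_iff.mp hz).le)
      rw [this]
      simp
  · rw [enorm_mul, ← ofReal_norm, ← ofReal_norm, ← ENNReal.ofReal_mul (norm_nonneg _)]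
    split_ifs with h
    · apply ENNReal.ofReal_le_ofReal
      have h4 : ‖fderiv ℝ (fun x : E n => 1 - X n h1 h2 (l • x)) x‖ ≤ C0 * l := by
        rw [hx3.fderiv, norm_neg]
        refine (ContinuousLinearMap.opNorm_comp_le _ _).trans ?_
        apply mul_le_mul (hC _) _ (norm_nonneg _) hC0
        rw [norm_smul, Real.norm_of_nonneg hl.le]
        calc l * ‖ContinuousLinearMap.id ℝ (E n)‖ ≤ l * 1 := by
              gcongr
              exact ContinuousLinearMap.norm_id_le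
          _ = l := mul_one l
      calc _ ≤ (1 : ℝ) * (C0 * l) := mul_le_mul (X_le h1 h2 _) ((norm_db_le _ _ _).trans h4)
            (norm_nonneg _) zero_le_one
        _ = C0 * l := one_mul _
    · rw [not_le] at h
      have : db (fun x : E n => 1 - X n h1 h2 (l • x)) x (ev j) = 0 := by
        apply db_zero_of_nhds (c := 1)
        have : {z : E n | r2 / l < ‖z‖} ∈ 𝓝 x :=
          (isOpen_lt continuous_const continuous_norm).mem_nhds h
        filter_upwards [this] with z hz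
        rw [X_zero h1 h2 (x := l • z), sub_zero]
        rw [norm_smul, Real.norm_of_nonneg hl.le]
        have hz' : r2 / l < ‖z‖ := hz
        rw [div_lt_iff₀ hl] at hz'
        linarith
      rw [this]
      simp

end chi

end Pool.Agent.V1191.UC
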