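import Pool.Agent.V1191.UC.Base

/-!
# The one-dimensional unique continuation lemma
-/

set_option autoImplicit false

open MeasureTheory Filter Topology Metric Set
open scoped ENNReal NNReal

noncomputable section

namespace Pool.Agent.V1191.UC

/-- the half power weight -/
def aw (ξ : ℂ) : ℝ≥0∞ := ENNReal.ofReal (‖ξ‖ ^ (-(1 / 2) : ℝ))

theorem aw_meas : Measurable aw := (measurable_norm.pow_const _).ennreal_ofReal

theorem aw_pos {ξ : ℂ} (h : ξ ≠ 0) : 0 < aw ξ := by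
  unfold aw
  rw [ENNReal.ofReal_pos]
  have : 0 < ‖ξ‖ := norm_pos_iff.mpr h
  positivity

theorem aw_ne_top (ξ : ℂ) : aw ξ ≠ ∞ := ENNReal.ofReal_ne_top

theorem enorm_inv_eq {ξ : ℂ} (h : ξ ≠ 0) : ‖ξ‖ₑ⁻¹ = ENNReal.ofReal (‖ξ‖⁻¹) := by
  rw [← ofReal_norm, ENNReal.ofReal_inv_of_pos (norm_pos_iff.mpr h)]

theorem aw_le {ξ : ℂ} (h : ξ ≠ 0) : aw ξ ≤ 1 + ‖ξ‖ₑ⁻¹ := by
  have hp : 0 < ‖ξ‖ := norm_pos_iff.mpr h
  rw [enorm_inv_eq h, ← ENNReal.ofReal_one, ← ENNReal.ofReal_add zero_le_one (by positivity)]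
  unfold aw
  apply ENNReal.ofReal_le_ofReal
  rcases le_total 1 ‖ξ‖ with h1 | h1
  · have : ‖ξ‖ ^ (-(1 / 2) : ℝ) ≤ 1 := Real.rpow_le_one_of_one_le_of_nonpos h1 (by norm_num)
    have : 0 < ‖ξ‖⁻¹ := by positivity
    linarith
  · have : ‖ξ‖ ^ (-(1 / 2) : ℝ) ≤ ‖ξ‖ ^ (-1 : ℝ) :=
      Real.rpow_le_rpow_of_exponent_ge hp h1 (by norm_num)
    rw [Real.rpow_neg_one] at this
    linarith

/-- scaling of the kernel -/
theorem ker_scale {r : ℝ} {ζ : ℂ} (hζ : ζ ≠ 0) :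
    ∫⁻ ξ : ℂ, ENNReal.ofReal (‖ξ‖ ^ (r / 2 - 2) * ‖ξ - ζ‖ ^ (-r))
      = ENNReal.ofReal (‖ζ‖ ^ (-(r / 2))) * ∫⁻ w, ker r w := by
  have hp : 0 < ‖ζ‖ := norm_pos_iff.mpr hζ
  have hm : Measurable fun ξ : ℂ => ENNReal.ofReal (‖ξ‖ ^ (r / 2 - 2) * ‖ξ - ζ‖ ^ (-r)) :=
    ((measurable_norm.pow_const _).mul
      ((measurable_id.sub measurable_const).norm.pow_const _)).ennreal_ofReal
  have h1 := lintegral_mulC hζ hm
  have h2 : ∀ w : ℂ, ENNReal.ofReal (‖ζ * w‖ ^ (r / 2 - 2) * ‖ζ * w - ζ‖ ^ (-r))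
      = ENNReal.ofReal (‖ζ‖ ^ (-(r / 2) - 2)) * ker r w := by
    intro w
    unfold ker
    rw [← ENNReal.ofReal_mul (by positivity)]
    congr 1
    have e : ζ * w - ζ = ζ * (w - 1) := by ring
    rw [e, norm_mul, norm_mul, norm_sub_rev w 1, Real.mul_rpow hp.le (norm_nonneg _),
      Real.mul_rpow hp.le (norm_nonneg _)]
    have : ‖ζ‖ ^ (-(r / 2) - 2) = ‖ζ‖ ^ (r / 2 - 2) * ‖ζ‖ ^ (-r) := by
      rw [← Real.rpow_add hp]
      congr 1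
      ring
    rw [this]
    ring
  simp_rw [h2] at h1
  rw [lintegral_const_mul _ (ker_meas r)] at h1
  have h3 : (‖ζ‖ₑ) ^ 2 * ((‖ζ‖ₑ⁻¹) ^ 2) = 1 := by
    rw [← mul_pow, ENNReal.mul_inv_cancel (by simpa using hζ) enorm_ne_top, one_pow]
  calc _ = ((‖ζ‖ₑ) ^ 2 * ((‖ζ‖ₑ⁻¹) ^ 2)) *
        ∫⁻ ξ : ℂ, ENNReal.ofReal (‖ξ‖ ^ (r / 2 - 2) * ‖ξ - ζ‖ ^ (-r)) := by rw [h3, one_mul]
    _ = (‖ζ‖ₑ) ^ 2 * (ENNReal.ofReal (‖ζ‖ ^ (-(r / 2) - 2)) * ∫⁻ w, ker r w) := by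
        rw [mul_assoc, ← h1]
    _ = _ := by
        rw [← mul_assoc, ← ofReal_norm, ← ENNReal.ofReal_pow hp.le,
          ← ENNReal.ofReal_mul (by positivity), ← Real.rpow_natCast, ← Real.rpow_add hp]
        congr 3
        push_cast
        ring

theorem kernel_bound {q r : ℝ} (hqr : q.HolderConjugate r) {W : ℂ → ℝ≥0∞} (hW : Measurable W)
    (S : Set ℂ) {ζ : ℂ} (hζ : ζ ≠ 0) :
    ∫⁻ ξ in S, W ξ * aw ξ * ‖ξ - ζ‖ₑ⁻¹ ≤
      (∫⁻ ξ in S, W ξ ^ q * ENNReal.ofReal (‖ξ‖ ^ (q - 2))) ^ (1 / q) * (∫⁻ w, ker r w) ^ (1 / r)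
        * aw ζ := by
  have hq0 : 0 < q := hqr.pos
  have hr0 : 0 < r := hqr.symm.pos
  have hp : 0 < ‖ζ‖ := norm_pos_iff.mpr hζ
  have hm : ∀ s : ℝ, Measurable fun w : ℂ => ‖w‖ ^ s := fun s => measurable_norm.pow_const s
  set f : ℂ → ℝ≥0∞ := fun ξ => W ξ * ENNReal.ofReal (‖ξ‖ ^ ((q - 2) / q)) with hf
  set g : ℂ → ℝ≥0∞ := fun ξ => ENNReal.ofReal (‖ξ‖ ^ (-(1 / 2) - (q - 2) / q) * ‖ξ - ζ‖ ^ (-1 : ℝ)) with hg
  have hfm : Measurable f := hW.mul (hm _).ennreal_ofReal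
  have hgm : Measurable g := ((hm _).mul
      ((measurable_id.sub measurable_const).norm.pow_const _)).ennreal_ofReal
  have h1 : ∫⁻ ξ in S, W ξ * aw ξ * ‖ξ - ζ‖ₑ⁻¹ = ∫⁻ ξ in S, (f * g) ξ := by
    apply lintegral_congr_ae
    have ha : ∀ᵐ ξ : ℂ ∂(volume.restrict S), ξ ≠ 0 :=
      ae_restrict_of_ae (by simp [ae_iff, measure_singleton])
    have hb : ∀ᵐ ξ : ℂ ∂(volume.restrict S), ξ ≠ ζ :=
      ae_restrict_of_ae (by simp [ae_iff, measure_singleton])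
    filter_upwards [ha, hb] with ξ h0 hz
    have h0' : 0 < ‖ξ‖ := norm_pos_iff.mpr h0
    have hz' : ξ - ζ ≠ 0 := sub_ne_zero.mpr hz
    rw [Pi.mul_apply, hf, hg, enorm_inv_eq hz']
    simp only [aw]
    rw [mul_assoc, mul_assoc, ← ENNReal.ofReal_mul (by positivity),
      ← ENNReal.ofReal_mul (by positivity), ← mul_assoc, ← Real.rpow_add h0', Real.rpow_neg_one]
    congr 4
    ring
  have h2 := ENNReal.lintegral_mul_le_Lp_mul_Lq (volume.restrict S) hqr hfm.aemeasurable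
    hgm.aemeasurable
  have h3 : ∀ ξ, f ξ ^ q = W ξ ^ q * ENNReal.ofReal (‖ξ‖ ^ (q - 2)) := by
    intro ξ
    rw [hf]
    simp only
    rw [ENNReal.mul_rpow_of_nonneg _ _ hq0.le, ENNReal.ofReal_rpow_of_nonneg (by positivity) hq0.le,
      ← Real.rpow_mul (norm_nonneg _), div_mul_cancel₀ _ hq0.ne']
  have h4 : ∀ ξ, g ξ ^ r = ENNReal.ofReal (‖ξ‖ ^ (r / 2 - 2) * ‖ξ - ζ‖ ^ (-r)) := by
    intro ξ
    rw [hg]
    simp only
    rw [ENNReal.ofReal_rpow_of_nonneg (by positivity) hr0.le,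
      Real.mul_rpow (by positivity) (by positivity), ← Real.rpow_mul (norm_nonneg _),
      ← Real.rpow_mul (norm_nonneg _)]
    have e1 : (-(1 / 2) - (q - 2) / q) * r = r / 2 - 2 := by
      have := hqr.sub_one_mul_conj
      have h5 : (q - 1) * r = q := this
      field_simp
      nlinarith [h5]
    rw [e1, neg_one_mul]
  simp_rw [h3, h4] at h2
  rw [h1]
  refine h2.trans ?_
  rw [mul_assoc]
  gcongr
  calc (∫⁻ ξ in S, ENNReal.ofReal (‖ξ‖ ^ (r / 2 - 2) * ‖ξ - ζ‖ ^ (-r))) ^ (1 / r)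
      ≤ (∫⁻ ξ, ENNReal.ofReal (‖ξ‖ ^ (r / 2 - 2) * ‖ξ - ζ‖ ^ (-r))) ^ (1 / r) := by
        exact ENNReal.rpow_le_rpow (setLIntegral_le_lintegral _ _) (by positivity)
    _ = (∫⁻ w, ker r w) ^ (1 / r) * aw ζ := by
        rw [ker_scale hζ, ENNReal.mul_rpow_of_nonneg _ _ (by positivity), mul_comm]
        congr 1
        unfold aw
        rw [ENNReal.ofReal_rpow_of_nonneg (by positivity) (by positivity),
          ← Real.rpow_mul hp.le]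
        congr 2
        field_simp

theorem zero_of_pow_le {x a K : ℝ≥0∞} (hx : x < 1) (hK : K ≠ ∞) (h : ∀ N : ℕ, a ≤ x ^ N * K) :
    a = 0 := by
  have h1 : Tendsto (fun N : ℕ => x ^ N * K) atTop (𝓝 (0 * K)) :=
    ENNReal.Tendsto.mul_const (ENNReal.tendsto_pow_atTop_nhds_zero_of_lt_one hx) (Or.inr hK)
  rw [zero_mul] at h1
  exact le_antisymm (ge_of_tendsto' h1 h) zero_le

section

variable {q r : ℝ} {g Φ W : ℂ → ℝ≥0∞} {T : ℝ}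

theorem step (hqr : q.HolderConjugate r) (hg : Measurable g) (hΦ : Measurable Φ)
    (hW : Measurable W)
    (h1 : ∀ N : ℕ, ∀ᵐ ξ : ℂ, ‖ξ‖ < T → g ξ ≤ ‖ξ‖ₑ ^ N * ∫⁻ ζ, Φ ζ * (‖ζ‖ₑ⁻¹) ^ N * ‖ξ - ζ‖ₑ⁻¹)
    (h2 : ∀ᵐ ζ : ℂ, ‖ζ‖ < T → Φ ζ ≤ W ζ * g ζ)
    (h4 : ∀ N : ℕ, ∫⁻ ζ, Φ ζ * (‖ζ‖ₑ⁻¹) ^ N < ∞)
    {t s : ℝ} (ht : 0 ≤ t) (hts : t < s) (hsT : s ≤ T) (h0 : ∀ᵐ ξ : ℂ, ‖ξ‖ < t → g ξ = 0)
    (hε : (∫⁻ ξ in (ball (0 : ℂ) s \ ball 0 t), W ξ ^ q * ENNReal.ofReal (‖ξ‖ ^ (q - 2))) ^ (1 / q)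
      * (∫⁻ w, ker r w) ^ (1 / r) ≤ 1 / 2) :
    ∀ᵐ ξ : ℂ, ‖ξ‖ < s → g ξ = 0 := by
  have hs0 : 0 < s := lt_of_le_of_lt ht hts
  have hne0 : ∀ᵐ ξ : ℂ, ξ ≠ 0 := by simp [ae_iff, measure_singleton]
  have hinv : Measurable fun ζ : ℂ => ‖ζ‖ₑ⁻¹ := measurable_enorm.inv
  have hmN : ∀ N : ℕ, Measurable fun ζ : ℂ => Φ ζ * (‖ζ‖ₑ⁻¹) ^ N := fun N =>
    hΦ.mul (hinv.pow_const N)
  have hmNA : ∀ N : ℕ, Measurable fun ζ : ℂ => Φ ζ * (‖ζ‖ₑ⁻¹) ^ N * aw ζ := fun N =>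
    (hmN N).mul aw_meas
  have hmA : Measurable fun ζ : ℂ => Φ ζ * aw ζ := hΦ.mul aw_meas
  have hfin : ∀ N : ℕ, ∫⁻ ζ, Φ ζ * (‖ζ‖ₑ⁻¹) ^ N * aw ζ < ∞ := by
    intro N
    refine lt_of_le_of_lt (lintegral_mono_ae (g := fun ζ => Φ ζ * (‖ζ‖ₑ⁻¹) ^ N +
      Φ ζ * (‖ζ‖ₑ⁻¹) ^ (N + 1)) ?_) ?_
    · filter_upwards [hne0] with ζ hζ
      calc Φ ζ * (‖ζ‖ₑ⁻¹) ^ N * aw ζ ≤ Φ ζ * (‖ζ‖ₑ⁻¹) ^ N * (1 + ‖ζ‖ₑ⁻¹) := by
            gcongr
            exact aw_le hζ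
        _ = _ := by ring
    · rw [lintegral_add_left (hmN N)]
      exact ENNReal.add_lt_top.mpr ⟨h4 N, h4 (N + 1)⟩
  -- the main absorption
  have hP : ∀ N : ℕ, ∫⁻ ζ in ball (0 : ℂ) s, Φ ζ * (‖ζ‖ₑ⁻¹) ^ N * aw ζ ≤
      ∫⁻ ζ in (ball (0 : ℂ) s)ᶜ, Φ ζ * (‖ζ‖ₑ⁻¹) ^ N * aw ζ := by
    intro N
    set P := ∫⁻ ζ in ball (0 : ℂ) s, Φ ζ * (‖ζ‖ₑ⁻¹) ^ N * aw ζ with hPdef
    set R := ∫⁻ ζ in (ball (0 : ℂ) s)ᶜ, Φ ζ * (‖ζ‖ₑ⁻¹) ^ N * aw ζ with hRdef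
    have hPR : P + R = ∫⁻ ζ, Φ ζ * (‖ζ‖ₑ⁻¹) ^ N * aw ζ := lintegral_add_compl _ measurableSet_ball
    set S : Set ℂ := ball (0 : ℂ) s \ ball 0 t with hS
    have hSm : MeasurableSet S := measurableSet_ball.diff measurableSet_ball
    have hP1 : P ≤ ∫⁻ ξ in S, W ξ * aw ξ * ∫⁻ ζ, Φ ζ * (‖ζ‖ₑ⁻¹) ^ N * ‖ξ - ζ‖ₑ⁻¹ := by
      rw [hPdef, ← lintegral_indicator measurableSet_ball, ← lintegral_indicator hSm]
      apply lintegral_mono_ae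
      filter_upwards [h1 N, h2, h0, hne0] with ξ e1 e2 e0 hne
      by_cases hb : ξ ∈ ball (0 : ℂ) s
      · rw [indicator_of_mem hb]
        have hb' : ‖ξ‖ < s := by simpa using hb
        by_cases hbt : ξ ∈ ball (0 : ℂ) t
        · have hbt' : ‖ξ‖ < t := by simpa using hbt
          have : Φ ξ = 0 := by
            have := e2 (lt_of_lt_of_le hb' hsT)
            rw [e0 hbt', mul_zero] at this
            exact le_antisymm this zero_le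
          rw [this]
          simp
        · have hbS : ξ ∈ S := ⟨hb, hbt⟩
          rw [indicator_of_mem hbS]
          have hcan : ‖ξ‖ₑ ^ N * (‖ξ‖ₑ⁻¹) ^ N = 1 := by
            rw [← mul_pow, ENNReal.mul_inv_cancel (by simpa using hne) enorm_ne_top, one_pow]
          calc Φ ξ * (‖ξ‖ₑ⁻¹) ^ N * aw ξ
              ≤ (W ξ * (‖ξ‖ₑ ^ N * ∫⁻ ζ, Φ ζ * (‖ζ‖ₑ⁻¹) ^ N * ‖ξ - ζ‖ₑ⁻¹)) * (‖ξ‖ₑ⁻¹) ^ N * aw ξ := by
                gcongr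
                refine (e2 (lt_of_lt_of_le hb' hsT)).trans ?_
                gcongr
                exact e1 (lt_of_lt_of_le hb' hsT)
            _ = (‖ξ‖ₑ ^ N * (‖ξ‖ₑ⁻¹) ^ N) * (W ξ * aw ξ *
                ∫⁻ ζ, Φ ζ * (‖ζ‖ₑ⁻¹) ^ N * ‖ξ - ζ‖ₑ⁻¹) := by ring
            _ = _ := by rw [hcan, one_mul]
      · rw [indicator_of_notMem hb]
        exact zero_le
    have hP2 : ∫⁻ ξ in S, W ξ * aw ξ * ∫⁻ ζ, Φ ζ * (‖ζ‖ₑ⁻¹) ^ N * ‖ξ - ζ‖ₑ⁻¹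
        = ∫⁻ ζ, Φ ζ * (‖ζ‖ₑ⁻¹) ^ N * ∫⁻ ξ in S, W ξ * aw ξ * ‖ξ - ζ‖ₑ⁻¹ := by
      have hsub : Measurable fun p : ℂ × ℂ => ‖p.1 - p.2‖ₑ⁻¹ :=
        (measurable_fst.sub measurable_snd).enorm.inv
      have ha : ∀ ξ : ℂ, W ξ * aw ξ * ∫⁻ ζ, Φ ζ * (‖ζ‖ₑ⁻¹) ^ N * ‖ξ - ζ‖ₑ⁻¹
          = ∫⁻ ζ, (W ξ * aw ξ) * (Φ ζ * (‖ζ‖ₑ⁻¹) ^ N * ‖ξ - ζ‖ₑ⁻¹) := by
        intro ξ
        rw [lintegral_const_mul]
        exact (hmN N).mul ((measurable_const.sub measurable_id).enorm.inv)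
      simp_rw [ha]
      rw [lintegral_lintegral_swap]
      · apply lintegral_congr
        intro ζ
        rw [← lintegral_const_mul]
        · apply lintegral_congr
          intro ξ
          ring
        · exact (hW.mul aw_meas).mul ((measurable_id.sub measurable_const).enorm.inv)
      · apply Measurable.aemeasurable
        exact ((hW.mul aw_meas).comp measurable_fst).mul
          (((hmN N).comp measurable_snd).mul hsub)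
    have hP3 : ∫⁻ ζ, Φ ζ * (‖ζ‖ₑ⁻¹) ^ N * ∫⁻ ξ in S, W ξ * aw ξ * ‖ξ - ζ‖ₑ⁻¹
        ≤ (1 / 2) * (P + R) := by
      rw [hPR, ← lintegral_const_mul _ (hmNA N)]
      apply lintegral_mono_ae
      filter_upwards [hne0] with ζ hζ
      calc _ ≤ Φ ζ * (‖ζ‖ₑ⁻¹) ^ N * ((1 / 2) * aw ζ) := by
            gcongr
            refine (kernel_bound hqr hW S hζ).trans ?_
            gcongr
        _ = _ := by ring
    have hPf : P ≠ ∞ := ((setLIntegral_le_lintegral _ _).trans_lt (hfin N)).ne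
    have hRf : R ≠ ∞ := ((setLIntegral_le_lintegral _ _).trans_lt (hfin N)).ne
    have hfinal : P ≤ (1 / 2) * (P + R) := hP1.trans (hP2.le.trans hP3)
    have h5 : 2 * P ≤ P + R := by
      calc 2 * P ≤ 2 * ((1 / 2) * (P + R)) := by gcongr
        _ = P + R := by
            rw [← mul_assoc, one_div, ENNReal.mul_inv_cancel (by norm_num) (by norm_num), one_mul]
    rw [two_mul] at h5
    exact (ENNReal.add_le_add_iff_left hPf).mp h5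
  -- `Φ` vanishes on the ball
  have hK : ∫⁻ ζ, Φ ζ * aw ζ ≠ ∞ := by
    have := hfin 0
    simpa using this.ne
  have hΦ0 : ∀ᵐ ζ : ℂ, ‖ζ‖ < s → Φ ζ = 0 := by
    have hsmall : ∀ s' : ℝ, 0 < s' → s' < s → ∀ᵐ ζ : ℂ, ‖ζ‖ < s' → Φ ζ = 0 := by
      intro s' hs'0 hs's
      have hx : ENNReal.ofReal s' * (ENNReal.ofReal s)⁻¹ < 1 := by
        rw [← ENNReal.ofReal_inv_of_pos hs0, ← ENNReal.ofReal_mul hs'0.le, ENNReal.ofReal_lt_one,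
          ← div_eq_mul_inv, div_lt_one hs0]
        exact hs's
      have hz : ∫⁻ ζ in ball (0 : ℂ) s', Φ ζ * aw ζ = 0 := by
        refine zero_of_pow_le hx hK fun N => ?_
        have hc0 : ENNReal.ofReal s' ≠ 0 := by simpa using hs'0
        have hcan : ENNReal.ofReal s' ^ N * (ENNReal.ofReal s')⁻¹ ^ N = 1 := by
          rw [← mul_pow, ENNReal.mul_inv_cancel hc0 ENNReal.ofReal_ne_top, one_pow]
        have hA : (ENNReal.ofReal s')⁻¹ ^ N * ∫⁻ ζ in ball (0 : ℂ) s', Φ ζ * aw ζ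
            ≤ (ENNReal.ofReal s)⁻¹ ^ N * ∫⁻ ζ, Φ ζ * aw ζ := by
          calc _ = ∫⁻ ζ in ball (0 : ℂ) s', (ENNReal.ofReal s')⁻¹ ^ N * (Φ ζ * aw ζ) := by
                rw [lintegral_const_mul _ hmA]
            _ ≤ ∫⁻ ζ in ball (0 : ℂ) s', Φ ζ * (‖ζ‖ₑ⁻¹) ^ N * aw ζ := by
                apply setLIntegral_mono_ae (hmNA N).aemeasurable
                filter_upwards with ζ hζ
                have : ‖ζ‖ₑ ≤ ENNReal.ofReal s' := by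
                  rw [← ofReal_norm]
                  apply ENNReal.ofReal_le_ofReal
                  have : ‖ζ‖ < s' := by simpa using hζ
                  exact this.le
                calc (ENNReal.ofReal s')⁻¹ ^ N * (Φ ζ * aw ζ) ≤ (‖ζ‖ₑ⁻¹) ^ N * (Φ ζ * aw ζ) := by
                      gcongr
                  _ = _ := by ring
            _ ≤ ∫⁻ ζ in ball (0 : ℂ) s, Φ ζ * (‖ζ‖ₑ⁻¹) ^ N * aw ζ :=
                lintegral_mono_set (ball_subset_ball hs's.le)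
            _ ≤ ∫⁻ ζ in (ball (0 : ℂ) s)ᶜ, Φ ζ * (‖ζ‖ₑ⁻¹) ^ N * aw ζ := hP N
            _ ≤ ∫⁻ ζ in (ball (0 : ℂ) s)ᶜ, (ENNReal.ofReal s)⁻¹ ^ N * (Φ ζ * aw ζ) := by
                apply setLIntegral_mono_ae (hmA.const_mul _).aemeasurable
                filter_upwards with ζ hζ
                have : ENNReal.ofReal s ≤ ‖ζ‖ₑ := by
                  rw [← ofReal_norm]
                  apply ENNReal.ofReal_le_ofReal
                  simpa using hζ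
                calc Φ ζ * (‖ζ‖ₑ⁻¹) ^ N * aw ζ ≤ Φ ζ * ((ENNReal.ofReal s)⁻¹) ^ N * aw ζ := by
                      gcongr
                  _ = _ := by ring
            _ ≤ ∫⁻ ζ, (ENNReal.ofReal s)⁻¹ ^ N * (Φ ζ * aw ζ) := setLIntegral_le_lintegral _ _
            _ = _ := lintegral_const_mul _ hmA
        calc ∫⁻ ζ in ball (0 : ℂ) s', Φ ζ * aw ζ
            = ENNReal.ofReal s' ^ N * ((ENNReal.ofReal s')⁻¹ ^ N *
              ∫⁻ ζ in ball (0 : ℂ) s', Φ ζ * aw ζ) := by rw [← mul_assoc, hcan, one_mul]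
          _ ≤ ENNReal.ofReal s' ^ N * ((ENNReal.ofReal s)⁻¹ ^ N * ∫⁻ ζ, Φ ζ * aw ζ) := by gcongr
          _ = _ := by rw [mul_pow, mul_assoc]
      rw [lintegral_eq_zero_iff hmA, EventuallyEq,
        ae_restrict_iff' measurableSet_ball] at hz
      filter_upwards [hz, hne0] with ζ e hne hlt
      have := e (by simpa using hlt)
      rcases mul_eq_zero.mp this with h | h
      · exact h
      · exact absurd h (aw_pos hne).ne'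
    have hall : ∀ᵐ ζ : ℂ, ∀ k : ℕ, ‖ζ‖ < s - s / (k + 2) → Φ ζ = 0 := by
      rw [ae_all_iff]
      intro k
      apply hsmall
      · have h5 : s / ((k : ℝ) + 2) < s := by
          rw [div_lt_iff₀ (by positivity)]
          nlinarith [(Nat.cast_nonneg k : (0 : ℝ) ≤ k)]
        linarith
      · have : 0 < s / ((k : ℝ) + 2) := by positivity
        linarith
    filter_upwards [hall] with ζ e hlt
    obtain ⟨k, hk⟩ : ∃ k : ℕ, ‖ζ‖ < s - s / (k + 2) := by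
      obtain ⟨k, hk⟩ := exists_nat_gt (s / (s - ‖ζ‖))
      refine ⟨k, ?_⟩
      have hd : 0 < s - ‖ζ‖ := sub_pos.mpr hlt
      rw [div_lt_iff₀ hd] at hk
      have h6 : s / ((k : ℝ) + 2) < s - ‖ζ‖ := by
        rw [div_lt_iff₀ (by positivity)]
        nlinarith
      linarith
    exact e k hk
  -- conclusion
  have hall1 : ∀ᵐ ξ : ℂ, ∀ N : ℕ, ‖ξ‖ < T →
      g ξ ≤ ‖ξ‖ₑ ^ N * ∫⁻ ζ, Φ ζ * (‖ζ‖ₑ⁻¹) ^ N * ‖ξ - ζ‖ₑ⁻¹ := ae_all_iff.mpr h1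
  have hK2 : ∫⁻ ζ, Φ ζ ≠ ∞ := by
    have := h4 0
    simpa using this.ne
  filter_upwards [hall1] with ξ e hlt
  have hd : 0 < s - ‖ξ‖ := sub_pos.mpr hlt
  have hx : ‖ξ‖ₑ * (ENNReal.ofReal s)⁻¹ < 1 := by
    rw [← ofReal_norm, ← ENNReal.ofReal_inv_of_pos hs0, ← ENNReal.ofReal_mul (norm_nonneg _),
      ENNReal.ofReal_lt_one, ← div_eq_mul_inv, div_lt_one hs0]
    exact hlt
  have hK3 : (ENNReal.ofReal (s - ‖ξ‖))⁻¹ * ∫⁻ ζ, Φ ζ ≠ ∞ := by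
    apply ENNReal.mul_ne_top _ hK2
    rw [Ne, ENNReal.inv_eq_top]
    simpa using hlt
  refine zero_of_pow_le hx hK3 fun N => ?_
  refine (e N (lt_of_lt_of_le hlt hsT)).trans ?_
  have hI : ∫⁻ ζ, Φ ζ * (‖ζ‖ₑ⁻¹) ^ N * ‖ξ - ζ‖ₑ⁻¹ ≤
      (ENNReal.ofReal s)⁻¹ ^ N * ((ENNReal.ofReal (s - ‖ξ‖))⁻¹ * ∫⁻ ζ, Φ ζ) := by
    rw [← lintegral_const_mul _ hΦ, ← lintegral_const_mul _ (hΦ.const_mul _)]
    apply lintegral_mono_ae
    filter_upwards [hΦ0] with ζ hζ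
    by_cases hb : ‖ζ‖ < s
    · rw [hζ hb]
      simp
    · rw [not_lt] at hb
      have i1 : ENNReal.ofReal s ≤ ‖ζ‖ₑ := by
        rw [← ofReal_norm]
        exact ENNReal.ofReal_le_ofReal hb
      have i2 : ENNReal.ofReal (s - ‖ξ‖) ≤ ‖ξ - ζ‖ₑ := by
        rw [← ofReal_norm]
        apply ENNReal.ofReal_le_ofReal
        have := norm_sub_norm_le ζ ξ
        rw [norm_sub_rev] at this
        linarith
      calc Φ ζ * (‖ζ‖ₑ⁻¹) ^ N * ‖ξ - ζ‖ₑ⁻¹ ≤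
            Φ ζ * ((ENNReal.ofReal s)⁻¹) ^ N * (ENNReal.ofReal (s - ‖ξ‖))⁻¹ := by gcongr
        _ = _ := by ring
  calc ‖ξ‖ₑ ^ N * ∫⁻ ζ, Φ ζ * (‖ζ‖ₑ⁻¹) ^ N * ‖ξ - ζ‖ₑ⁻¹
      ≤ ‖ξ‖ₑ ^ N * ((ENNReal.ofReal s)⁻¹ ^ N * ((ENNReal.ofReal (s - ‖ξ‖))⁻¹ * ∫⁻ ζ, Φ ζ)) := by
        gcongr
    _ = _ := by rw [mul_pow, mul_assoc]

theorem oneD (hqr : q.HolderConjugate r) (h1r : 1 < r) (hr2 : r < 2)
    (hg : Measurable g) (hΦ : Measurable Φ) (hW : Measurable W)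
    (h1 : ∀ N : ℕ, ∀ᵐ ξ : ℂ, ‖ξ‖ < T → g ξ ≤ ‖ξ‖ₑ ^ N * ∫⁻ ζ, Φ ζ * (‖ζ‖ₑ⁻¹) ^ N * ‖ξ - ζ‖ₑ⁻¹)
    (h2 : ∀ᵐ ζ : ℂ, ‖ζ‖ < T → Φ ζ ≤ W ζ * g ζ)
    (h3 : ∫⁻ ζ in ball (0 : ℂ) T, W ζ ^ q * ENNReal.ofReal (‖ζ‖ ^ (q - 2)) < ∞)
    (h4 : ∀ N : ℕ, ∫⁻ ζ, Φ ζ * (‖ζ‖ₑ⁻¹) ^ N < ∞) :
    ∀ᵐ ξ : ℂ, ‖ξ‖ < T → g ξ = 0 := by
  rcases le_or_gt T 0 with hT | hT
  · filter_upwards with ξ hξ
    exact absurd (norm_nonneg ξ) (not_le.mpr (lt_of_lt_of_le hξ hT))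
  by_contra hcon
  set A : Set ℝ := {x | x ≤ T ∧ ∀ᵐ ξ : ℂ, ‖ξ‖ < x → g ξ = 0} with hA
  have hA0 : (0 : ℝ) ∈ A := by
    refine ⟨hT.le, ?_⟩
    filter_upwards with ξ hξ
    exact absurd (norm_nonneg ξ) (not_le.mpr hξ)
  have hAb : BddAbove A := ⟨T, fun x hx => hx.1⟩
  set t := sSup A with ht
  have ht0 : 0 ≤ t := le_csSup hAb hA0
  have htT : t ≤ T := csSup_le ⟨0, hA0⟩ fun x hx => hx.1
  have htA : t ∈ A := by
    refine ⟨htT, ?_⟩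
    have hall : ∀ᵐ ξ : ℂ, ∀ k : ℕ, ‖ξ‖ < t - 1 / (k + 1) → g ξ = 0 := by
      rw [ae_all_iff]
      intro k
      have hlt : t - 1 / ((k : ℝ) + 1) < t := by
        have : (0 : ℝ) < 1 / ((k : ℝ) + 1) := by positivity
        linarith
      obtain ⟨x, hx, hx'⟩ := exists_lt_of_lt_csSup ⟨0, hA0⟩ hlt
      filter_upwards [hx.2] with ξ e hξ
      exact e (hξ.trans hx')
    filter_upwards [hall] with ξ e hξ
    obtain ⟨k, hk⟩ := exists_nat_one_div_lt (sub_pos.mpr hξ)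
    exact e k (by linarith)
  have htlt : t < T := by
    rcases htT.lt_or_eq with h | h
    · exact h
    · rw [h] at htA
      exact absurd htA.2 hcon
  -- find a good `s`
  have hq0 : 0 < q := hqr.pos
  have hr0 : 0 < r := hqr.symm.pos
  set K := ∫⁻ w, ker r w with hK
  have hKf : K < ∞ := lintegral_ker h1r hr2
  set w : ℂ → ℝ≥0∞ := fun ζ => W ζ ^ q * ENNReal.ofReal (‖ζ‖ ^ (q - 2)) with hw
  have hvol : Tendsto (fun s : ℝ => (volume.restrict (ball (0 : ℂ) T)) (ball (0 : ℂ) s \ ball 0 t)) (𝓝[>] t) (𝓝 0) := by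
    have hv : ∀ s, t < s → (volume : Measure ℂ) (ball (0 : ℂ) s \ ball 0 t)
        = ENNReal.ofReal s ^ 2 * NNReal.pi - ENNReal.ofReal t ^ 2 * NNReal.pi := by
      intro s hs
      rw [measure_sdiff (ball_subset_ball hs.le) measurableSet_ball.nullMeasurableSet
        measure_ball_lt_top.ne, Complex.volume_ball, Complex.volume_ball]
    have hlim : Tendsto (fun s : ℝ => ENNReal.ofReal s ^ 2 * NNReal.pi - ENNReal.ofReal t ^ 2 * NNReal.pi)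
        (𝓝[>] t) (𝓝 (ENNReal.ofReal t ^ 2 * NNReal.pi - ENNReal.ofReal t ^ 2 * NNReal.pi)) := by
      apply ENNReal.Tendsto.sub
      · apply ENNReal.Tendsto.mul_const
        · apply ENNReal.Tendsto.pow
          exact (ENNReal.continuous_ofReal.tendsto t).mono_left nhdsWithin_le_nhds
        · right; exact ENNReal.coe_ne_top
      · exact tendsto_const_nhds
      · left
        exact ENNReal.mul_ne_top (ENNReal.pow_ne_top ENNReal.ofReal_ne_top) ENNReal.coe_ne_top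
    rw [tsub_self] at hlim
    refine tendsto_of_tendsto_of_tendsto_of_le_of_le' tendsto_const_nhds hlim
      (Eventually.of_forall fun _ => zero_le) ?_
    filter_upwards [self_mem_nhdsWithin] with s hs
    rw [← hv s hs]
    exact Measure.restrict_apply_le _ _
  have hint : Tendsto (fun s : ℝ => ∫⁻ ζ in (ball (0 : ℂ) s \ ball 0 t), w ζ
      ∂(volume.restrict (ball (0 : ℂ) T))) (𝓝[>] t) (𝓝 0) :=
    tendsto_setLIntegral_zero h3.ne hvol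
  have hlim2 : Tendsto (fun s : ℝ => (∫⁻ ζ in (ball (0 : ℂ) s \ ball 0 t), w ζ
      ∂(volume.restrict (ball (0 : ℂ) T))) ^ (1 / q) * K ^ (1 / r)) (𝓝[>] t) (𝓝 0) := by
    have e : (0 : ℝ≥0∞) = 0 ^ (1 / q) * K ^ (1 / r) := by
      rw [ENNReal.zero_rpow_of_pos (by positivity), zero_mul]
    rw [e]
    apply ENNReal.Tendsto.mul_const
    · exact (ENNReal.continuous_rpow_const.tendsto 0).comp hint
    · right
      exact ENNReal.rpow_ne_top_of_nonneg (by positivity) hKf.ne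
  have hev : ∀ᶠ s in 𝓝[>] t, (∫⁻ ζ in (ball (0 : ℂ) s \ ball 0 t), w ζ
      ∂(volume.restrict (ball (0 : ℂ) T))) ^ (1 / q) * K ^ (1 / r) ≤ 1 / 2 := by
    have := hlim2.eventually (gt_mem_nhds (show (0 : ℝ≥0∞) < 1 / 2 by norm_num))
    filter_upwards [this] with s hs
    exact hs.le
  have hev2 : ∀ᶠ s in 𝓝[>] t, s < T :=
    (gt_mem_nhds htlt).filter_mono nhdsWithin_le_nhds
  obtain ⟨s, ⟨hs1, hs2⟩, hs3⟩ := ((hev.and hev2).and self_mem_nhdsWithin).exists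
  have hts : t < s := hs3
  rw [Measure.restrict_restrict (measurableSet_ball.diff measurableSet_ball)] at hs1
  have hsub : (ball (0 : ℂ) s \ ball 0 t) ∩ ball 0 T = ball (0 : ℂ) s \ ball 0 t := by
    apply inter_eq_left.mpr
    exact sdiff_subset.trans (ball_subset_ball hs2.le)
  rw [hsub] at hs1
  have hnew := step hqr hg hΦ hW h1 h2 h4 ht0 hts hs2.le htA.2 hs1
  have : s ≤ t := le_csSup hAb ⟨hs2.le, hnew⟩
  linarith

end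

end Pool.Agent.V1191.UC
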