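import Pool.Agent.V1191.UC.TB

/-!
# Weighted integrability from infinite order vanishing
-/

set_option autoImplicit false

open MeasureTheory Filter Topology Metric Set
open scoped ENNReal NNReal

noncomputable section

namespace Pool.Agent.V1191.UC

variable {n : ℕ}

theorem alg (p t d : ℝ) (hp : p ≠ 0) (M : ℕ) :
    ((p * 2) / t) ^ M * (d / p) ^ (M + 1) = ((2 / t) ^ M * d ^ (M + 1)) * p⁻¹ := by
  rw [show p * 2 / t = p * (2 / t) by ring, mul_pow]
  generalize (2 / t) ^ M = a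
  rw [div_pow, pow_succ p M]
  field_simp

theorem weight_int (h0 : ∀ᵐ x : E n, x ≠ 0) {H : E n → ℝ≥0∞} (hH : Measurable H)
    (hv : ∀ N : ℕ, Tendsto (fun r : ℝ => (∫⁻ x in ball (0 : E n) r, H x) / ENNReal.ofReal (r ^ N))
      (𝓝[>] 0) (𝓝 0)) (M : ℕ) :
    ∃ δ : ℝ, 0 < δ ∧ δ ≤ 1 ∧ ∫⁻ x in ball (0 : E n) δ, H x * (‖x‖ₑ⁻¹) ^ M < ∞ := by
  have h1 : ∀ᶠ r : ℝ in 𝓝[>] 0, (∫⁻ x in ball (0 : E n) r, H x) / ENNReal.ofReal (r ^ (M + 1)) ≤ 1 := by
    have := (hv (M + 1)).eventually (gt_mem_nhds (show (0 : ℝ≥0∞) < 1 by norm_num))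
    filter_upwards [this] with r hr using hr.le
  obtain ⟨d, hd0, hd⟩ := mem_nhdsGT_iff_exists_Ioo_subset.mp h1
  have hd0' : 0 < d := hd0
  obtain ⟨d0, hd00, hd01, hd02⟩ : ∃ d0 : ℝ, 0 < d0 ∧ d0 < d ∧ d0 ≤ 1 :=
    ⟨min (d / 2) 1, by positivity, lt_of_le_of_lt (min_le_left _ _) (by linarith), min_le_right _ _⟩
  have h2 : ∀ r : ℝ, 0 < r → r ≤ d0 → ∫⁻ x in ball (0 : E n) r, H x ≤ ENNReal.ofReal (r ^ (M + 1)) := by
    intro r hr hrd
    have h3 : (∫⁻ x in ball (0 : E n) r, H x) / ENNReal.ofReal (r ^ (M + 1)) ≤ 1 :=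
      hd ⟨hr, lt_of_le_of_lt hrd hd01⟩
    have hpos : ENNReal.ofReal (r ^ (M + 1)) ≠ 0 := by
      have : 0 < r ^ (M + 1) := by positivity
      simpa using this
    rw [ENNReal.div_le_iff hpos ENNReal.ofReal_ne_top, one_mul] at h3
    exact h3
  set δ := d0 / 2 with hδ
  have hδ0 : 0 < δ := by positivity
  refine ⟨δ, hδ0, by linarith, ?_⟩
  set c : ℕ → ℝ≥0∞ := fun k => ENNReal.ofReal ((2 ^ (k + 1) / δ) ^ M) with hc
  have hpt : ∀ x : E n, x ≠ 0 → x ∈ ball (0 : E n) δ →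
      (‖x‖ₑ⁻¹) ^ M ≤ ∑' k : ℕ, c k * (ball (0 : E n) (d0 / 2 ^ k)).indicator (fun _ => 1) x := by
    intro x hx0 hxδ
    have hxp : 0 < ‖x‖ := norm_pos_iff.mpr hx0
    have hxδ' : ‖x‖ < δ := by simpa using hxδ
    obtain ⟨k, hk1, hk2⟩ := exists_nat_pow_near (show (1 : ℝ) ≤ δ / ‖x‖ by
      rw [le_div_iff₀ hxp]; linarith) (show (1 : ℝ) < 2 by norm_num)
    refine le_trans ?_ (ENNReal.le_tsum k)
    have hmem : x ∈ ball (0 : E n) (d0 / 2 ^ k) := by
      rw [mem_ball_zero_iff, lt_div_iff₀ (by positivity)]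
      rw [le_div_iff₀ hxp] at hk1
      linarith
    rw [indicator_of_mem hmem, mul_one, hc]
    simp only
    rw [← ofReal_norm, ← ENNReal.ofReal_inv_of_pos hxp, ← ENNReal.ofReal_pow (by positivity)]
    apply ENNReal.ofReal_le_ofReal
    gcongr
    rw [inv_le_iff_one_le_mul₀ hxp, div_mul_eq_mul_div, one_le_div hδ0]
    rw [div_lt_iff₀ hxp] at hk2
    linarith
  have hmi : ∀ k : ℕ, Measurable fun x : E n => c k *
      (ball (0 : E n) (d0 / 2 ^ k)).indicator (fun _ => (1 : ℝ≥0∞)) x := fun k =>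
    (measurable_const.indicator measurableSet_ball).const_mul _
  calc ∫⁻ x in ball (0 : E n) δ, H x * (‖x‖ₑ⁻¹) ^ M
      ≤ ∫⁻ x, H x * ∑' k : ℕ, c k * (ball (0 : E n) (d0 / 2 ^ k)).indicator (fun _ => 1) x := by
        rw [← lintegral_indicator measurableSet_ball]
        apply lintegral_mono_ae
        filter_upwards [h0] with x hx0
        by_cases hx : x ∈ ball (0 : E n) δ
        · rw [indicator_of_mem hx]
          gcongr
          exact hpt x hx0 hx
        · rw [indicator_of_notMem hx]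
          exact zero_le
    _ = ∑' k : ℕ, c k * ∫⁻ x in ball (0 : E n) (d0 / 2 ^ k), H x := by
        simp_rw [← ENNReal.tsum_mul_left]
        rw [lintegral_tsum]
        · congr 1
          funext k
          rw [← lintegral_const_mul _ hH, ← lintegral_indicator measurableSet_ball]
          apply lintegral_congr
          intro x
          by_cases hx : x ∈ ball (0 : E n) (d0 / 2 ^ k)
          · rw [indicator_of_mem hx, indicator_of_mem hx]
            ring
          · rw [indicator_of_notMem hx, indicator_of_notMem hx]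
            simp
        · intro k
          exact (hH.mul (hmi k)).aemeasurable
    _ ≤ ∑' k : ℕ, ENNReal.ofReal (((2 / δ) ^ M * d0 ^ (M + 1)) * (1 / 2) ^ k) := by
        apply ENNReal.tsum_le_tsum
        intro k
        have h3 := h2 (d0 / 2 ^ k) (by positivity) (div_le_self hd00.le (one_le_pow₀ (by norm_num)))
        calc c k * ∫⁻ x in ball (0 : E n) (d0 / 2 ^ k), H x
            ≤ c k * ENNReal.ofReal ((d0 / 2 ^ k) ^ (M + 1)) := by gcongr
          _ = _ := by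
            rw [hc]
            simp only
            rw [← ENNReal.ofReal_mul (by positivity)]
            congr 1
            have hp : (2 : ℝ) ^ k ≠ 0 := by positivity
            rw [pow_succ 2 k, one_div, inv_pow]
            exact alg _ _ _ hp M
    _ < ∞ := by
        rw [lt_top_iff_ne_top]
        apply Summable.tsum_ofReal_ne_top
        apply Summable.mul_left
        exact summable_geometric_of_lt_one (by norm_num) (by norm_num)

theorem le_one_add_rpow {t : ℝ≥0∞} {a b : ℝ} (ha : 0 ≤ a) (hab : a ≤ b) : t ^ a ≤ 1 + t ^ b := by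
  rcases le_total t 1 with h | h
  · exact (ENNReal.rpow_le_one h ha).trans (le_add_right le_rfl)
  · exact (ENNReal.rpow_le_rpow_of_exponent_le h hab).trans (le_add_left le_rfl)

/-- consequences of the vanishing of `|u|` in the `L^b` sense -/
theorem van_u (h0 : ∀ᵐ x : E n, x ≠ 0) {U : E n → ℝ≥0∞} (hU : Measurable U) {b : ℝ} (hb : 1 ≤ b)
    (hb3 : b ≤ 3)
    (hv : ∀ N : ℕ, Tendsto (fun r : ℝ => (∫⁻ x in ball (0 : E n) r, U x ^ b) /
      ENNReal.ofReal (r ^ N)) (𝓝[>] 0) (𝓝 0)) (M : ℕ) {a : ℝ} (ha : 0 ≤ a) (hab : a ≤ b) :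
    ∃ δ : ℝ, 0 < δ ∧ δ ≤ 1 ∧ ∫⁻ x in ball (0 : E n) δ, (U x * (‖x‖ₑ⁻¹) ^ M) ^ a < ∞ := by
  obtain ⟨δ, hδ0, hδ1, hδ⟩ := weight_int h0 (hU.pow_const b) hv (M * 3)
  refine ⟨δ, hδ0, hδ1, ?_⟩
  calc ∫⁻ x in ball (0 : E n) δ, (U x * (‖x‖ₑ⁻¹) ^ M) ^ a
      ≤ ∫⁻ x in ball (0 : E n) δ, (1 + U x ^ b * (‖x‖ₑ⁻¹) ^ (M * 3)) := by
        apply setLIntegral_mono
        · exact measurable_const.add ((hU.pow_const b).mul (inv_enorm_measE.pow_const _))
        intro x hx
        refine (le_one_add_rpow ha hab).trans ?_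
        gcongr
        rw [ENNReal.mul_rpow_of_nonneg _ _ (by linarith)]
        gcongr
        have hx1 : (1 : ℝ≥0∞) ≤ (‖x‖ₑ⁻¹) := by
          rw [ENNReal.one_le_inv, ← ofReal_norm, ← ENNReal.ofReal_one]
          apply ENNReal.ofReal_le_ofReal
          have : ‖x‖ < δ := by simpa using hx
          linarith
        have hx2 : (1 : ℝ≥0∞) ≤ (‖x‖ₑ⁻¹) ^ M := one_le_pow₀ hx1
        calc ((‖x‖ₑ⁻¹) ^ M) ^ b ≤ ((‖x‖ₑ⁻¹) ^ M) ^ (3 : ℝ) :=
              ENNReal.rpow_le_rpow_of_exponent_le hx2 hb3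
          _ = (‖x‖ₑ⁻¹) ^ (M * 3) := by
              rw [pow_mul]
              exact_mod_cast ENNReal.rpow_natCast _ 3
    _ = volume (ball (0 : E n) δ) + ∫⁻ x in ball (0 : E n) δ, U x ^ b * (‖x‖ₑ⁻¹) ^ (M * 3) := by
        rw [lintegral_add_left measurable_const, setLIntegral_one]
    _ < ∞ := ENNReal.add_lt_top.mpr ⟨measure_ball_lt_top, hδ⟩

theorem van_Vu (h0 : ∀ᵐ x : E n, x ≠ 0) {U V : E n → ℝ≥0∞} (hU : Measurable U) (hV : Measurable V)
    {b q r R : ℝ} (hb3 : b ≤ 3) (hqr : q.HolderConjugate r) (hrb : r ≤ b) (hR : 0 < R)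
    (hVi : ∫⁻ x in ball (0 : E n) R, V x ^ q < ∞)
    (hv : ∀ N : ℕ, Tendsto (fun r : ℝ => (∫⁻ x in ball (0 : E n) r, U x ^ b) /
      ENNReal.ofReal (r ^ N)) (𝓝[>] 0) (𝓝 0)) (M : ℕ) :
    ∃ δ : ℝ, 0 < δ ∧ ∫⁻ x in ball (0 : E n) δ, (V x * U x) * (‖x‖ₑ⁻¹) ^ M < ∞ := by
  have hr1 : 1 < r := hqr.symm.lt
  have hq1 : 1 < q := hqr.lt
  obtain ⟨δ, hδ0, hδ1, hδ⟩ := van_u h0 hU (by linarith) hb3 hv M (a := r) (by linarith) hrb
  refine ⟨min δ R, by positivity, ?_⟩
  calc ∫⁻ x in ball (0 : E n) (min δ R), (V x * U x) * (‖x‖ₑ⁻¹) ^ M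
      ≤ ∫⁻ x in ball (0 : E n) (min δ R), (V x ^ q + (U x * (‖x‖ₑ⁻¹) ^ M) ^ r) := by
        apply lintegral_mono
        intro x
        beta_reduce
        rw [mul_assoc]
        refine (ENNReal.young_inequality _ _ hqr).trans ?_
        gcongr
        · apply ENNReal.div_le_of_le_mul
          calc V x ^ q = V x ^ q * 1 := (mul_one _).symm
            _ ≤ _ := by
              gcongr
              rw [ENNReal.one_le_ofReal]
              exact hq1.le
        · apply ENNReal.div_le_of_le_mul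
          calc _ = (U x * (‖x‖ₑ⁻¹) ^ M) ^ r * 1 := (mul_one _).symm
            _ ≤ _ := by
              gcongr
              rw [ENNReal.one_le_ofReal]
              exact hr1.le
    _ = (∫⁻ x in ball (0 : E n) (min δ R), V x ^ q) +
        ∫⁻ x in ball (0 : E n) (min δ R), (U x * (‖x‖ₑ⁻¹) ^ M) ^ r :=
        lintegral_add_left (hV.pow_const q) _
    _ < ∞ := by
        apply ENNReal.add_lt_top.mpr
        constructor
        · exact (lintegral_mono_set (ball_subset_ball (min_le_right _ _))).trans_lt hVi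
        · exact (lintegral_mono_set (ball_subset_ball (min_le_left _ _))).trans_lt hδ

end Pool.Agent.V1191.UC
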