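import Pool.Agent.V1191.UC.Ineq
import Pool.Agent.V1191.UC.OneD
import Pool.Agent.V1191.UC.Van

/-!
# Disintegration along complex lines, and the local unique continuation theorem
-/

set_option autoImplicit false

open MeasureTheory Filter Topology Metric Set
open scoped ENNReal NNReal

noncomputable section

namespace Pool.Agent.V1191.UC

variable {n : ℕ}

def Ann (n : ℕ) : Set (E n) := {z : E n | 1 < ‖z‖ ∧ ‖z‖ < 2}

theorem Ann_meas : MeasurableSet (Ann n) :=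
  (measurableSet_lt measurable_const measurable_norm).inter
    (measurableSet_lt measurable_norm measurable_const)

def wt (y : E n) : ℝ≥0∞ :=
  ∫⁻ ζ : ℂ, (Ann n).indicator (fun _ => 1) (ζ⁻¹ • y) * (‖ζ‖ₑ⁻¹) ^ (2 * n)

theorem wt_meas2 : Measurable fun p : ℂ × E n =>
    (Ann n).indicator (fun _ => (1 : ℝ≥0∞)) (p.1⁻¹ • p.2) * (‖p.1‖ₑ⁻¹) ^ (2 * n) := by
  have hinvsmul : Measurable fun p : ℂ × E n => p.1⁻¹ • p.2 :=
    (measurable_fst.inv).smul measurable_snd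
  exact ((measurable_const.indicator Ann_meas).comp hinvsmul).mul
    ((inv_enorm_meas.comp measurable_fst).pow_const _)

theorem wt_meas1 (y : E n) : Measurable fun ζ : ℂ =>
    (Ann n).indicator (fun _ => (1 : ℝ≥0∞)) (ζ⁻¹ • y) * (‖ζ‖ₑ⁻¹) ^ (2 * n) := by
  have hinvsmul : Measurable fun ζ : ℂ => ζ⁻¹ • y := measurable_inv.smul measurable_const
  have h1 : Measurable fun ζ : ℂ => (Ann n).indicator (fun _ => (1 : ℝ≥0∞)) (ζ⁻¹ • y) :=
    (measurable_const.indicator Ann_meas).comp hinvsmul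
  exact h1.mul (inv_enorm_meas.pow_const _)

theorem wt_meas : Measurable (wt (n := n)) := by
  unfold wt
  exact wt_meas2.lintegral_prod_left'

theorem ne_zeroC : ∀ᵐ ξ : ℂ, ξ ≠ 0 := by simp [ae_iff, measure_singleton]

theorem fiber {H : E n → ℝ≥0∞} (hH : Measurable H) :
    ∫⁻ z in Ann n, ∫⁻ ζ : ℂ, H (ζ • z) = ∫⁻ y, H y * wt y := by
  have hsm : Measurable fun p : E n × ℂ => H (p.2 • p.1) := hH.comp smul_meas
  rw [lintegral_lintegral_swap hsm.aemeasurable]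
  have s2 : ∀ ζ : ℂ, ζ ≠ 0 → ∫⁻ z in Ann n, H (ζ • z)
      = ∫⁻ y, H y * ((Ann n).indicator (fun _ => 1) (ζ⁻¹ • y) * (‖ζ‖ₑ⁻¹) ^ (2 * n)) := by
    intro ζ hζ
    set Q : E n → ℝ≥0∞ := fun y => (Ann n).indicator (fun _ => 1) (ζ⁻¹ • y) * H y with hQ
    have hQ1 : Measurable fun y : E n => (Ann n).indicator (fun _ => (1 : ℝ≥0∞)) (ζ⁻¹ • y) :=
      (measurable_const.indicator Ann_meas).comp (measurable_const_smul ζ⁻¹)
    have hQm : Measurable Q := hQ1.mul hH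
    have e1 : ∫⁻ z in Ann n, H (ζ • z) = ∫⁻ z, Q (ζ • z) := by
      rw [← lintegral_indicator Ann_meas]
      apply lintegral_congr
      intro z
      rw [hQ]
      simp only
      rw [inv_smul_smul₀ hζ]
      by_cases hz : z ∈ Ann n
      · rw [indicator_of_mem hz, indicator_of_mem hz, one_mul]
      · rw [indicator_of_notMem hz, indicator_of_notMem hz, zero_mul]
    rw [e1, lintegral_smulE hζ hQm, ← lintegral_const_mul _ hQm]
    apply lintegral_congr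
    intro y
    rw [hQ]
    simp only
    ring
  have s3 : ∫⁻ ζ : ℂ, ∫⁻ z in Ann n, H (ζ • z)
      = ∫⁻ ζ : ℂ, ∫⁻ y, H y * ((Ann n).indicator (fun _ => 1) (ζ⁻¹ • y) * (‖ζ‖ₑ⁻¹) ^ (2 * n)) := by
    apply lintegral_congr_ae
    filter_upwards [ne_zeroC] with ζ hζ using s2 ζ hζ
  have hm3 : Measurable fun p : ℂ × E n => H p.2 *
      ((Ann n).indicator (fun _ => (1 : ℝ≥0∞)) (p.1⁻¹ • p.2) * (‖p.1‖ₑ⁻¹) ^ (2 * n)) :=
    (hH.comp measurable_snd).mul wt_meas2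
  rw [s3, lintegral_lintegral_swap hm3.aemeasurable]
  apply lintegral_congr
  intro y
  unfold wt
  rw [lintegral_const_mul _ (wt_meas1 y)]

theorem wt_le (y : E n) (hy : y ≠ 0) :
    wt y ≤ (2 ^ (2 * n) * NNReal.pi) * ((‖y‖ₑ⁻¹) ^ (2 * n) * ‖y‖ₑ ^ 2) := by
  have hyp : 0 < ‖y‖ := norm_pos_iff.mpr hy
  have h2 : (ENNReal.ofReal 2) = 2 := by norm_num
  calc wt y ≤ ∫⁻ ζ in ball (0 : ℂ) ‖y‖, (2 * ‖y‖ₑ⁻¹) ^ (2 * n) := by
        unfold wt
        rw [← lintegral_indicator measurableSet_ball]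
        apply lintegral_mono_ae
        filter_upwards [ne_zeroC] with ζ hζ
        have hζp : 0 < ‖ζ‖ := norm_pos_iff.mpr hζ
        by_cases hm : ζ⁻¹ • y ∈ Ann n
        · rw [indicator_of_mem hm, one_mul]
          unfold Ann at hm
          simp only [mem_ofPred_eq, norm_smul, norm_inv] at hm
          obtain ⟨i1, i2⟩ := hm
          rw [inv_mul_eq_div, lt_div_iff₀ hζp, one_mul] at i1
          rw [inv_mul_eq_div, div_lt_iff₀ hζp] at i2
          have hb : ζ ∈ ball (0 : ℂ) ‖y‖ := by simpa using i1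
          rw [indicator_of_mem hb]
          gcongr
          have i3 : ‖ζ‖⁻¹ ≤ 2 * ‖y‖⁻¹ := by
            rw [← div_eq_mul_inv, le_div_iff₀ hyp, inv_mul_le_iff₀ hζp]
            linarith
          calc ‖ζ‖ₑ⁻¹ = ENNReal.ofReal (‖ζ‖⁻¹) := by
                rw [ENNReal.ofReal_inv_of_pos hζp, ofReal_norm]
            _ ≤ ENNReal.ofReal (2 * ‖y‖⁻¹) := ENNReal.ofReal_le_ofReal i3
            _ = ENNReal.ofReal 2 * ENNReal.ofReal (‖y‖⁻¹) := ENNReal.ofReal_mul (by norm_num)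
            _ = 2 * ‖y‖ₑ⁻¹ := by rw [h2, ENNReal.ofReal_inv_of_pos hyp, ofReal_norm]
        · rw [indicator_of_notMem hm, zero_mul]
          exact zero_le
    _ = (2 * ‖y‖ₑ⁻¹) ^ (2 * n) * (‖y‖ₑ ^ 2 * NNReal.pi) := by
        rw [setLIntegral_const, Complex.volume_ball, ofReal_norm]
    _ = _ := by rw [mul_pow]; ring

theorem wt_ne_zero (y : E n) (hy : y ≠ 0) : wt y ≠ 0 := by
  have hyp : 0 < ‖y‖ := norm_pos_iff.mpr hy
  intro h
  unfold wt at h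
  rw [lintegral_eq_zero_iff (wt_meas1 y)] at h
  have hopen : IsOpen {ζ : ℂ | ‖y‖ / 2 < ‖ζ‖ ∧ ‖ζ‖ < ‖y‖} :=
    (isOpen_lt continuous_const continuous_norm).inter (isOpen_lt continuous_norm continuous_const)
  have hne : ({ζ : ℂ | ‖y‖ / 2 < ‖ζ‖ ∧ ‖ζ‖ < ‖y‖}).Nonempty := by
    refine ⟨((3 / 4 * ‖y‖ : ℝ) : ℂ), ?_⟩
    simp only [mem_ofPred_eq, Complex.norm_real]
    rw [Real.norm_of_nonneg (by positivity)]
    constructor <;> linarith
  have hpos := hopen.measure_pos volume hne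
  apply hpos.ne'
  refine measure_mono_null ?_ h
  intro ζ hζ
  obtain ⟨i1, i2⟩ := hζ
  have hζp : 0 < ‖ζ‖ := by linarith
  have hm : ζ⁻¹ • y ∈ Ann n := by
    unfold Ann
    simp only [mem_ofPred_eq, norm_smul, norm_inv]
    rw [inv_mul_eq_div, lt_div_iff₀ hζp, one_mul, div_lt_iff₀ hζp]
    exact ⟨i2, by linarith⟩
  change ¬ ((Ann n).indicator (fun _ => (1 : ℝ≥0∞)) (ζ⁻¹ • y) * (‖ζ‖ₑ⁻¹) ^ (2 * n) = 0)
  rw [indicator_of_mem hm, one_mul]
  exact pow_ne_zero _ (ENNReal.inv_ne_zero.mpr enorm_ne_top)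

/-- a null set is null on almost every line -/
theorem fiber_null {S : Set (E n)} (hS : MeasurableSet S) (h0 : volume S = 0) :
    ∀ᵐ z : E n, z ∈ Ann n → ∀ᵐ ζ : ℂ, ζ • z ∉ S := by
  have h1 : ∫⁻ z in Ann n, ∫⁻ ζ : ℂ, S.indicator (fun _ => (1 : ℝ≥0∞)) (ζ • z) = 0 := by
    rw [fiber (measurable_const.indicator hS)]
    have : ∀ y, S.indicator (fun _ => (1 : ℝ≥0∞)) y * wt y = S.indicator (fun y => wt y) y := by
      intro y
      by_cases hy : y ∈ S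
      · rw [indicator_of_mem hy, indicator_of_mem hy, one_mul]
      · rw [indicator_of_notMem hy, indicator_of_notMem hy, zero_mul]
    simp_rw [this]
    rw [lintegral_indicator hS]
    exact setLIntegral_measure_zero _ _ h0
  have hm : Measurable fun p : E n × ℂ => S.indicator (fun _ => (1 : ℝ≥0∞)) (p.2 • p.1) :=
    (measurable_const.indicator hS).comp smul_meas
  rw [lintegral_eq_zero_iff hm.lintegral_prod_right', EventuallyEq, ae_restrict_iff' Ann_meas] at h1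
  filter_upwards [h1] with z hz hzA
  have h2 := hz hzA
  simp only [Pi.zero_apply] at h2
  have hsz : Measurable fun ζ : ℂ => ζ • z := (continuous_id.smul continuous_const).measurable
  have hm1 : Measurable fun ζ : ℂ => S.indicator (fun _ => (1 : ℝ≥0∞)) (ζ • z) :=
    (measurable_const.indicator hS).comp hsz
  rw [lintegral_eq_zero_iff hm1] at h2
  filter_upwards [h2] with ζ hζ
  intro hmem
  simp [hmem] at hζ

/-- finiteness on almost every line -/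
theorem fiber_fin {H : E n → ℝ≥0∞} (hH : Measurable H) (hf : ∫⁻ y, H y * wt y < ∞) :
    ∀ᵐ z : E n, z ∈ Ann n → ∫⁻ ζ : ℂ, H (ζ • z) < ∞ := by
  rw [← fiber hH] at hf
  have hm : Measurable fun z : E n => ∫⁻ ζ : ℂ, H (ζ • z) := by
    have hm : Measurable fun p : E n × ℂ => H (p.2 • p.1) := hH.comp smul_meas
    exact hm.lintegral_prod_right'
  exact (ae_restrict_iff' Ann_meas).mp (ae_lt_top hm hf.ne)

/-- the operator `T` on a line -/
theorem T_line (N : ℕ) {F : E n → ℝ≥0∞} (hF : Measurable F) (z : E n) {ξ : ℂ} (hξ : ξ ≠ 0) :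
    T N F (ξ • z) = ‖ξ‖ₑ ^ N * ∫⁻ ζ : ℂ, (‖z‖ₑ * F (ζ • z)) * (‖ζ‖ₑ⁻¹) ^ N * ‖ξ - ζ‖ₑ⁻¹ := by
  set Q : ℂ → ℝ≥0∞ := fun ζ => (‖z‖ₑ * F (ζ • z)) * (‖ζ‖ₑ⁻¹) ^ N * ‖ξ - ζ‖ₑ⁻¹ with hQ
  have hsz : Measurable fun ζ : ℂ => ζ • z := (continuous_id.smul continuous_const).measurable
  have hQm : Measurable Q :=
    (((hF.comp hsz).const_mul _).mul (inv_enorm_meas.pow_const _)).mul
      ((measurable_const.sub measurable_id).enorm.inv)
  have h1 := lintegral_mulC hξ hQm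
  have hξe : ‖ξ‖ₑ ≠ 0 := by simpa using hξ
  have hcan : ‖ξ‖ₑ * ‖ξ‖ₑ⁻¹ = 1 := ENNReal.mul_inv_cancel hξe enorm_ne_top
  have h2 : T N F (ξ • z) = ‖ξ‖ₑ ^ (N + 2) * ∫⁻ η : ℂ, Q (ξ * η) := by
    unfold T
    have hQξ : Measurable fun η : ℂ => Q (ξ * η) := hQm.comp (measurable_const_mul ξ)
    rw [← lintegral_const_mul _ hQξ]
    apply lintegral_congr_ae
    filter_upwards [ne_zeroC] with η hη
    rw [hQ]
    simp only
    have e1 : ξ - ξ * η = ξ * (1 - η) := by ring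
    rw [e1, enorm_mul, enorm_mul, enorm_smul, smul_smul, mul_comm η ξ]
    rw [ENNReal.mul_inv (Or.inl hξe) (Or.inl enorm_ne_top),
      ENNReal.mul_inv (Or.inl hξe) (Or.inl enorm_ne_top), mul_pow]
    calc ‖ξ‖ₑ * ‖z‖ₑ * F ((ξ * η) • z) * ‖η‖ₑ⁻¹ ^ N * ‖1 - η‖ₑ⁻¹
        = (‖ξ‖ₑ * ‖ξ‖ₑ⁻¹) ^ (N + 1) *
          (‖ξ‖ₑ * ‖z‖ₑ * F ((ξ * η) • z) * ‖η‖ₑ⁻¹ ^ N * ‖1 - η‖ₑ⁻¹) := by
          rw [hcan, one_pow, one_mul]
      _ = _ := by
          rw [mul_pow, pow_succ ‖ξ‖ₑ⁻¹]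
          ring
  rw [h2, h1, pow_add]
  calc ‖ξ‖ₑ ^ N * ‖ξ‖ₑ ^ 2 * (‖ξ‖ₑ⁻¹ ^ 2 * ∫⁻ y, Q y)
      = ‖ξ‖ₑ ^ N * (‖ξ‖ₑ * ‖ξ‖ₑ⁻¹) ^ 2 * ∫⁻ y, Q y := by
        rw [mul_pow]
        ring
    _ = _ := by rw [hcan, one_pow, mul_one]

end Pool.Agent.V1191.UC
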