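import Pool.Agent.V1191.UC.Cut

/-!
# The line inequality on a ball
-/

set_option autoImplicit false

open MeasureTheory Filter Topology Metric Set
open scoped ENNReal NNReal

noncomputable section

namespace Pool.Agent.V1191.UC

variable {n : ℕ} {G : Type*} [NormedAddCommGroup G] [NormedSpace ℂ G] [NormedSpace ℝ G]
  [IsScalarTower ℝ ℂ G] [CompleteSpace G] [MeasurableSpace G] [BorelSpace G]
  [SecondCountableTopology G]

/-- the right-hand side on the ball -/
def Fu (R r1 : ℝ) (C : ℝ≥0∞) (u : E n → G) (f : Fin n → E n → G) (x : E n) : ℝ≥0∞ :=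
  (ball (0 : E n) R).indicator
    (fun x => (∑ j, ‖f j x‖ₑ) + C * (ball (0 : E n) r1)ᶜ.indicator (fun x => ‖u x‖ₑ) x) x

omit [NormedSpace ℂ G] [NormedSpace ℝ G] [IsScalarTower ℝ ℂ G] [CompleteSpace G]
  [SecondCountableTopology G] in
theorem Fu_meas (R r1 : ℝ) (C : ℝ≥0∞) {u : E n → G} {f : Fin n → E n → G} (hum : Measurable u)
    (hfm : ∀ j, Measurable (f j)) : Measurable (Fu R r1 C u f) := by
  unfold Fu
  apply Measurable.indicator _ measurableSet_ball
  apply Measurable.add
  · exact Finset.measurable_fun_sum _ fun j _ => (hfm j).enorm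
  · exact (hum.enorm.indicator measurableSet_ball.compl).const_mul C

theorem ineq_l {u : E n → G} {f : Fin n → E n → G} (hum : Measurable u)
    (hfm : ∀ j, Measurable (f j)) {R r1 r2 : ℝ} (h1 : 0 < r1) (h2 : r1 < r2) (h3 : r2 < R)
    (hu : IntegrableOn u (ball (0 : E n) R)) (hf : ∀ j, IntegrableOn (f j) (ball (0 : E n) R))
    (hw : ∀ j, ∀ ψ : E n → ℂ, ContDiff ℝ ((⊤ : ℕ∞) : WithTop ℕ∞) ψ → HasCompactSupport ψ →
      tsupport ψ ⊆ ball 0 R → ∫ x, db ψ x (ev j) • u x = -∫ x, ψ x • f j x)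
    {C0 : ℝ} (hC0 : 0 ≤ C0) (hC : ∀ x : E n, ‖fderiv ℝ (X n h1 h2) x‖ ≤ C0) {l : ℝ} (hl : 0 < l)
    (N : ℕ) :
    ∀ᵐ y : E n, y ≠ 0 → ‖Th n h1 h2 l y • u y‖ₑ ≤ T N (Fu R r1 (n * ENNReal.ofReal C0) u f) y +
      T N ((closedBall (0 : E n) (r2 / l)).indicator fun x => n * ENNReal.ofReal (C0 * l) * ‖u x‖ₑ) y := by
  have hTh := Th_smooth (n := n) h1 h2 l
  have hTh1 : ContDiff ℝ 1 (Th n h1 h2 l) := hTh.of_le (by exact_mod_cast le_top)
  have hThc : HasCompactSupport (Th n h1 h2 l) := Th_supp h1 h2 l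
  have hTs : tsupport (Th n h1 h2 l) ⊆ ball (0 : E n) R := by
    have : tsupport (Th n h1 h2 l) ⊆ closedBall (0 : E n) r2 := by
      apply closure_minimal _ isClosed_closedBall
      intro x hx
      by_contra hcon
      apply hx
      apply Th_zero_out
      rw [mem_closedBall_zero_iff, not_le] at hcon
      exact hcon.le
    exact this.trans (closedBall_subset_ball h3)
  have hT0 : ∀ x, x ∉ ball (0 : E n) R → Th n h1 h2 l x = 0 := fun x hx =>
    image_eq_zero_of_notMem_tsupport fun h => hx (hTs h)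
  have hdT0 : ∀ j x, x ∉ ball (0 : E n) R → db (Th n h1 h2 l) x (ev j) = 0 := fun j x hx =>
    db_zero_of_nhds (c := 0) (notMem_tsupport_iff_eventuallyEq.mp fun h => hx (hTs h)) _
  have hdTm : ∀ j, Measurable fun x => db (Th n h1 h2 l) x (ev j) := fun j =>
    (db_cont hTh1 _).measurable
  set v : E n → G := fun x => Th n h1 h2 l x • u x with hv
  set h : Fin n → E n → G := fun j x => Th n h1 h2 l x • f j x + db (Th n h1 h2 l) x (ev j) • u x with hh
  have hvi : Integrable v := int_smul hTh1.continuous hThc hT0 hu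
  have hhi : ∀ j, Integrable (h j) := by
    intro j
    apply Integrable.add
    · exact int_smul hTh1.continuous hThc hT0 (hf j)
    · exact int_smul (db_cont hTh1 _) (db_supp hThc _) (hdT0 j) hu
  have hvm : Measurable v := hTh1.continuous.measurable.smul hum
  have hhm : ∀ j, Measurable (h j) := fun j =>
    (hTh1.continuous.measurable.smul (hfm j)).add ((hdTm j).smul hum)
  have hr : 0 < r1 / l := by positivity
  have hz : ∀ x : E n, ‖x‖ < r1 / l ∨ r2 < ‖x‖ → Th n h1 h2 l x = 0 := by
    intro x hx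
    rcases hx with hx | hx
    · exact Th_zero_in h1 h2 hl hx.le
    · exact Th_zero_out h1 h2 hx.le
  have hdz : ∀ (j : Fin n) (x : E n), ‖x‖ < r1 / l ∨ r2 < ‖x‖ → db (Th n h1 h2 l) x (ev j) = 0 := by
    intro j x hx
    apply db_zero_of_nhds (c := 0)
    rcases hx with hx | hx
    · filter_upwards [(isOpen_lt continuous_norm continuous_const).mem_nhds hx] with z hz'
      exact hz z (Or.inl hz')
    · filter_upwards [(isOpen_lt continuous_const continuous_norm).mem_nhds hx] with z hz'
      exact hz z (Or.inr hz')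
  have hline := line_ineq hvi hvm hhi hhm
    (fun j ψ hψ hψc => weak_mul hu hf hw hTh hThc hTs j ψ hψ hψc) hr
    (fun x hx => by rw [hv]; simp only; rw [hz x hx, zero_smul])
    (fun j x hx => by rw [hh]; simp only; rw [hz x hx, hdz j x hx, zero_smul, zero_smul, add_zero]) N
  filter_upwards [hline] with y hy hy0
  refine (hy hy0).trans ?_
  rw [← T_add N (Fu_meas R r1 _ hum hfm)]
  apply T_mono
  intro x
  by_cases hx : x ∈ ball (0 : E n) R
  · unfold Fu
    rw [indicator_of_mem hx]
    have hj : ∀ j, ‖h j x‖ₑ ≤ ‖f j x‖ₑ + ((if r1 ≤ ‖x‖ then ENNReal.ofReal C0 else 0) +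
        (if ‖x‖ ≤ r2 / l then ENNReal.ofReal (C0 * l) else 0)) * ‖u x‖ₑ := by
      intro j
      refine (enorm_add_le _ _).trans (add_le_add ?_ ?_)
      · rw [enorm_smul]
        calc _ ≤ 1 * ‖f j x‖ₑ := by
              gcongr
              rw [← ofReal_norm, ← ENNReal.ofReal_one]
              exact ENNReal.ofReal_le_ofReal (Th_le h1 h2 l x)
          _ = _ := one_mul _
      · rw [enorm_smul]
        gcongr
        exact Th_db h1 h2 hC0 hC hl x j
    refine (Finset.sum_le_sum fun j _ => hj j).trans ?_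
    rw [Finset.sum_add_distrib, Finset.sum_const, Finset.card_univ, Fintype.card_fin, nsmul_eq_mul,
      add_assoc]
    gcongr
    have e1 : (if r1 ≤ ‖x‖ then ENNReal.ofReal C0 else 0) * ‖u x‖ₑ
        = ENNReal.ofReal C0 * (ball (0 : E n) r1)ᶜ.indicator (fun x => ‖u x‖ₑ) x := by
      by_cases hc : r1 ≤ ‖x‖
      · have hc' : x ∈ (ball (0 : E n) r1)ᶜ := by simpa using hc
        rw [if_pos hc, indicator_of_mem hc']
      · have hc' : x ∉ (ball (0 : E n) r1)ᶜ := by simpa using hc
        rw [if_neg hc, indicator_of_notMem hc', zero_mul, mul_zero]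
    have e2 : n * ((if ‖x‖ ≤ r2 / l then ENNReal.ofReal (C0 * l) else 0) * ‖u x‖ₑ)
        = (closedBall (0 : E n) (r2 / l)).indicator
          (fun x => n * ENNReal.ofReal (C0 * l) * ‖u x‖ₑ) x := by
      by_cases hc : ‖x‖ ≤ r2 / l
      · have hc' : x ∈ closedBall (0 : E n) (r2 / l) := by simpa using hc
        rw [if_pos hc, indicator_of_mem hc', mul_assoc]
      · have hc' : x ∉ closedBall (0 : E n) (r2 / l) := by simpa using hc
        rw [if_neg hc, indicator_of_notMem hc', zero_mul, mul_zero]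
    rw [add_mul, mul_add, e1, e2, mul_assoc]
  · have : ∀ j, h j x = 0 := by
      intro j
      rw [hh]
      simp only
      rw [hT0 x hx, hdT0 j x hx, zero_smul, zero_smul, add_zero]
    simp_rw [this, enorm_zero, Finset.sum_const_zero]
    exact zero_le

theorem ineq {u : E n → G} {f : Fin n → E n → G} (hum : Measurable u)
    (hfm : ∀ j, Measurable (f j)) {R r1 r2 : ℝ} (h1 : 0 < r1) (h2 : r1 < r2) (h3 : r2 < R)
    (hu : IntegrableOn u (ball (0 : E n) R)) (hf : ∀ j, IntegrableOn (f j) (ball (0 : E n) R))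
    (hw : ∀ j, ∀ ψ : E n → ℂ, ContDiff ℝ ((⊤ : ℕ∞) : WithTop ℕ∞) ψ → HasCompactSupport ψ →
      tsupport ψ ⊆ ball 0 R → ∫ x, db ψ x (ev j) • u x = -∫ x, ψ x • f j x)
    (hV : ∀ M : ℕ, ∃ δ : ℝ, 0 < δ ∧ ∫⁻ x in ball (0 : E n) δ, ‖u x‖ₑ * (‖x‖ₑ⁻¹) ^ M < ∞) :
    ∃ C : ℝ≥0∞, C ≠ ∞ ∧ ∀ N : ℕ, ∀ᵐ y : E n, y ≠ 0 → ‖y‖ < r1 →
      ‖u y‖ₑ ≤ T N (Fu R r1 C u f) y := by
  obtain ⟨C0, hC0, hC⟩ := exists_dX (n := n) h1 h2
  refine ⟨n * ENNReal.ofReal C0, ENNReal.mul_ne_top (ENNReal.natCast_ne_top n)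
    ENNReal.ofReal_ne_top, fun N => ?_⟩
  set w : E n → G := (ball (0 : E n) r1).indicator u with hwdef
  have hwm : Measurable w := hum.indicator measurableSet_ball
  set K := T N (Fu R r1 (n * ENNReal.ofReal C0) u f) with hK
  have key : ∀ᵐ y : E n, y ≠ 0 → ‖w y‖ₑ ≤ K y := by
    apply ae_le_of_annuli hwm
    intro c d hc hcd s hs
    set A : Set (E n) := {y : E n | c < ‖y‖ ∧ ‖y‖ < d} with hA
    have hAm : MeasurableSet A :=
      (measurableSet_lt measurable_const measurable_norm).inter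
        (measurableSet_lt measurable_norm measurable_const)
    obtain ⟨C', hC', hTb⟩ := T_bound (n := n) N (a := c) (b := d) (R := R) hc
    set M := N + 2 * n with hM
    obtain ⟨δ, hδ, hδf⟩ := hV (M + 2)
    set J := ∫⁻ x in ball (0 : E n) δ, ‖u x‖ₑ * (‖x‖ₑ⁻¹) ^ (M + 2) with hJ
    set K1 : ℝ≥0∞ := C' * (n * ENNReal.ofReal C0 * ENNReal.ofReal r2 ^ 2 * J) with hK1
    have hK1f : K1 ≠ ∞ := by
      apply ENNReal.mul_ne_top hC'
      apply ENNReal.mul_ne_top _ hδf.ne
      apply ENNReal.mul_ne_top _ (ENNReal.pow_ne_top ENNReal.ofReal_ne_top)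
      exact ENNReal.mul_ne_top (ENNReal.natCast_ne_top n) ENNReal.ofReal_ne_top
    have hr2 : 0 < r2 := h1.trans h2
    have hmain : ∀ᶠ l : ℝ in atTop, ∫⁻ x in s ∩ A, ‖w x‖ₑ ≤
        (∫⁻ x in s ∩ A, K x) + ENNReal.ofReal (l⁻¹) * K1 := by
      filter_upwards [eventually_gt_atTop (0 : ℝ), eventually_gt_atTop (r2 / c),
        eventually_gt_atTop (r2 / δ), eventually_gt_atTop (r2 / R)] with l hl hlc hlδ hlR
      set Rl : E n → ℝ≥0∞ := (closedBall (0 : E n) (r2 / l)).indicator
        fun x => n * ENNReal.ofReal (C0 * l) * ‖u x‖ₑ with hRl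
      have hRlm : Measurable Rl := (hum.enorm.const_mul _).indicator measurableSet_closedBall
      have hline := ineq_l hum hfm h1 h2 h3 hu hf hw hC0 hC hl N
      have s1 : ∫⁻ x in s ∩ A, ‖w x‖ₑ ≤ ∫⁻ x in s ∩ A, (K x + T N Rl x) := by
        apply lintegral_mono_ae
        rw [ae_restrict_iff' (hs.inter hAm)]
        filter_upwards [hline] with x hx hxA
        have hxA' : c < ‖x‖ ∧ ‖x‖ < d := hxA.2
        have hx0 : x ≠ 0 := norm_pos_iff.mp (hc.trans hxA'.1)
        refine le_trans ?_ (hx hx0)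
        by_cases hxr : x ∈ ball (0 : E n) r1
        · rw [hwdef, indicator_of_mem hxr, Th_one h1 h2 hl, one_smul]
          · rw [div_lt_iff₀ hc] at hlc
            rw [div_le_iff₀ hl]
            nlinarith [hxA'.1]
          · exact (mem_ball_zero_iff.mp hxr).le
        · rw [hwdef, indicator_of_notMem hxr, enorm_zero]
          exact zero_le
      have s2 : ∫⁻ x in s ∩ A, (K x + T N Rl x) = (∫⁻ x in s ∩ A, K x) + ∫⁻ x in s ∩ A, T N Rl x :=
        lintegral_add_right _ (T_meas N hRlm)
      have s3 : ∫⁻ x in s ∩ A, T N Rl x ≤ ENNReal.ofReal (l⁻¹) * K1 := by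
        refine (lintegral_mono_set inter_subset_right).trans ((hTb Rl hRlm ?_).trans ?_)
        · intro x hx
          rw [hRl, indicator_of_notMem]
          rw [mem_closedBall_zero_iff, not_le]
          rw [div_lt_iff₀ (h1.trans (h2.trans h3))] at hlR
          rw [div_lt_iff₀ hl]
          nlinarith
        · have hb : ∫⁻ x, Rl x * (‖x‖ₑ⁻¹) ^ (N + 2 * n) ≤
              ENNReal.ofReal (l⁻¹) * (n * ENNReal.ofReal C0 * ENNReal.ofReal r2 ^ 2 * J) := by
            rw [hJ, ← lintegral_indicator measurableSet_ball]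
            have hm1 : Measurable fun x : E n => (ball (0 : E n) δ).indicator
                (fun x => ‖u x‖ₑ * (‖x‖ₑ⁻¹) ^ (M + 2)) x :=
              (hum.enorm.mul (inv_enorm_measE.pow_const _)).indicator measurableSet_ball
            rw [← lintegral_const_mul _ hm1, ← lintegral_const_mul _ (hm1.const_mul _)]
            apply lintegral_mono
            intro x
            beta_reduce
            by_cases hx : x ∈ closedBall (0 : E n) (r2 / l)
            · have hx' : ‖x‖ ≤ r2 / l := by simpa using hx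
              have hxb : x ∈ ball (0 : E n) δ := by
                rw [mem_ball_zero_iff]
                refine lt_of_le_of_lt hx' ?_
                rw [div_lt_iff₀ hδ] at hlδ
                rw [div_lt_iff₀ hl]
                linarith
              rw [hRl, indicator_of_mem hx, indicator_of_mem hxb]
              have hle : ENNReal.ofReal l ≤ ENNReal.ofReal r2 * ‖x‖ₑ⁻¹ := by
                rcases eq_or_ne x 0 with rfl | hx0
                · simp [hr2]
                · have hxp : 0 < ‖x‖ := norm_pos_iff.mpr hx0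
                  rw [← ofReal_norm, ← ENNReal.ofReal_inv_of_pos hxp, ← ENNReal.ofReal_mul hr2.le]
                  apply ENNReal.ofReal_le_ofReal
                  rw [← div_eq_mul_inv, le_div_iff₀ hxp]
                  rw [le_div_iff₀ hl] at hx'
                  linarith
              have hll : ENNReal.ofReal (C0 * l) = ENNReal.ofReal C0 *
                  (ENNReal.ofReal (l⁻¹) * ENNReal.ofReal l ^ 2) := by
                rw [← ENNReal.ofReal_pow hl.le, ← ENNReal.ofReal_mul (by positivity),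
                  ← ENNReal.ofReal_mul hC0]
                congr 1
                field_simp
              rw [hll]
              calc n * (ENNReal.ofReal C0 * (ENNReal.ofReal l⁻¹ * ENNReal.ofReal l ^ 2)) * ‖u x‖ₑ *
                    ‖x‖ₑ⁻¹ ^ (N + 2 * n)
                  ≤ n * (ENNReal.ofReal C0 * (ENNReal.ofReal l⁻¹ *
                    (ENNReal.ofReal r2 * ‖x‖ₑ⁻¹) ^ 2)) * ‖u x‖ₑ * ‖x‖ₑ⁻¹ ^ (N + 2 * n) := by
                    gcongr
                _ = _ := by
                    rw [hM, mul_pow]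
                    ring
            · rw [hRl, indicator_of_notMem hx, zero_mul]
              exact zero_le
          calc C' * ∫⁻ x, Rl x * (‖x‖ₑ⁻¹) ^ (N + 2 * n)
              ≤ C' * (ENNReal.ofReal (l⁻¹) * (n * ENNReal.ofReal C0 * ENNReal.ofReal r2 ^ 2 * J)) := by
                gcongr
            _ = _ := by rw [hK1]; ring
      calc _ ≤ _ := s1
        _ = _ := s2
        _ ≤ _ := by gcongr
    have hlim : Tendsto (fun l : ℝ => (∫⁻ x in s ∩ A, K x) + ENNReal.ofReal (l⁻¹) * K1) atTop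
        (𝓝 ((∫⁻ x in s ∩ A, K x) + 0 * K1)) := by
      apply Tendsto.const_add
      apply ENNReal.Tendsto.mul_const _ (Or.inr hK1f)
      have := ENNReal.tendsto_ofReal tendsto_inv_atTop_zero
      rwa [ENNReal.ofReal_zero] at this
    rw [zero_mul, add_zero] at hlim
    exact ge_of_tendsto hlim hmain
  filter_upwards [key] with y hy hy0 hyr
  have := hy hy0
  rwa [hwdef, indicator_of_mem (show y ∈ ball (0 : E n) r1 by simpa using hyr)] at this

end Pool.Agent.V1191.UC
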