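import Pool.Agent.V1191.UC.Moll

/-!
# The line inequality for weak derivatives
-/

set_option autoImplicit false

open MeasureTheory Filter Topology Metric Set
open scoped ENNReal NNReal

noncomputable section

namespace Pool.Agent.V1191.UC

variable {n : ℕ} {G : Type*} [NormedAddCommGroup G] [NormedSpace ℂ G] [NormedSpace ℝ G]
  [IsScalarTower ℝ ℂ G] [CompleteSpace G] [MeasurableSpace G] [BorelSpace G]
  [SecondCountableTopology G]

omit [NormedSpace ℂ G] [NormedSpace ℝ G] [IsScalarTower ℝ ℂ G] [CompleteSpace G] in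
theorem ae_le_of_annuli {v : E n → G} (hvm : Measurable v) {K : E n → ℝ≥0∞}
    (h : ∀ c d : ℝ, 0 < c → c < d → ∀ s, MeasurableSet s →
      ∫⁻ x in s ∩ {y : E n | c < ‖y‖ ∧ ‖y‖ < d}, ‖v x‖ₑ ≤
        ∫⁻ x in s ∩ {y : E n | c < ‖y‖ ∧ ‖y‖ < d}, K x) :
    ∀ᵐ y : E n, y ≠ 0 → ‖v y‖ₑ ≤ K y := by
  have hAm : ∀ c d : ℝ, MeasurableSet {y : E n | c < ‖y‖ ∧ ‖y‖ < d} := fun c d =>
    (measurableSet_lt measurable_const measurable_norm).inter
      (measurableSet_lt measurable_norm measurable_const)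
  have h1 : ∀ k : ℕ, ∀ᵐ y : E n, (1 / ((k : ℝ) + 1) < ‖y‖ ∧ ‖y‖ < (k : ℝ) + 2) → ‖v y‖ₑ ≤ K y := by
    intro k
    have hc : 0 < 1 / ((k : ℝ) + 1) := by positivity
    have hcd : 1 / ((k : ℝ) + 1) < (k : ℝ) + 2 := by
      rw [div_lt_iff₀ (by positivity)]
      nlinarith [(Nat.cast_nonneg k : (0 : ℝ) ≤ k)]
    have h2 : (fun y => ‖v y‖ₑ) ≤ᵐ[volume.restrict {y : E n | 1 / ((k : ℝ) + 1) < ‖y‖ ∧ ‖y‖ < (k : ℝ) + 2}] K := by
      apply ae_le_of_forall_setLIntegral_le_of_sigmaFinite hvm.enorm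
      intro s hs _
      rw [Measure.restrict_restrict hs]
      exact h _ _ hc hcd s hs
    exact (ae_restrict_iff' (hAm _ _)).mp h2
  have h3 := ae_all_iff.mpr h1
  filter_upwards [h3] with y hy hy0
  have hy' : 0 < ‖y‖ := norm_pos_iff.mpr hy0
  obtain ⟨k1, hk1⟩ := exists_nat_one_div_lt hy'
  obtain ⟨k2, hk2⟩ := exists_nat_gt ‖y‖
  apply hy (max k1 k2)
  constructor
  · refine lt_of_le_of_lt ?_ hk1
    have : (k1 : ℝ) ≤ (max k1 k2 : ℕ) := by exact_mod_cast le_max_left k1 k2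
    apply one_div_le_one_div_of_le (by positivity)
    linarith
  · have : (k2 : ℝ) ≤ (max k1 k2 : ℕ) := by exact_mod_cast le_max_right k1 k2
    linarith

theorem line_ineq {v : E n → G} {h : Fin n → E n → G} (hv : Integrable v) (hvm : Measurable v)
    (hh : ∀ j, Integrable (h j)) (hhm : ∀ j, Measurable (h j))
    (hw : ∀ j, ∀ ψ : E n → ℂ, ContDiff ℝ ((⊤ : ℕ∞) : WithTop ℕ∞) ψ → HasCompactSupport ψ →
      ∫ x, db ψ x (ev j) • v x = -∫ x, ψ x • h j x)
    {a0 b0 : ℝ} (ha : 0 < a0) (hvs : ∀ x, ‖x‖ < a0 ∨ b0 < ‖x‖ → v x = 0)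
    (hhs : ∀ j x, ‖x‖ < a0 ∨ b0 < ‖x‖ → h j x = 0) (N : ℕ) :
    ∀ᵐ y : E n, y ≠ 0 → ‖v y‖ₑ ≤ T N (fun x => ∑ j, ‖h j x‖ₑ) y := by
  have ha2 : 0 < a0 / 2 := by linarith
  set φ := bump n (a0 / 2) ha2 with hφ
  have hrout : ∀ k, (φ k).rOut ≤ a0 / 2 := by
    intro k
    change a0 / 2 / ((k : ℝ) + 1) ≤ a0 / 2
    apply div_le_self ha2.le
    linarith [(Nat.cast_nonneg k : (0 : ℝ) ≤ k)]
  -- vanishing of mollifications
  have hzero : ∀ (w : E n → G), (∀ x, ‖x‖ < a0 ∨ b0 < ‖x‖ → w x = 0) → ∀ k x,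
      ‖x‖ < a0 / 2 ∨ b0 + a0 ≤ ‖x‖ → moll (φ k) w x = 0 := by
    intro w hw0 k x hx
    apply moll_zero
    intro t ht
    apply hw0
    have h1 := hrout k
    rcases hx with hx | hx
    · left
      have := norm_sub_norm_le t x
      rw [norm_sub_rev] at this
      linarith
    · right
      have := norm_sub_norm_le x t
      linarith
  have hvk : ∀ k, ContDiff ℝ 1 (moll (φ k) v) := fun k => moll_contDiff _ hv
  have hvc : ∀ k, HasCompactSupport (moll (φ k) v) := by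
    intro k
    apply HasCompactSupport.intro (isCompact_closedBall (0 : E n) (b0 + a0))
    intro x hx
    apply hzero v hvs
    right
    rw [mem_closedBall_zero_iff, not_le] at hx
    exact hx.le
  have hv0 : ∀ k, (0 : E n) ∉ tsupport (moll (φ k) v) := by
    intro k
    rw [notMem_tsupport_iff_eventuallyEq]
    filter_upwards [ball_mem_nhds (0 : E n) ha2] with x hx
    apply hzero v hvs
    left
    simpa using hx
  set H : E n → ℝ≥0∞ := fun x => ∑ j, ‖h j x‖ₑ with hH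
  have hHm : Measurable H := Finset.measurable_fun_sum _ fun j _ => (hhm j).enorm
  set D : ℕ → E n → ℝ≥0∞ := fun k x => ∑ j, ‖moll (φ k) (h j) x - h j x‖ₑ with hD
  have hmollm : ∀ j k, Measurable (moll (φ k) (h j)) := by
    intro j k
    have : ContDiff ℝ 1 (moll (φ k) (h j)) := moll_contDiff _ (hh j)
    exact this.continuous.measurable
  have hDm : ∀ k, Measurable (D k) := fun k => Finset.measurable_fun_sum _ fun j _ =>
    ((hmollm j k).sub (hhm j)).enorm
  have hpt : ∀ k y, ‖moll (φ k) v y‖ₑ ≤ T N H y + T N (D k) y := by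
    intro k y
    refine (cp (hvk k) (hvc k) (hv0 k) N y).trans ?_
    rw [← T_add N hHm]
    apply T_mono
    intro x
    rw [hH, hD]
    simp only
    rw [← Finset.sum_add_distrib]
    apply Finset.sum_le_sum
    intro j _
    rw [moll_db (φ k) hv hw j x]
    calc ‖moll (φ k) (h j) x‖ₑ = ‖h j x + (moll (φ k) (h j) x - h j x)‖ₑ := by
          rw [add_sub_cancel]
      _ ≤ _ := enorm_add_le _ _
  apply ae_le_of_annuli hvm
  intro c d hc hcd s hs
  set A : Set (E n) := {y : E n | c < ‖y‖ ∧ ‖y‖ < d} with hA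
  have hAm : MeasurableSet A :=
    (measurableSet_lt measurable_const measurable_norm).inter
      (measurableSet_lt measurable_norm measurable_const)
  obtain ⟨C, hC, hTb⟩ := T_bound (n := n) N (a := c) (b := d) (R := b0 + a0) hc
  set M := N + 2 * n with hM
  set c2 : ℝ≥0∞ := ((ENNReal.ofReal (a0 / 2))⁻¹) ^ M with hc2
  have hc2f : c2 ≠ ∞ := by
    apply ENNReal.pow_ne_top
    rw [Ne, ENNReal.inv_eq_top]
    simpa using ha
  have hDz : ∀ k x, ‖x‖ < a0 / 2 ∨ b0 + a0 ≤ ‖x‖ → D k x = 0 := by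
    intro k x hx
    rw [hD]
    simp only
    apply Finset.sum_eq_zero
    intro j _
    rw [hzero (h j) (hhs j) k x hx, hhs j x, sub_zero, enorm_zero]
    rcases hx with hx | hx
    · left; linarith
    · right; linarith
  have hTD : ∀ k, ∫⁻ y in A, T N (D k) y ≤ C * c2 * ∫⁻ x, D k x := by
    intro k
    refine (hTb (D k) (hDm k) fun x hx => hDz k x (Or.inr hx)).trans ?_
    rw [mul_assoc]
    gcongr
    rw [← lintegral_const_mul _ (hDm k)]
    apply lintegral_mono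
    intro x
    beta_reduce
    by_cases hx : ‖x‖ < a0 / 2
    · rw [hDz k x (Or.inl hx)]
      simp
    · rw [not_lt] at hx
      rw [mul_comm]
      gcongr
      rw [hc2]
      gcongr
      rw [← ofReal_norm]
      exact ENNReal.ofReal_le_ofReal hx
  have hlimD : Tendsto (fun k => ∫⁻ x, D k x) atTop (𝓝 0) := by
    have h1 : ∀ k, ∫⁻ x, D k x = ∑ j, ∫⁻ x, ‖moll (φ k) (h j) x - h j x‖ₑ := by
      intro k
      rw [hD]
      simp only
      rw [lintegral_finsetSum]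
      intro j _
      exact ((hmollm j k).sub (hhm j)).enorm
    simp_rw [h1]
    have h2 := tendsto_finsetSum (Finset.univ : Finset (Fin n)) fun j _ =>
      moll_tendsto (hh j) (hhm j) ha2
    simpa using h2
  have hlim : Tendsto (fun k => (∫⁻ x in s ∩ A, T N H x) + (C * c2 * (∫⁻ x, D k x)
      + (∫⁻ x, ‖moll (φ k) v x - v x‖ₑ))) atTop (𝓝 ((∫⁻ x in s ∩ A, T N H x) + (C * c2 * 0 + 0))) := by
    apply Tendsto.const_add
    apply Tendsto.add
    · exact ENNReal.Tendsto.const_mul hlimD (Or.inr (ENNReal.mul_ne_top hC hc2f))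
    · exact moll_tendsto hv hvm ha2
  rw [mul_zero, add_zero, add_zero] at hlim
  refine ge_of_tendsto' hlim fun k => ?_
  have hmm : Measurable fun x => ‖moll (φ k) v x - v x‖ₑ :=
    ((hvk k).continuous.measurable.sub hvm).enorm
  calc ∫⁻ x in s ∩ A, ‖v x‖ₑ
      ≤ ∫⁻ x in s ∩ A, (‖moll (φ k) v x‖ₑ + ‖moll (φ k) v x - v x‖ₑ) := by
        apply lintegral_mono
        intro x
        beta_reduce
        calc ‖v x‖ₑ = ‖moll (φ k) v x - (moll (φ k) v x - v x)‖ₑ := by rw [sub_sub_cancel]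
          _ ≤ _ := enorm_sub_le
    _ = (∫⁻ x in s ∩ A, ‖moll (φ k) v x‖ₑ) + (∫⁻ x in s ∩ A, ‖moll (φ k) v x - v x‖ₑ) :=
        lintegral_add_right _ hmm
    _ ≤ (∫⁻ x in s ∩ A, (T N H x + T N (D k) x)) + (∫⁻ x, ‖moll (φ k) v x - v x‖ₑ) := by
        gcongr
        · exact hpt k _
        · exact Measure.restrict_le_self
    _ = ((∫⁻ x in s ∩ A, T N H x) + (∫⁻ x in s ∩ A, T N (D k) x))
          + (∫⁻ x, ‖moll (φ k) v x - v x‖ₑ) := by
        rw [lintegral_add_left (T_meas N hHm)]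
    _ ≤ ((∫⁻ x in s ∩ A, T N H x) + C * c2 * (∫⁻ x, D k x))
          + (∫⁻ x, ‖moll (φ k) v x - v x‖ₑ) := by
        gcongr
        exact (lintegral_mono_set inter_subset_right).trans (hTD k)
    _ = _ := by rw [add_assoc]

end Pool.Agent.V1191.UC
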