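import Pool.Agent.V1191.UC.Fib

/-!
# The local unique continuation theorem
-/

set_option autoImplicit false

open MeasureTheory Filter Topology Metric Set
open scoped ENNReal NNReal

noncomputable section

namespace Pool.Agent.V1191.UC

variable {n : ℕ} {G : Type*} [NormedAddCommGroup G] [NormedSpace ℂ G] [NormedSpace ℝ G]
  [IsScalarTower ℝ ℂ G] [CompleteSpace G] [MeasurableSpace G] [BorelSpace G]
  [SecondCountableTopology G]

omit [NormedSpace ℂ G] [NormedSpace ℝ G] [IsScalarTower ℝ ℂ G] [CompleteSpace G]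
  [SecondCountableTopology G] in
theorem Fu_weight {u : E n → G} {f : Fin n → E n → G} {V : E n → ℝ≥0∞}
    (hum : Measurable u) (hfm : ∀ j, Measurable (f j)) {R r1 : ℝ} (h1 : 0 < r1) (h1R : r1 < R)
    (hu : IntegrableOn u (ball (0 : E n) R)) (hf : ∀ j, IntegrableOn (f j) (ball (0 : E n) R))
    (hVm : Measurable V)
    (hfV : ∀ᵐ x : E n, x ∈ ball (0 : E n) R → ∑ j, ‖f j x‖ₑ ≤ V x * ‖u x‖ₑ)
    (hvf : ∀ M : ℕ, ∃ δ : ℝ, 0 < δ ∧
      ∫⁻ x in ball (0 : E n) δ, (V x * ‖u x‖ₑ) * (‖x‖ₑ⁻¹) ^ M < ∞) {C : ℝ≥0∞} (hC : C ≠ ∞) (N : ℕ) :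
    ∫⁻ x, Fu R r1 C u f x * (‖x‖ₑ⁻¹) ^ N < ∞ := by
  obtain ⟨δ, hδ0, hδ⟩ := hvf N
  have hFm := Fu_meas R r1 C hum hfm
  have hFint : ∫⁻ x, Fu R r1 C u f x < ∞ := by
    have hb : ∀ x, Fu R r1 C u f x ≤
        (ball (0 : E n) R).indicator (fun x => (∑ j, ‖f j x‖ₑ) + C * ‖u x‖ₑ) x := by
      intro x
      unfold Fu
      by_cases hx : x ∈ ball (0 : E n) R
      · rw [indicator_of_mem hx, indicator_of_mem hx]
        gcongr
        exact indicator_le_self' (fun _ _ => zero_le) x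
      · rw [indicator_of_notMem hx, indicator_of_notMem hx]
    refine (lintegral_mono hb).trans_lt ?_
    have hsm : Measurable fun x => ∑ j, ‖f j x‖ₑ := Finset.measurable_fun_sum _ fun j _ => (hfm j).enorm
    rw [lintegral_indicator measurableSet_ball, lintegral_add_left hsm,
      lintegral_finsetSum _ fun j _ => (hfm j).enorm, lintegral_const_mul _ hum.enorm]
    apply ENNReal.add_lt_top.mpr
    constructor
    · exact ENNReal.sum_lt_top.mpr fun j _ => (hf j).2
    · exact ENNReal.mul_lt_top hC.lt_top hu.2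
  have hδ' : 0 < min δ r1 := lt_min hδ0 h1
  rw [← lintegral_add_compl _ (measurableSet_ball (x := (0 : E n)) (ε := min δ r1))]
  apply ENNReal.add_lt_top.mpr
  constructor
  · refine lt_of_le_of_lt ?_ hδ
    rw [← lintegral_indicator measurableSet_ball, ← lintegral_indicator measurableSet_ball]
    apply lintegral_mono_ae
    filter_upwards [hfV] with x hx
    by_cases hxb : x ∈ ball (0 : E n) (min δ r1)
    · have hxδ : x ∈ ball (0 : E n) δ := ball_subset_ball (min_le_left _ _) hxb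
      have hxr : x ∈ ball (0 : E n) r1 := ball_subset_ball (min_le_right _ _) hxb
      have hxR : x ∈ ball (0 : E n) R := ball_subset_ball h1R.le hxr
      rw [indicator_of_mem hxb, indicator_of_mem hxδ]
      unfold Fu
      rw [indicator_of_mem hxR, indicator_of_notMem (show x ∉ (ball (0 : E n) r1)ᶜ from fun h => h hxr),
        mul_zero, add_zero]
      gcongr
      exact hx hxR
    · rw [indicator_of_notMem hxb]
      exact zero_le
  · calc ∫⁻ x in (ball (0 : E n) (min δ r1))ᶜ, Fu R r1 C u f x * (‖x‖ₑ⁻¹) ^ N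
        ≤ ∫⁻ x in (ball (0 : E n) (min δ r1))ᶜ, ((ENNReal.ofReal (min δ r1))⁻¹) ^ N * Fu R r1 C u f x := by
          apply setLIntegral_mono (hFm.const_mul _)
          intro x hx
          rw [mul_comm]
          gcongr
          rw [← ofReal_norm]
          apply ENNReal.ofReal_le_ofReal
          rw [mem_compl_iff, mem_ball_zero_iff, not_lt] at hx
          exact hx
      _ ≤ ∫⁻ x, ((ENNReal.ofReal (min δ r1))⁻¹) ^ N * Fu R r1 C u f x := setLIntegral_le_lintegral _ _
      _ = ((ENNReal.ofReal (min δ r1))⁻¹) ^ N * ∫⁻ x, Fu R r1 C u f x := lintegral_const_mul _ hFm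
      _ < ∞ := by
          apply ENNReal.mul_lt_top _ hFint
          apply ENNReal.pow_lt_top
          rw [ENNReal.inv_lt_top]
          simpa using hδ'

theorem local_zero_aux {q r : ℝ} (hqr : q.HolderConjugate r) (hr2 : r < 2) (hq : q = 2 * n)
    {u : E n → G} {f : Fin n → E n → G} {V : E n → ℝ≥0∞} (hum : Measurable u)
    (hfm : ∀ j, Measurable (f j)) (hVm : Measurable V) {R r1 : ℝ} (h1 : 0 < r1) (h1R : r1 < R)
    (hu : IntegrableOn u (ball (0 : E n) R)) (hf : ∀ j, IntegrableOn (f j) (ball (0 : E n) R))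
    (hw : ∀ j, ∀ ψ : E n → ℂ, ContDiff ℝ ((⊤ : ℕ∞) : WithTop ℕ∞) ψ → HasCompactSupport ψ →
      tsupport ψ ⊆ ball 0 R → ∫ x, db ψ x (ev j) • u x = -∫ x, ψ x • f j x)
    (hVi : ∫⁻ x in ball (0 : E n) R, V x ^ q < ∞)
    (hfV : ∀ᵐ x : E n, x ∈ ball (0 : E n) R → ∑ j, ‖f j x‖ₑ ≤ V x * ‖u x‖ₑ)
    (hvu : ∀ M : ℕ, ∃ δ : ℝ, 0 < δ ∧ ∫⁻ x in ball (0 : E n) δ, ‖u x‖ₑ * (‖x‖ₑ⁻¹) ^ M < ∞)
    (hvf : ∀ M : ℕ, ∃ δ : ℝ, 0 < δ ∧
      ∫⁻ x in ball (0 : E n) δ, (V x * ‖u x‖ₑ) * (‖x‖ₑ⁻¹) ^ M < ∞)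
    (h0 : ∀ᵐ x : E n, x ≠ 0) :
    ∀ᵐ x : E n, ‖x‖ < r1 → u x = 0 := by
  have hq0 : 0 < q := hqr.pos
  have hR : 0 < R := h1.trans h1R
  obtain ⟨C, hC, hI⟩ := ineq hum hfm h1 (r2 := (r1 + R) / 2) (by linarith) (by linarith) hu hf hw hvu
  set F : E n → ℝ≥0∞ := Fu R r1 C u f with hF
  have hFm : Measurable F := Fu_meas R r1 C hum hfm
  have hFw : ∀ N : ℕ, ∫⁻ x, F x * (‖x‖ₑ⁻¹) ^ N < ∞ := fun N =>
    Fu_weight hum hfm h1 h1R hu hf hVm hfV hvf hC N
  -- exceptional null sets
  have nul1 : ∀ N : ℕ, ∀ᵐ z : E n, z ∈ Ann n → ∀ᵐ ζ : ℂ, ζ • z ≠ 0 → ‖ζ • z‖ < r1 →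
      ‖u (ζ • z)‖ₑ ≤ T N F (ζ • z) := by
    intro N
    set S : Set (E n) := {y | y ≠ 0 ∧ ‖y‖ < r1 ∧ T N F y < ‖u y‖ₑ} with hS
    have hSm : MeasurableSet S := by
      apply MeasurableSet.inter
      · exact (measurableSet_singleton (0 : E n)).compl
      apply MeasurableSet.inter
      · exact measurableSet_lt measurable_norm measurable_const
      · exact measurableSet_lt (T_meas N hFm) hum.enorm
    have hS0 : volume S = 0 := by
      refine measure_mono_null ?_ (hI N)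
      intro y hy hcon
      exact absurd (hcon hy.1 hy.2.1) (not_le.mpr hy.2.2)
    filter_upwards [fiber_null hSm hS0] with z hz hzA
    filter_upwards [hz hzA] with ζ hζ hne hlt
    by_contra hcon
    exact hζ ⟨hne, hlt, not_le.mp hcon⟩
  have nul2 : ∀ᵐ z : E n, z ∈ Ann n → ∀ᵐ ζ : ℂ, ‖ζ • z‖ < r1 →
      F (ζ • z) ≤ V (ζ • z) * ‖u (ζ • z)‖ₑ := by
    set S : Set (E n) := {y | ‖y‖ < r1 ∧ V y * ‖u y‖ₑ < F y} with hS
    have hSm : MeasurableSet S := by
      apply MeasurableSet.inter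
      · exact measurableSet_lt measurable_norm measurable_const
      · exact measurableSet_lt (hVm.mul hum.enorm) hFm
    have hS0 : volume S = 0 := by
      refine measure_mono_null ?_ hfV
      intro y hy hcon
      have hyr : y ∈ ball (0 : E n) r1 := by simpa using hy.1
      have hyR : y ∈ ball (0 : E n) R := ball_subset_ball h1R.le hyr
      have h2 := hcon hyR
      have h3 : F y = ∑ j, ‖f j y‖ₑ := by
        rw [hF]
        unfold Fu
        rw [indicator_of_mem hyR,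
          indicator_of_notMem (show y ∉ (ball (0 : E n) r1)ᶜ from fun h => h hyr), mul_zero, add_zero]
      rw [← h3] at h2
      exact absurd h2 (not_le.mpr hy.2)
    filter_upwards [fiber_null hSm hS0] with z hz hzA
    filter_upwards [hz hzA] with ζ hζ hlt
    by_contra hcon
    exact hζ ⟨hlt, not_le.mp hcon⟩
  set Kn : ℝ≥0∞ := 2 ^ (2 * n) * NNReal.pi with hKn
  have hKnf : Kn < ∞ := ENNReal.mul_lt_top (ENNReal.pow_lt_top (by norm_num)) ENNReal.coe_lt_top
  have hVf : ∀ᵐ z : E n, z ∈ Ann n → ∫⁻ ζ : ℂ, (ball (0 : E n) r1).indicator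
      (fun y => V y ^ q * ENNReal.ofReal (‖y‖ ^ (q - 2))) (ζ • z) < ∞ := by
    have hHm : Measurable ((ball (0 : E n) r1).indicator
      (fun y => V y ^ q * ENNReal.ofReal (‖y‖ ^ (q - 2)))) :=
      ((hVm.pow_const q).mul (measurable_norm.pow_const _).ennreal_ofReal).indicator measurableSet_ball
    apply fiber_fin hHm
    set Hq : E n → ℝ≥0∞ := (ball (0 : E n) r1).indicator
      (fun y => V y ^ q * ENNReal.ofReal (‖y‖ ^ (q - 2))) with hHq
    calc ∫⁻ y, Hq y * wt y
        ≤ ∫⁻ y, (ball (0 : E n) R).indicator (fun y => Kn * V y ^ q) y := by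
          apply lintegral_mono_ae
          filter_upwards [h0] with y hy0
          by_cases hy : y ∈ ball (0 : E n) r1
          · have hyR : y ∈ ball (0 : E n) R := ball_subset_ball h1R.le hy
            rw [hHq, indicator_of_mem hy, indicator_of_mem hyR]
            have hyp : 0 < ‖y‖ := norm_pos_iff.mpr hy0
            have e1 : ENNReal.ofReal (‖y‖ ^ (q - 2)) * ((‖y‖ₑ⁻¹) ^ (2 * n) * ‖y‖ₑ ^ 2) = 1 := by
              rw [← ofReal_norm, ← ENNReal.ofReal_inv_of_pos hyp,
                ← ENNReal.ofReal_pow (by positivity), ← ENNReal.ofReal_pow (by positivity),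
                ← ENNReal.ofReal_mul (by positivity), ← ENNReal.ofReal_mul (by positivity),
                ← ENNReal.ofReal_one]
              congr 1
              have e2 : ‖y‖ ^ (q - 2) * ‖y‖ ^ (2 : ℕ) = ‖y‖ ^ (2 * n : ℕ) := by
                rw [← Real.rpow_natCast ‖y‖ 2, ← Real.rpow_add hyp, ← Real.rpow_natCast, hq]
                congr 1
                push_cast
                ring
              calc ‖y‖ ^ (q - 2) * (‖y‖⁻¹ ^ (2 * n) * ‖y‖ ^ 2)
                  = (‖y‖ ^ (q - 2) * ‖y‖ ^ 2) * ‖y‖⁻¹ ^ (2 * n) := by ring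
                _ = 1 := by
                    rw [e2, ← mul_pow, mul_inv_cancel₀ hyp.ne', one_pow]
            calc V y ^ q * ENNReal.ofReal (‖y‖ ^ (q - 2)) * wt y
                ≤ V y ^ q * ENNReal.ofReal (‖y‖ ^ (q - 2)) *
                  (Kn * ((‖y‖ₑ⁻¹) ^ (2 * n) * ‖y‖ₑ ^ 2)) := by
                  gcongr
                  exact wt_le y hy0
              _ = Kn * V y ^ q * (ENNReal.ofReal (‖y‖ ^ (q - 2)) * ((‖y‖ₑ⁻¹) ^ (2 * n) * ‖y‖ₑ ^ 2)) := by
                  ring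
              _ = Kn * V y ^ q := by rw [e1, mul_one]
          · rw [hHq, indicator_of_notMem hy, zero_mul]
            exact zero_le
      _ = Kn * ∫⁻ y in ball (0 : E n) R, V y ^ q := by
          rw [lintegral_indicator measurableSet_ball, lintegral_const_mul _ (hVm.pow_const q)]
      _ < ∞ := ENNReal.mul_lt_top hKnf hVi
  have hFf : ∀ N : ℕ, ∀ᵐ z : E n, z ∈ Ann n → ∫⁻ ζ : ℂ, F (ζ • z) * (‖ζ • z‖ₑ⁻¹) ^ N < ∞ := by
    intro N
    apply fiber_fin (H := fun y => F y * (‖y‖ₑ⁻¹) ^ N) (hFm.mul (inv_enorm_measE.pow_const _))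
    calc ∫⁻ y, F y * (‖y‖ₑ⁻¹) ^ N * wt y
        ≤ ∫⁻ y, (Kn * ENNReal.ofReal R ^ 2) * (F y * (‖y‖ₑ⁻¹) ^ (N + 2 * n)) := by
          apply lintegral_mono_ae
          filter_upwards [h0] with y hy0
          by_cases hy : y ∈ ball (0 : E n) R
          · have hyR : ‖y‖ₑ ≤ ENNReal.ofReal R := by
              rw [← ofReal_norm]
              exact ENNReal.ofReal_le_ofReal (mem_ball_zero_iff.mp hy).le
            calc F y * (‖y‖ₑ⁻¹) ^ N * wt y
                ≤ F y * (‖y‖ₑ⁻¹) ^ N * (Kn * ((‖y‖ₑ⁻¹) ^ (2 * n) * ENNReal.ofReal R ^ 2)) := by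
                  gcongr
                  refine (wt_le y hy0).trans ?_
                  gcongr
              _ = _ := by rw [pow_add]; ring
          · have : F y = 0 := by
              rw [hF]
              unfold Fu
              rw [indicator_of_notMem hy]
            rw [this]
            simp
      _ = (Kn * ENNReal.ofReal R ^ 2) * ∫⁻ y, F y * (‖y‖ₑ⁻¹) ^ (N + 2 * n) := by
          rw [lintegral_const_mul]
          exact hFm.mul (inv_enorm_measE.pow_const _)
      _ < ∞ := ENNReal.mul_lt_top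
          (ENNReal.mul_lt_top hKnf (ENNReal.pow_lt_top ENNReal.ofReal_lt_top)) (hFw _)
  -- application of the one dimensional lemma
  have hall1 := ae_all_iff.mpr nul1
  have hall4 := ae_all_iff.mpr hFf
  have hlines : ∀ᵐ z : E n, z ∈ Ann n → ∀ᵐ ξ : ℂ, ‖ξ • z‖ < r1 → u (ξ • z) = 0 := by
    filter_upwards [hall1, nul2, hVf, hall4] with z g1 g2 g3 g4 hzA
    have hz1 : 1 < ‖z‖ := hzA.1
    have hz2 : ‖z‖ < 2 := hzA.2
    have hzp : 0 < ‖z‖ := by linarith
    have hz0 : z ≠ 0 := norm_pos_iff.mp hzp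
    have hsz : Measurable fun ζ : ℂ => ζ • z := (continuous_id.smul continuous_const).measurable
    have hzlt : ∀ ζ : ℂ, ‖ζ‖ < r1 / ‖z‖ ↔ ‖ζ • z‖ < r1 := by
      intro ζ
      rw [norm_smul, lt_div_iff₀ hzp]
    have hze2 : ‖z‖ₑ ≤ 2 := by
      rw [← ofReal_norm]
      calc ENNReal.ofReal ‖z‖ ≤ ENNReal.ofReal 2 := ENNReal.ofReal_le_ofReal hz2.le
        _ = 2 := by norm_num
    have hone := oneD (g := fun ξ => ‖u (ξ • z)‖ₑ) (Φ := fun ζ => ‖z‖ₑ * F (ζ • z))
      (W := fun ζ => ‖z‖ₑ * V (ζ • z)) (T := r1 / ‖z‖) hqr hqr.symm.lt hr2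
      ((hum.comp hsz).enorm) ((hFm.comp hsz).const_mul _) ((hVm.comp hsz).const_mul _)
      (by
        intro N
        filter_upwards [g1 N hzA, ne_zeroC] with ξ e1 hξ hlt
        have hne : ξ • z ≠ 0 := smul_ne_zero hξ hz0
        refine (e1 hne ((hzlt ξ).mp hlt)).trans ?_
        rw [T_line N hFm z hξ])
      (by
        filter_upwards [g2 hzA] with ζ e2 hlt
        calc ‖z‖ₑ * F (ζ • z) ≤ ‖z‖ₑ * (V (ζ • z) * ‖u (ζ • z)‖ₑ) := by
              gcongr
              exact e2 ((hzlt ζ).mp hlt)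
          _ = _ := by ring)
      (by
        have h5 := g3 hzA
        have hHm : Measurable fun ζ : ℂ => (ball (0 : E n) r1).indicator
            (fun y => V y ^ q * ENNReal.ofReal (‖y‖ ^ (q - 2))) (ζ • z) :=
          (((hVm.pow_const q).mul (measurable_norm.pow_const _).ennreal_ofReal).indicator
            measurableSet_ball).comp hsz
        refine lt_of_le_of_lt (b := 4 * ∫⁻ ζ : ℂ, (ball (0 : E n) r1).indicator
            (fun y => V y ^ q * ENNReal.ofReal (‖y‖ ^ (q - 2))) (ζ • z)) ?_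
            (ENNReal.mul_lt_top (by norm_num) h5)
        rw [← lintegral_const_mul _ hHm, ← lintegral_indicator measurableSet_ball]
        apply lintegral_mono
        intro ζ
        beta_reduce
        by_cases hζ : ζ ∈ ball (0 : ℂ) (r1 / ‖z‖)
        · have hζ' : ζ • z ∈ ball (0 : E n) r1 := by
            rw [mem_ball_zero_iff] at hζ ⊢
            exact (hzlt ζ).mp hζ
          rw [indicator_of_mem hζ, indicator_of_mem hζ',
            ENNReal.mul_rpow_of_nonneg _ _ hq0.le, ← ofReal_norm,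
            ENNReal.ofReal_rpow_of_nonneg (norm_nonneg _) hq0.le]
          have e3 : ENNReal.ofReal (‖z‖ ^ q) * ENNReal.ofReal (‖ζ‖ ^ (q - 2)) ≤
              4 * ENNReal.ofReal (‖ζ • z‖ ^ (q - 2)) := by
            have h4 : (4 : ℝ≥0∞) = ENNReal.ofReal 4 := by norm_num
            rw [h4, ← ENNReal.ofReal_mul (by positivity), ← ENNReal.ofReal_mul (by norm_num)]
            apply ENNReal.ofReal_le_ofReal
            rw [norm_smul, Real.mul_rpow (norm_nonneg _) (norm_nonneg _)]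
            have e4 : ‖z‖ ^ q = ‖z‖ ^ 2 * ‖z‖ ^ (q - 2) := by
              rw [← Real.rpow_natCast ‖z‖ 2, ← Real.rpow_add hzp]
              congr 1
              push_cast
              ring
            rw [e4]
            have e5 : ‖z‖ ^ 2 ≤ 4 := by nlinarith
            have e6 : 0 ≤ ‖z‖ ^ (q - 2) * ‖ζ‖ ^ (q - 2) := by positivity
            nlinarith
          calc ENNReal.ofReal (‖z‖ ^ q) * V (ζ • z) ^ q * ENNReal.ofReal (‖ζ‖ ^ (q - 2))
              = V (ζ • z) ^ q * (ENNReal.ofReal (‖z‖ ^ q) * ENNReal.ofReal (‖ζ‖ ^ (q - 2))) := by ring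
            _ ≤ V (ζ • z) ^ q * (4 * ENNReal.ofReal (‖ζ • z‖ ^ (q - 2))) := by gcongr
            _ = _ := by ring
        · rw [indicator_of_notMem hζ]
          exact zero_le)
      (by
        intro N
        have h6 := g4 N hzA
        have hHm : Measurable fun ζ : ℂ => F (ζ • z) * (‖ζ • z‖ₑ⁻¹) ^ N :=
          (hFm.comp hsz).mul (hsz.enorm.inv.pow_const N)
        refine lt_of_le_of_lt (b := (2 * 2 ^ N) * ∫⁻ ζ : ℂ, F (ζ • z) * (‖ζ • z‖ₑ⁻¹) ^ N) ?_
            (ENNReal.mul_lt_top (ENNReal.mul_lt_top (by norm_num)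
              (ENNReal.pow_lt_top (by norm_num))) h6)
        rw [← lintegral_const_mul _ hHm]
        apply lintegral_mono_ae
        filter_upwards [ne_zeroC] with ζ hζ
        have hζp : 0 < ‖ζ‖ := norm_pos_iff.mpr hζ
        have e7 : ‖ζ‖ₑ⁻¹ = ‖z‖ₑ * ‖ζ • z‖ₑ⁻¹ := by
          rw [enorm_smul, ENNReal.mul_inv (Or.inl (by simpa using hζ)) (Or.inl enorm_ne_top),
            mul_comm ‖ζ‖ₑ⁻¹, ← mul_assoc, ENNReal.mul_inv_cancel (by simpa using hz0) enorm_ne_top,
            one_mul]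
        rw [e7, mul_pow]
        calc ‖z‖ₑ * F (ζ • z) * (‖z‖ₑ ^ N * ‖ζ • z‖ₑ⁻¹ ^ N)
            ≤ 2 * F (ζ • z) * (2 ^ N * ‖ζ • z‖ₑ⁻¹ ^ N) := by gcongr
          _ = _ := by ring)
    filter_upwards [hone] with ξ hξ hlt
    have := hξ ((hzlt ξ).mpr hlt)
    exact enorm_eq_zero.mp this
  -- conclusion
  set B : Set (E n) := {y | ‖y‖ < r1 ∧ u y ≠ 0} with hB
  have hBm : MeasurableSet B := by
    apply MeasurableSet.inter
    · exact measurableSet_lt measurable_norm measurable_const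
    · exact (hum (measurableSet_singleton 0)).compl
  have hBz : ∫⁻ z in Ann n, ∫⁻ ζ : ℂ, B.indicator (fun _ => (1 : ℝ≥0∞)) (ζ • z) = 0 := by
    have hm : Measurable fun p : E n × ℂ => B.indicator (fun _ => (1 : ℝ≥0∞)) (p.2 • p.1) :=
      (measurable_const.indicator hBm).comp smul_meas
    rw [lintegral_eq_zero_iff hm.lintegral_prod_right', EventuallyEq, ae_restrict_iff' Ann_meas]
    filter_upwards [hlines] with z hz hzA
    simp only [Pi.zero_apply]
    have hsz : Measurable fun ζ : ℂ => ζ • z := (continuous_id.smul continuous_const).measurable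
    have hm1 : Measurable fun ζ : ℂ => B.indicator (fun _ => (1 : ℝ≥0∞)) (ζ • z) :=
      (measurable_const.indicator hBm).comp hsz
    rw [lintegral_eq_zero_iff hm1]
    filter_upwards [hz hzA] with ζ hζ
    have : ζ • z ∉ B := fun h => h.2 (hζ h.1)
    rw [indicator_of_notMem this]
    rfl
  have hBw : Measurable fun y => B.indicator (fun _ => (1 : ℝ≥0∞)) y * wt y :=
    (measurable_const.indicator hBm).mul wt_meas
  rw [fiber (measurable_const.indicator hBm), lintegral_eq_zero_iff hBw] at hBz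
  filter_upwards [hBz, h0] with y hy hy0 hlt
  by_contra hcon
  have hyB : y ∈ B := ⟨hlt, hcon⟩
  simp only [Pi.zero_apply] at hy
  rw [indicator_of_mem hyB, one_mul] at hy
  exact wt_ne_zero y hy0 hy

end Pool.Agent.V1191.UC
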