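import Pool.Agent.V1191.UC.TB

/-!
# Mollification and the line inequality for weak derivatives
-/

set_option autoImplicit false

open MeasureTheory Filter Topology Metric Set ContinuousLinearMap
open scoped ENNReal NNReal

noncomputable section

namespace Pool.Agent.V1191.UC

variable {n : ℕ}

/-- Scheffé's lemma in the form used here -/
theorem scheffe {α G : Type*} [MeasurableSpace α] {μ : Measure α} [NormedAddCommGroup G]
    {f : ℕ → α → G} {g : α → G} (hf : ∀ k, AEStronglyMeasurable (f k) μ)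
    (hg : AEStronglyMeasurable g μ) (hlim : ∀ᵐ x ∂μ, Tendsto (fun k => f k x) atTop (𝓝 (g x)))
    (hle : ∀ k, ∫⁻ x, ‖f k x‖ₑ ∂μ ≤ ∫⁻ x, ‖g x‖ₑ ∂μ) (hfin : ∫⁻ x, ‖g x‖ₑ ∂μ ≠ ∞) :
    Tendsto (fun k => ∫⁻ x, ‖f k x - g x‖ₑ ∂μ) atTop (𝓝 0) := by
  set I := ∫⁻ x, ‖g x‖ₑ ∂μ with hI
  have hfm : ∀ k, AEMeasurable (fun x => ‖f k x‖ₑ) μ := fun k => (hf k).enorm
  have hgm : AEMeasurable (fun x => ‖g x‖ₑ) μ := hg.enorm
  have hdm : ∀ k, AEMeasurable (fun x => ‖f k x - g x‖ₑ) μ := fun k => ((hf k).sub hg).enorm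
  set a : ℕ → α → ℝ≥0∞ := fun k x => (‖f k x‖ₑ + ‖g x‖ₑ) - ‖f k x - g x‖ₑ with ha
  have ham : ∀ k, AEMeasurable (a k) μ := fun k => ((hfm k).add hgm).sub (hdm k)
  have h1 : ∫⁻ x, liminf (fun k => a k x) atTop ∂μ ≤ liminf (fun k => ∫⁻ x, a k x ∂μ) atTop :=
    lintegral_liminf_le' ham
  have h2 : ∫⁻ x, liminf (fun k => a k x) atTop ∂μ = 2 * I := by
    rw [hI, ← lintegral_const_mul' _ _ (by norm_num)]
    apply lintegral_congr_ae
    filter_upwards [hlim] with x hx
    have e1 : Tendsto (fun k => ‖f k x‖ₑ) atTop (𝓝 ‖g x‖ₑ) := hx.enorm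
    have e2 : Tendsto (fun k => ‖f k x - g x‖ₑ) atTop (𝓝 0) := by
      have := (hx.sub_const (g x)).enorm
      simpa using this
    have e3 : Tendsto (fun k => a k x) atTop (𝓝 ((‖g x‖ₑ + ‖g x‖ₑ) - 0)) := by
      apply ENNReal.Tendsto.sub
      · exact e1.add tendsto_const_nhds
      · exact e2
      · right; exact ENNReal.zero_ne_top
    rw [e3.liminf_eq, tsub_zero, two_mul]
  have h3 : ∀ k, ∫⁻ x, a k x ∂μ ≤ 2 * I - ∫⁻ x, ‖f k x - g x‖ₑ ∂μ := by
    intro k
    have hDk : ∫⁻ x, ‖f k x - g x‖ₑ ∂μ ≠ ∞ := by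
      have : ∫⁻ x, ‖f k x - g x‖ₑ ∂μ ≤ ∫⁻ x, (‖f k x‖ₑ + ‖g x‖ₑ) ∂μ :=
        lintegral_mono fun x => enorm_sub_le
      rw [lintegral_add_right' _ hgm] at this
      exact ne_top_of_le_ne_top (ENNReal.add_ne_top.mpr ⟨ne_top_of_le_ne_top hfin (hle k), hfin⟩) this
    apply ENNReal.le_sub_of_add_le_right hDk
    rw [← lintegral_add_right' _ (hdm k)]
    calc ∫⁻ x, (a k x + ‖f k x - g x‖ₑ) ∂μ = ∫⁻ x, (‖f k x‖ₑ + ‖g x‖ₑ) ∂μ := by
          apply lintegral_congr
          intro x
          exact tsub_add_cancel_of_le enorm_sub_le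
      _ = ∫⁻ x, ‖f k x‖ₑ ∂μ + I := lintegral_add_right' _ hgm
      _ ≤ I + I := by gcongr; exact hle k
      _ = 2 * I := (two_mul I).symm
  rw [h2] at h1
  have h4 : 2 * I ≤ liminf (fun k => 2 * I - ∫⁻ x, ‖f k x - g x‖ₑ ∂μ) atTop :=
    h1.trans (liminf_le_liminf (Eventually.of_forall h3))
  rcases eq_or_ne I 0 with hI0 | hI0
  · have : ∀ k, ∫⁻ x, ‖f k x - g x‖ₑ ∂μ = 0 := by
      intro k
      have : ∫⁻ x, ‖f k x - g x‖ₑ ∂μ ≤ ∫⁻ x, (‖f k x‖ₑ + ‖g x‖ₑ) ∂μ :=
        lintegral_mono fun x => enorm_sub_le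
      rw [lintegral_add_right' _ hgm] at this
      have h6 := hle k
      rw [hI0] at h6
      rw [← hI, hI0, le_antisymm h6 zero_le, add_zero] at this
      exact le_antisymm this zero_le
    simp_rw [this]
    exact tendsto_const_nhds
  rw [ENNReal.tendsto_nhds_zero]
  intro ε hε
  have h2I : 2 * I ≠ ∞ := ENNReal.mul_ne_top (by norm_num) hfin
  have h2I0 : 2 * I ≠ 0 := mul_ne_zero (by norm_num) hI0
  have hlt : 2 * I - ε < liminf (fun k => 2 * I - ∫⁻ x, ‖f k x - g x‖ₑ ∂μ) atTop :=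
    lt_of_lt_of_le (ENNReal.sub_lt_self h2I h2I0 hε.ne') h4
  filter_upwards [eventually_lt_of_lt_liminf hlt] with k hk
  by_contra hcon
  rw [not_le] at hcon
  exact absurd hk (not_lt.mpr (tsub_le_tsub_left hcon.le _))

/-- the mollified function -/
def moll {G : Type*} [NormedAddCommGroup G] [NormedSpace ℝ G]
    (φ : ContDiffBump (0 : E n)) (h : E n → G) : E n → G :=
  convolution (φ.normed volume) h (lsmul ℝ ℝ) volume

section

variable {G : Type*} [NormedAddCommGroup G] [NormedSpace ℂ G] [NormedSpace ℝ G]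
  [IsScalarTower ℝ ℂ G] [CompleteSpace G] (φ : ContDiffBump (0 : E n)) {v : E n → G}

omit [NormedSpace ℂ G] [IsScalarTower ℝ ℂ G] [CompleteSpace G] in
theorem moll_eq (x : E n) : moll φ v x = ∫ t, φ.normed volume (x - t) • v t :=
  convolution_lsmul_swap

omit [NormedSpace ℂ G] [IsScalarTower ℝ ℂ G] [CompleteSpace G] in
theorem moll_zero {x : E n} (h : ∀ t, ‖x - t‖ < φ.rOut → v t = 0) : moll φ v x = 0 := by
  rw [moll_eq]
  rw [integral_eq_zero_of_ae]
  filter_upwards with t
  by_cases ht : ‖x - t‖ < φ.rOut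
  · rw [h t ht, smul_zero]
    rfl
  · have : φ.normed volume (x - t) = 0 := by
      rw [ContDiffBump.normed]
      rw [φ.zero_of_le_dist (by simpa using ht), zero_div]
    rw [this, zero_smul]
    rfl

omit [NormedSpace ℂ G] [IsScalarTower ℝ ℂ G] in
theorem moll_contDiff (hv : Integrable v) : ContDiff ℝ 1 (moll φ v) := by
  apply HasCompactSupport.contDiff_convolution_left (n := 1)
  · exact φ.hasCompactSupport_normed
  · exact φ.contDiff_normed
  · exact hv.locallyIntegrable

omit [NormedSpace ℂ G] [IsScalarTower ℝ ℂ G] in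
theorem moll_fderiv (hv : Integrable v) (y e : E n) :
    Integrable (fun t => (fderiv ℝ (φ.normed volume) (y - t) e) • v t) ∧
    fderiv ℝ (moll φ v) y e = ∫ t, (fderiv ℝ (φ.normed volume) (y - t) e) • v t := by
  have hc : HasCompactSupport (φ.normed (volume : Measure (E n))) := φ.hasCompactSupport_normed
  have hd : ContDiff ℝ 1 (φ.normed (volume : Measure (E n))) := φ.contDiff_normed
  have h1 := hc.hasFDerivAt_convolution_left (lsmul ℝ ℝ) hd hv.locallyIntegrable (μ := volume) y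
  have h2 : ConvolutionExistsAt (fderiv ℝ (φ.normed (volume : Measure (E n)))) v y
      (precompL (E n) (lsmul ℝ ℝ : ℝ →L[ℝ] G →L[ℝ] G)) volume :=
    (hc.fderiv ℝ).convolutionExists_left _ (hd.continuous_fderiv (by norm_num)) hv.locallyIntegrable y
  have h3 := convolutionExistsAt_iff_integrable_swap.mp h2
  refine ⟨?_, ?_⟩
  · exact h3.apply_continuousLinearMap e
  · have h4 : fderiv ℝ (moll φ v) y = _ := h1.fderiv
    rw [h4, convolution_eq_swap, ContinuousLinearMap.integral_apply h3]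
    rfl

theorem moll_db {h : Fin n → E n → G} (hv : Integrable v)
    (hw : ∀ j, ∀ ψ : E n → ℂ, ContDiff ℝ ((⊤ : ℕ∞) : WithTop ℕ∞) ψ → HasCompactSupport ψ →
      ∫ x, db ψ x (ev j) • v x = -∫ x, ψ x • h j x) (j : Fin n) (y : E n) :
    db (moll φ v) y (ev j) = moll φ (h j) y := by
  set ρ : E n → ℝ := φ.normed volume with hρ
  have hρd : ContDiff ℝ ((⊤ : ℕ∞) : WithTop ℕ∞) ρ := φ.contDiff_normed
  set ψ : E n → ℂ := fun x => ((ρ (y - x) : ℝ) : ℂ) with hψ
  have hψd : ContDiff ℝ ((⊤ : ℕ∞) : WithTop ℕ∞) ψ := by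
    have h1 : ContDiff ℝ ((⊤ : ℕ∞) : WithTop ℕ∞) fun x : E n => ρ (y - x) :=
      hρd.comp (contDiff_const.sub contDiff_id)
    exact Complex.ofRealCLM.contDiff.comp h1
  have hψc : HasCompactSupport ψ := by
    apply HasCompactSupport.intro (isCompact_closedBall y φ.rOut)
    intro x hx
    rw [hψ]
    simp only
    have : ρ (y - x) = 0 := by
      rw [hρ, ContDiffBump.normed]
      rw [φ.zero_of_le_dist, zero_div]
      rw [mem_closedBall, not_le, dist_comm, dist_eq_norm] at hx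
      rw [dist_zero_right]
      exact hx.le
    rw [this, Complex.ofReal_zero]
  have hψf : ∀ x e, fderiv ℝ ψ x e = -((fderiv ℝ ρ (y - x) e : ℝ) : ℂ) := by
    intro x e
    have h1 : HasFDerivAt ρ (fderiv ℝ ρ (y - x)) (y - x) :=
      (hρd.differentiable (by simp) (y - x)).hasFDerivAt
    have h2 : HasFDerivAt (fun x : E n => y - x) (-(ContinuousLinearMap.id ℝ (E n))) x :=
      (hasFDerivAt_id x).const_sub y
    have h3 := Complex.ofRealCLM.hasFDerivAt.comp x (h1.comp x h2)
    have h4 : fderiv ℝ ψ x = _ := h3.fderiv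
    rw [h4]
    simp
  obtain ⟨i1, e1⟩ := moll_fderiv φ hv y (ev j)
  obtain ⟨i2, e2⟩ := moll_fderiv φ hv y (Complex.I • ev j)
  have i2' : Integrable (fun t => Complex.I •
      ((fderiv ℝ (φ.normed volume) (y - t) (Complex.I • ev j)) • v t)) := i2.smul Complex.I
  have hleft : db (moll φ v) y (ev j) = -∫ x, db ψ x (ev j) • v x := by
    unfold db
    rw [e1, e2, ← integral_smul, ← integral_add i1 i2', ← integral_smul,
      ← integral_neg]
    apply integral_congr_ae
    filter_upwards with x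
    rw [hψf, hψf]
    rw [← complex_smul_eq, ← complex_smul_eq]
    simp only [smul_eq_mul]
    module
  rw [hleft, hw j ψ hψd hψc, neg_neg, moll_eq]
  apply integral_congr_ae
  filter_upwards with x
  rw [hψ]
  simp only
  rw [complex_smul_eq]

omit [NormedSpace ℂ G] [IsScalarTower ℝ ℂ G] [CompleteSpace G] in
theorem lintegral_moll_le [MeasurableSpace G] [OpensMeasurableSpace G] (hv : Measurable v) :
    ∫⁻ x, ‖moll φ v x‖ₑ ≤ ∫⁻ x, ‖v x‖ₑ := by
  have hρm : Measurable (φ.normed (volume : Measure (E n))) := (φ.continuous_normed).measurable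
  have hsub : Measurable fun p : E n × E n => p.1 - p.2 := measurable_fst.sub measurable_snd
  calc ∫⁻ x, ‖moll φ v x‖ₑ ≤ ∫⁻ x, ∫⁻ t, ‖φ.normed volume (x - t)‖ₑ * ‖v t‖ₑ := by
        apply lintegral_mono
        intro x
        beta_reduce
        rw [moll_eq]
        refine (enorm_integral_le_lintegral_enorm _).trans (le_of_eq ?_)
        apply lintegral_congr
        intro t
        rw [enorm_smul]
    _ = ∫⁻ t, ∫⁻ x, ‖φ.normed volume (x - t)‖ₑ * ‖v t‖ₑ := by
        apply lintegral_lintegral_swap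
        apply Measurable.aemeasurable
        exact ((hρm.comp hsub).enorm).mul (hv.comp measurable_snd).enorm
    _ = ∫⁻ t, ‖v t‖ₑ := by
        apply lintegral_congr
        intro t
        have hmt : Measurable fun x : E n => ‖φ.normed volume (x - t)‖ₑ :=
          (hρm.comp (measurable_id.sub_const t)).enorm
        rw [lintegral_mul_const _ hmt]
        have h1 : ∫⁻ x : E n, ‖φ.normed volume (x - t)‖ₑ = 1 := by
          rw [lintegral_sub_right_eq_self (fun x : E n => ‖φ.normed volume x‖ₑ) t]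
          have h2 : ∀ x : E n, ‖φ.normed volume x‖ₑ = ENNReal.ofReal (φ.normed volume x) := fun x =>
            Real.enorm_eq_ofReal (φ.nonneg_normed x)
          simp_rw [h2]
          rw [← ofReal_integral_eq_lintegral_ofReal φ.integrable_normed
            (Eventually.of_forall φ.nonneg_normed), φ.integral_normed, ENNReal.ofReal_one]
        rw [h1, one_mul]

end

/-- a sequence of shrinking bumps -/
def bump (n : ℕ) (ε : ℝ) (hε : 0 < ε) (k : ℕ) : ContDiffBump (0 : E n) :=
  ⟨ε / (k + 1) / 2, ε / (k + 1), by positivity, by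
    have : 0 < ε / ((k : ℝ) + 1) := by positivity
    linarith⟩

theorem moll_tendsto {G : Type*} [NormedAddCommGroup G] [NormedSpace ℝ G] [CompleteSpace G]
    [MeasurableSpace G] [BorelSpace G] [SecondCountableTopology G]
    {v : E n → G} (hv : Integrable v) (hvm : Measurable v) {ε : ℝ} (hε : 0 < ε) :
    Tendsto (fun k => ∫⁻ x, ‖moll (bump n ε hε k) v x - v x‖ₑ) atTop (𝓝 0) := by
  apply scheffe
  · intro k
    have : ContDiff ℝ 1 (moll (bump n ε hε k) v) := moll_contDiff _ hv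
    exact this.continuous.aestronglyMeasurable
  · exact hv.1
  · apply ContDiffBump.ae_convolution_tendsto_right_of_locallyIntegrable (K := 2)
    · have : Tendsto (fun k : ℕ => ε / ((k : ℝ) + 1)) atTop (𝓝 0) :=
        (tendsto_const_div_atTop_nhds_zero_nat ε).comp (tendsto_add_atTop_nat 1) |>.congr
          fun k => by simp
      exact this
    · filter_upwards with k
      simp only [bump]
      linarith
    · exact hv.locallyIntegrable
  · intro k
    exact lintegral_moll_le _ hvm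
  · exact hv.2.ne

end Pool.Agent.V1191.UC
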