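import Pool.Agent.V1191.UC.CP

/-!
# Bounds for the operator `T`
-/

set_option autoImplicit false

open MeasureTheory Filter Topology Metric Set
open scoped ENNReal NNReal

noncomputable section

namespace Pool.Agent.V1191.UC

variable {n : ℕ}

theorem inv_enorm_meas : Measurable fun ξ : ℂ => ‖ξ‖ₑ⁻¹ := measurable_enorm.inv

theorem inv_enorm_measE : Measurable fun ξ : E n => ‖ξ‖ₑ⁻¹ := measurable_enorm.inv

theorem one_sub_meas : Measurable fun ξ : ℂ => ‖1 - ξ‖ₑ⁻¹ :=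
  (measurable_const.sub measurable_id).enorm.inv

theorem smul_meas : Measurable fun p : E n × ℂ => p.2 • p.1 := by
  have : Continuous fun p : E n × ℂ => p.2 • p.1 := continuous_snd.smul continuous_fst
  exact this.measurable

theorem T_meas2 (N : ℕ) {H : E n → ℝ≥0∞} (hH : Measurable H) :
    Measurable fun p : E n × ℂ => ‖p.1‖ₑ * H (p.2 • p.1) * (‖p.2‖ₑ⁻¹) ^ N * ‖1 - p.2‖ₑ⁻¹ :=
  ((measurable_fst.enorm.mul (hH.comp smul_meas)).mul
    ((inv_enorm_meas.comp measurable_snd).pow_const N)).mul (one_sub_meas.comp measurable_snd)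

theorem T_meas (N : ℕ) {H : E n → ℝ≥0∞} (hH : Measurable H) : Measurable (T N H) :=
  (T_meas2 N hH).lintegral_prod_right'

theorem T_mono (N : ℕ) {H H' : E n → ℝ≥0∞} (h : ∀ x, H x ≤ H' x) (y : E n) :
    T N H y ≤ T N H' y := by
  unfold T
  apply lintegral_mono
  intro ξ
  exact mul_le_mul' (mul_le_mul' (mul_le_mul' le_rfl (h _)) le_rfl) le_rfl

theorem T_meas1 (N : ℕ) {H : E n → ℝ≥0∞} (hH : Measurable H) (y : E n) :
    Measurable fun ξ : ℂ => ‖y‖ₑ * H (ξ • y) * (‖ξ‖ₑ⁻¹) ^ N * ‖1 - ξ‖ₑ⁻¹ := by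
  have h : Measurable fun ξ : ℂ => ξ • y := (continuous_id.smul continuous_const).measurable
  exact ((measurable_const.mul (hH.comp h)).mul (inv_enorm_meas.pow_const N)).mul one_sub_meas

theorem T_add (N : ℕ) {H H' : E n → ℝ≥0∞} (hH : Measurable H) (y : E n) :
    T N (fun x => H x + H' x) y = T N H y + T N H' y := by
  unfold T
  rw [← lintegral_add_left]
  · apply lintegral_congr
    intro ξ
    ring
  · exact T_meas1 N hH y

theorem T_bound (N : ℕ) {a b R : ℝ} (ha : 0 < a) :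
    ∃ C : ℝ≥0∞, C ≠ ∞ ∧ ∀ H : E n → ℝ≥0∞, Measurable H → (∀ x, R ≤ ‖x‖ → H x = 0) →
      ∫⁻ y in {y : E n | a < ‖y‖ ∧ ‖y‖ < b}, T N H y ≤ C * ∫⁻ x, H x * (‖x‖ₑ⁻¹) ^ (N + 2 * n) := by
  set A : Set (E n) := {y : E n | a < ‖y‖ ∧ ‖y‖ < b} with hA
  have hAm : MeasurableSet A := by
    apply MeasurableSet.inter
    · exact measurableSet_lt measurable_const measurable_norm
    · exact measurableSet_lt measurable_norm measurable_const
  set C1 := ∫⁻ ξ in ball (0 : ℂ) (R / a), ‖1 - ξ‖ₑ⁻¹ with hC1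
  have hC1f : C1 < ∞ := lintegral_cauchy_lt _
  refine ⟨ENNReal.ofReal b ^ (N + 2 * n + 1) * C1,
    ENNReal.mul_ne_top (ENNReal.pow_ne_top ENNReal.ofReal_ne_top) hC1f.ne, fun H hH hHR => ?_⟩
  have hne0 : ∀ᵐ ξ : ℂ, ξ ≠ 0 := by simp [ae_iff, measure_singleton]
  have s1 : ∫⁻ y in A, T N H y = ∫⁻ ξ : ℂ, ∫⁻ y in A, ‖y‖ₑ * H (ξ • y) * (‖ξ‖ₑ⁻¹) ^ N * ‖1 - ξ‖ₑ⁻¹ := by
    unfold T
    rw [lintegral_lintegral_swap]
    exact (T_meas2 N hH).aemeasurable
  have hinvsmul : Measurable fun p : ℂ × E n => p.1⁻¹ • p.2 :=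
    (measurable_fst.inv).smul measurable_snd
  have hQ : Measurable fun p : ℂ × E n => A.indicator (fun y => ‖y‖ₑ) (p.1⁻¹ • p.2) :=
    (measurable_enorm.indicator hAm).comp hinvsmul
  have s2 : ∀ ξ : ℂ, ξ ≠ 0 → ∫⁻ y in A, ‖y‖ₑ * H (ξ • y) * (‖ξ‖ₑ⁻¹) ^ N * ‖1 - ξ‖ₑ⁻¹
      = ∫⁻ x, (‖ξ‖ₑ⁻¹) ^ (N + 2 * n) * ‖1 - ξ‖ₑ⁻¹ *
        (A.indicator (fun y => ‖y‖ₑ) (ξ⁻¹ • x) * H x) := by
    intro ξ hξ
    set Q : E n → ℝ≥0∞ := fun x => A.indicator (fun y => ‖y‖ₑ) (ξ⁻¹ • x) * H x with hQdef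
    have hQm : Measurable Q := by
      have h : Measurable fun x : E n => (ξ, x) := measurable_const.prodMk measurable_id
      exact (hQ.comp h).mul hH
    have e1 : ∫⁻ y in A, ‖y‖ₑ * H (ξ • y) * (‖ξ‖ₑ⁻¹) ^ N * ‖1 - ξ‖ₑ⁻¹
        = ∫⁻ y, ((‖ξ‖ₑ⁻¹) ^ N * ‖1 - ξ‖ₑ⁻¹) * Q (ξ • y) := by
      rw [← lintegral_indicator hAm]
      apply lintegral_congr
      intro y
      rw [hQdef]
      simp only
      rw [inv_smul_smul₀ hξ]
      by_cases hy : y ∈ A
      · rw [indicator_of_mem hy, indicator_of_mem hy]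
        ring
      · rw [indicator_of_notMem hy, indicator_of_notMem hy]
        simp
    have hQs : Measurable fun y : E n => Q (ξ • y) := hQm.comp (measurable_const_smul ξ)
    rw [e1, lintegral_const_mul _ hQs, lintegral_smulE hξ hQm, lintegral_const_mul _ hQm, pow_add]
    ring
  have s3 : ∫⁻ ξ : ℂ, ∫⁻ y in A, ‖y‖ₑ * H (ξ • y) * (‖ξ‖ₑ⁻¹) ^ N * ‖1 - ξ‖ₑ⁻¹
      = ∫⁻ ξ : ℂ, ∫⁻ x, (‖ξ‖ₑ⁻¹) ^ (N + 2 * n) * ‖1 - ξ‖ₑ⁻¹ *
        (A.indicator (fun y => ‖y‖ₑ) (ξ⁻¹ • x) * H x) := by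
    apply lintegral_congr_ae
    filter_upwards [hne0] with ξ hξ using s2 ξ hξ
  have hmeas3 : Measurable fun p : ℂ × E n => (‖p.1‖ₑ⁻¹) ^ (N + 2 * n) * ‖1 - p.1‖ₑ⁻¹ *
        (A.indicator (fun y => ‖y‖ₑ) (p.1⁻¹ • p.2) * H p.2) :=
    (((inv_enorm_meas.comp measurable_fst).pow_const _).mul (one_sub_meas.comp measurable_fst)).mul
      (hQ.mul (hH.comp measurable_snd))
  rw [s1, s3, lintegral_lintegral_swap hmeas3.aemeasurable, ← lintegral_const_mul]
  · apply lintegral_mono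
    intro x
    simp only
    by_cases hx : R ≤ ‖x‖
    · rw [hHR x hx]
      simp
    rw [not_le] at hx
    calc ∫⁻ ξ : ℂ, (‖ξ‖ₑ⁻¹) ^ (N + 2 * n) * ‖1 - ξ‖ₑ⁻¹ *
          (A.indicator (fun y => ‖y‖ₑ) (ξ⁻¹ • x) * H x)
        ≤ ∫⁻ ξ : ℂ, (ball (0 : ℂ) (R / a)).indicator (fun ξ => ENNReal.ofReal b ^ (N + 2 * n + 1) *
            (H x * (‖x‖ₑ⁻¹) ^ (N + 2 * n)) * ‖1 - ξ‖ₑ⁻¹) ξ := by
          apply lintegral_mono_ae
          filter_upwards [hne0] with ξ hξ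
          have hξ' : 0 < ‖ξ‖ := norm_pos_iff.mpr hξ
          by_cases hm : ξ⁻¹ • x ∈ A
          · rw [indicator_of_mem hm]
            have hm' := hm
            rw [hA] at hm'
            simp only [mem_ofPred_eq, norm_smul, norm_inv] at hm'
            obtain ⟨i1, i2⟩ := hm'
            have hx0 : 0 < ‖x‖ := by
              by_contra hcon
              have : ‖x‖ = 0 := le_antisymm (not_lt.mp hcon) (norm_nonneg x)
              rw [this, mul_zero] at i1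
              linarith
            have hb0 : 0 < b := ha.trans (i1.trans i2)
            have hball : ξ ∈ ball (0 : ℂ) (R / a) := by
              rw [mem_ball_zero_iff, lt_div_iff₀ ha]
              rw [inv_mul_eq_div, lt_div_iff₀ hξ'] at i1
              linarith
            rw [indicator_of_mem hball]
            have j1 : ‖ξ‖ₑ⁻¹ ≤ ENNReal.ofReal b * ‖x‖ₑ⁻¹ := by
              have hxne : x ≠ 0 := norm_pos_iff.mp hx0
              rw [← ofReal_norm, ← ofReal_norm, ← ENNReal.ofReal_inv_of_pos hξ',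
                ← ENNReal.ofReal_inv_of_pos hx0, ← ENNReal.ofReal_mul hb0.le]
              apply ENNReal.ofReal_le_ofReal
              rw [← div_eq_mul_inv, le_div_iff₀ hx0]
              exact i2.le
            have j2 : ‖ξ⁻¹ • x‖ₑ ≤ ENNReal.ofReal b := by
              rw [← ofReal_norm, norm_smul, norm_inv]
              exact ENNReal.ofReal_le_ofReal i2.le
            calc (‖ξ‖ₑ⁻¹) ^ (N + 2 * n) * ‖1 - ξ‖ₑ⁻¹ * (‖ξ⁻¹ • x‖ₑ * H x)
                ≤ (ENNReal.ofReal b * ‖x‖ₑ⁻¹) ^ (N + 2 * n) * ‖1 - ξ‖ₑ⁻¹ *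
                  (ENNReal.ofReal b * H x) := by gcongr
              _ = _ := by
                rw [mul_pow, pow_succ (ENNReal.ofReal b)]
                ring
          · rw [indicator_of_notMem hm]
            simp
      _ = ENNReal.ofReal b ^ (N + 2 * n + 1) * (H x * (‖x‖ₑ⁻¹) ^ (N + 2 * n)) * C1 := by
          rw [lintegral_indicator measurableSet_ball, lintegral_const_mul _ one_sub_meas]
      _ = _ := by ring
  · exact hH.mul (inv_enorm_measE.pow_const _)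

end Pool.Agent.V1191.UC
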